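import Mathlib

/-!
Minimal actions with an infinite group of commuting symmetries give syndetic submeasures.
-/

set_option autoImplicit false
open Topology Pointwise

namespace Pool.Agent.H60.SM

/-- `G` admits a left-invariant syndetic submeasure (with arbitrarily small `ε > 0`, which is
the definition for infinite groups). -/
def HasSyndeticSubmeasure (G : Type) [Group G] : Prop :=
  ∃ μ : Set G → ℝ,
    (∀ A : Set G, 0 ≤ μ A ∧ μ A ≤ 1) ∧
    μ ∅ = 0 ∧ μ Set.univ = 1 ∧
    (∀ A B : Set G, A ⊆ B → μ A ≤ μ B) ∧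
    (∀ A B : Set G, μ (A ∪ B) ≤ μ A + μ B) ∧
    (∀ (x : G) (A : Set G), μ ((fun y => x * y) '' A) = μ A) ∧
    (∀ A : Set G, μ A < 1 → ∀ ε : ℝ, 0 < ε →
      ∃ B ⊆ Aᶜ, μ B < ε ∧
        ∃ F : Finset G, ∀ g : G, ∃ f ∈ F, ∃ b ∈ B, g = f * b)

section Seq

variable {A : Type} [Group A]

open Classical in
lemma exists_shift [Infinite A] (S : Finset A) : ∃ b : A, Disjoint S (S.image (fun s => s * b)) := by
  obtain ⟨b, hb⟩ := Infinite.exists_notMem_finset ((S ×ˢ S).image (fun p => p.1⁻¹ * p.2))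
  refine ⟨b, ?_⟩
  rw [Finset.disjoint_left]
  intro s hs hs'
  obtain ⟨s', hs'', h⟩ := Finset.mem_image.1 hs'
  apply hb
  refine Finset.mem_image.2 ⟨(s', s), Finset.mem_product.2 ⟨hs'', hs⟩, ?_⟩
  simp only
  rw [← h]; group

open Classical in
noncomputable def Th [Infinite A] : ℕ → Finset A
  | 0 => {1}
  | n + 1 => Th n ∪ (Th n).image (fun s => s * (exists_shift (Th n)).choose)

lemma Th_card [Infinite A] (n : ℕ) : (Th (A := A) n).card = 2 ^ n := by
  classical
  induction n with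
  | zero => simp [Th]
  | succ n ih =>
    have h := (exists_shift (Th (A := A) n)).choose_spec
    rw [Th]
    rw [Finset.card_union_of_disjoint (by convert h), Finset.card_image_of_injective _
      (mul_left_injective _), ih]
    ring

end Seq

section Main

variable {G W A : Type} [Group G] [MulAction G W] [TopologicalSpace W] [T2Space W]
  [ContinuousConstSMul G W] [Group A] [MulAction A W] [ContinuousConstSMul A W]
  [Infinite A]

open Classical in
/-- number of `θ ∈ S` with `θ • z ∈ V` -/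
noncomputable def cnt (S : Finset A) (V : Set W) (z : W) : ℝ :=
  ((S.filter (fun θ => θ • z ∈ V)).card : ℝ)

omit [TopologicalSpace W] [T2Space W] [ContinuousConstSMul A W] [Infinite A] in
lemma cnt_nonneg (S : Finset A) (V : Set W) (z : W) : 0 ≤ cnt S V z := by
  unfold cnt; positivity

omit [TopologicalSpace W] [T2Space W] [ContinuousConstSMul A W] [Infinite A] in
lemma cnt_le (S : Finset A) (V : Set W) (z : W) : cnt S V z ≤ S.card := by
  classical
  unfold cnt
  exact_mod_cast Finset.card_filter_le _ _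

omit [TopologicalSpace W] [T2Space W] [ContinuousConstSMul A W] [Infinite A] in
lemma cnt_mono (S : Finset A) {U V : Set W} (h : U ⊆ V) (z : W) : cnt S U z ≤ cnt S V z := by
  classical
  unfold cnt
  exact_mod_cast Finset.card_le_card (Finset.monotone_filter_right _ (fun θ _ hθ => h hθ))

omit [TopologicalSpace W] [T2Space W] [ContinuousConstSMul A W] [Infinite A] in
lemma cnt_union (S : Finset A) (U V : Set W) (z : W) :
    cnt S (U ∪ V) z ≤ cnt S U z + cnt S V z := by
  classical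
  unfold cnt
  have : (S.filter (fun θ => θ • z ∈ U ∪ V)) ⊆
      (S.filter (fun θ => θ • z ∈ U)) ∪ (S.filter (fun θ => θ • z ∈ V)) := by
    intro θ hθ
    simp only [Finset.mem_filter, Finset.mem_union, Set.mem_union] at hθ ⊢
    tauto
  calc _ ≤ (((S.filter (fun θ => θ • z ∈ U)) ∪ (S.filter (fun θ => θ • z ∈ V))).card : ℝ) :=
        Nat.cast_le.2 (by convert Finset.card_le_card this)
    _ ≤ _ := by exact_mod_cast Finset.card_union_le _ _

omit [TopologicalSpace W] [T2Space W] [ContinuousConstSMul A W] in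
lemma cnt_succ (n : ℕ) (V : Set W) (z : W) :
    cnt (Th (A := A) (n + 1)) V z = cnt (Th (A := A) n) V z +
      cnt (Th (A := A) n) V ((exists_shift (Th (A := A) n)).choose • z) := by
  classical
  have h := (exists_shift (Th (A := A) n)).choose_spec
  set b := (exists_shift (Th (A := A) n)).choose with hb
  unfold cnt
  rw [Th, Finset.filter_union, Finset.card_union_of_disjoint, Nat.cast_add]
  · congr 2
    rw [Finset.filter_image, Finset.card_image_of_injective _ (mul_left_injective _)]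
    congr 1
    ext θ
    simp only [Finset.mem_filter, mul_smul, hb]
  · apply Finset.disjoint_filter_filter
    convert h

/-- the level-`n` size of a set -/
noncomputable def mN (A : Type) [Group A] [MulAction A W] [Infinite A] (Y V : Set W) (n : ℕ) : ℝ :=
  ⨆ z : Y, cnt (Th (A := A) n) V z / 2 ^ n

noncomputable def mm (A : Type) [Group A] [MulAction A W] [Infinite A] (Y V : Set W) : ℝ :=
  ⨅ n : ℕ, mN A Y V n

omit [TopologicalSpace W] [T2Space W] [ContinuousConstSMul A W] in
lemma cnt_div_le (n : ℕ) (V : Set W) (z : W) : cnt (Th (A := A) n) V z / 2 ^ n ≤ 1 := by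
  rw [div_le_one (by positivity)]
  have := cnt_le (Th (A := A) n) V z
  rw [Th_card] at this
  exact_mod_cast this

omit [TopologicalSpace W] [T2Space W] [ContinuousConstSMul A W] in
lemma bdd (Y V : Set W) (n : ℕ) :
    BddAbove (Set.range (fun z : Y => cnt (Th (A := A) n) V z / 2 ^ n)) :=
  ⟨1, by rintro _ ⟨z, rfl⟩; exact cnt_div_le n V z⟩

omit [TopologicalSpace W] [T2Space W] [ContinuousConstSMul A W] in
lemma mN_nonneg (Y V : Set W) (n : ℕ) : 0 ≤ mN A Y V n :=
  Real.iSup_nonneg (fun z => div_nonneg (cnt_nonneg _ _ _) (by positivity))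

omit [TopologicalSpace W] [T2Space W] [ContinuousConstSMul A W] in
lemma mN_le_one (Y V : Set W) (n : ℕ) : mN A Y V n ≤ 1 :=
  Real.iSup_le (fun z => cnt_div_le n V z) zero_le_one

omit [TopologicalSpace W] [T2Space W] [ContinuousConstSMul A W] in
lemma le_mN {Y V : Set W} {n : ℕ} {z : W} (hz : z ∈ Y) :
    cnt (Th (A := A) n) V z / 2 ^ n ≤ mN A Y V n :=
  le_ciSup (bdd Y V n) (⟨z, hz⟩ : Y)

omit [TopologicalSpace W] [T2Space W] [ContinuousConstSMul A W] in
lemma bddB (Y V : Set W) : BddBelow (Set.range (fun n => mN A Y V n)) :=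
  ⟨0, by rintro _ ⟨n, rfl⟩; exact mN_nonneg Y V n⟩

omit [TopologicalSpace W] [T2Space W] [ContinuousConstSMul A W] in
lemma mm_le (Y V : Set W) (n : ℕ) : mm A Y V ≤ mN A Y V n := ciInf_le (bddB Y V) n

omit [TopologicalSpace W] [T2Space W] [ContinuousConstSMul A W] in
lemma mN_mono {Y U V : Set W} (h : U ⊆ V) (n : ℕ) : mN A Y U n ≤ mN A Y V n := by
  refine Real.iSup_le (fun z => ?_) (mN_nonneg Y V n)
  refine le_trans ?_ (le_mN z.2)
  gcongr
  exact cnt_mono _ h _

omit [TopologicalSpace W] [T2Space W] [ContinuousConstSMul A W] in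
lemma mm_mono {Y U V : Set W} (h : U ⊆ V) : mm A Y U ≤ mm A Y V :=
  le_ciInf (fun n => (mm_le Y U n).trans (mN_mono h n))

omit [TopologicalSpace W] [T2Space W] [ContinuousConstSMul A W] in
lemma mN_anti {Y : Set W} (hYA : ∀ a : A, ∀ y ∈ Y, a • y ∈ Y) (V : Set W) :
    Antitone (mN A Y V) := by
  refine antitone_nat_of_succ_le (fun n => ?_)
  refine Real.iSup_le (fun z => ?_) (mN_nonneg Y V n)
  rw [cnt_succ]
  have h1 := le_mN (A := A) (V := V) (n := n) z.2
  have h2 := le_mN (A := A) (V := V) (n := n) (hYA (exists_shift (Th (A := A) n)).choose z z.2)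
  rw [pow_succ, div_le_iff₀ (by positivity)]
  rw [div_le_iff₀ (by positivity)] at h1 h2
  linarith

omit [TopologicalSpace W] [T2Space W] [ContinuousConstSMul A W] in
lemma mN_union (Y U V : Set W) (n : ℕ) : mN A Y (U ∪ V) n ≤ mN A Y U n + mN A Y V n := by
  refine Real.iSup_le (fun z => ?_) (add_nonneg (mN_nonneg Y U n) (mN_nonneg Y V n))
  have h1 := le_mN (A := A) (V := U) (n := n) z.2
  have h2 := le_mN (A := A) (V := V) (n := n) z.2
  have h3 := cnt_union (Th (A := A) n) U V (z : W)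
  calc _ ≤ (cnt (Th (A := A) n) U (z : W) + cnt (Th (A := A) n) V (z : W)) / 2 ^ n := by gcongr
    _ = _ := add_div _ _ _
    _ ≤ _ := add_le_add h1 h2

omit [TopologicalSpace W] [T2Space W] [ContinuousConstSMul A W] in
lemma mm_union {Y : Set W} (hYA : ∀ a : A, ∀ y ∈ Y, a • y ∈ Y) (U V : Set W) :
    mm A Y (U ∪ V) ≤ mm A Y U + mm A Y V := by
  refine le_ciInf_add_ciInf (fun i j => ?_)
  refine (mm_le Y (U ∪ V) (max i j)).trans ((mN_union Y U V _).trans ?_)
  exact add_le_add (mN_anti hYA U (le_max_left _ _)) (mN_anti hYA V (le_max_right _ _))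

omit [TopologicalSpace W] [T2Space W] [ContinuousConstSMul G W] [ContinuousConstSMul A W] in
lemma mm_smul_le (hcomm : ∀ (a : A) (g : G) (w : W), a • g • w = g • a • w)
    {Y : Set W} (hYG : ∀ g : G, ∀ y ∈ Y, g • y ∈ Y) (V : Set W) (g : G) :
    mm A Y (g • V) ≤ mm A Y V := by
  refine le_ciInf (fun n => (mm_le Y (g • V) n).trans ?_)
  refine Real.iSup_le (fun z => ?_) (mN_nonneg Y V n)
  refine le_trans (le_of_eq ?_) (le_mN (A := A) (V := V) (n := n) (hYG g⁻¹ z z.2))
  congr 1
  classical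
  unfold cnt
  congr 2
  ext θ
  simp only [Finset.mem_filter, Set.mem_smul_set_iff_inv_smul_mem, hcomm]

omit [TopologicalSpace W] [T2Space W] [ContinuousConstSMul G W] [ContinuousConstSMul A W] in
lemma mm_smul (hcomm : ∀ (a : A) (g : G) (w : W), a • g • w = g • a • w)
    {Y : Set W} (hYG : ∀ g : G, ∀ y ∈ Y, g • y ∈ Y) (V : Set W) (g : G) :
    mm A Y (g • V) = mm A Y V := by
  refine le_antisymm (mm_smul_le hcomm hYG V g) ?_
  have := mm_smul_le hcomm hYG (g • V) g⁻¹
  rwa [inv_smul_smul] at this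

omit [Infinite A] in
/-- small open sets: every point has an open neighbourhood that no `z` visits twice. -/
lemma small_nhds (S : Finset A) {w₀ : W} (hfree : ∀ a : A, a ≠ 1 → a • w₀ ≠ w₀) :
    ∃ U : Set W, IsOpen U ∧ w₀ ∈ U ∧ ∀ z, cnt S U z ≤ 1 := by
  classical
  have key : ∀ τ : A, τ ≠ 1 → ∃ U : Set W, IsOpen U ∧ w₀ ∈ U ∧ ∀ w ∈ U, τ • w ∉ U := by
    intro τ hτ
    obtain ⟨P, Q, hP, hQ, hwP, hwQ, hPQ⟩ := t2_separation (hfree τ hτ).symm
    refine ⟨P ∩ (fun w => τ • w) ⁻¹' Q, hP.inter (hQ.preimage (continuous_const_smul τ)),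
      ⟨hwP, hwQ⟩, ?_⟩
    intro w hw hw'
    exact Set.disjoint_left.1 hPQ hw'.1 hw.2
  choose! U hUo hUw hU using key
  let T : Finset A := ((S ×ˢ S).image (fun p => p.2 * p.1⁻¹)).erase 1
  refine ⟨⋂ τ ∈ T, U τ, ?_, ?_, ?_⟩
  · exact isOpen_biInter_finset (fun τ hτ => hUo τ (Finset.ne_of_mem_erase hτ))
  · simp only [Set.mem_iInter]
    exact fun τ hτ => hUw τ (Finset.ne_of_mem_erase hτ)
  · intro z
    unfold cnt
    have : (S.filter (fun θ => θ • z ∈ ⋂ τ ∈ T, U τ)).card ≤ 1 := by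
      rw [Finset.card_le_one]
      intro θ hθ θ' hθ'
      by_contra hne
      rw [Finset.mem_filter] at hθ hθ'
      have hτ : θ' * θ⁻¹ ∈ T := by
        refine Finset.mem_erase.2 ⟨?_, Finset.mem_image.2 ⟨(θ, θ'), Finset.mem_product.2
          ⟨hθ.1, hθ'.1⟩, rfl⟩⟩
        intro h
        exact hne (mul_inv_eq_one.1 h).symm
      have h1 : θ • z ∈ U (θ' * θ⁻¹) := by
        have := hθ.2
        simp only [Set.mem_iInter] at this
        exact this _ hτ
      have h2 : θ' • z ∈ U (θ' * θ⁻¹) := by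
        have := hθ'.2
        simp only [Set.mem_iInter] at this
        exact this _ hτ
      refine hU (θ' * θ⁻¹) (Finset.ne_of_mem_erase hτ) (θ • z) h1 ?_
      rw [smul_smul, inv_mul_cancel_right]
      exact h2
    exact_mod_cast this

/-- **Core theorem.** -/
theorem core (hcomm : ∀ (a : A) (g : G) (w : W), a • g • w = g • a • w)
    (Y : Set W) (hYc : IsCompact Y) (hYne : Y.Nonempty)
    (hYG : ∀ g : G, ∀ y ∈ Y, g • y ∈ Y) (hYA : ∀ a : A, ∀ y ∈ Y, a • y ∈ Y)
    (hmin : ∀ Z ⊆ Y, IsClosed Z → (∀ g : G, ∀ z ∈ Z, g • z ∈ Z) → Z.Nonempty → Z = Y)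
    (hfree : ∀ a : A, a ≠ 1 → ∀ y ∈ Y, a • y ≠ y) : HasSyndeticSubmeasure G := by
  classical
  obtain ⟨x₀, hx₀⟩ := hYne
  have hYcl : IsClosed Y := hYc.isClosed
  let φ : G → W := fun g => g • x₀
  have hφY : ∀ A' : Set G, closure (φ '' A') ⊆ Y := fun A' =>
    closure_minimal (by rintro _ ⟨g, _, rfl⟩; exact hYG g x₀ hx₀) hYcl
  have hdense : closure (φ '' Set.univ) = Y := by
    refine hmin _ (hφY _) isClosed_closure ?_ ⟨φ 1, subset_closure ⟨1, trivial, rfl⟩⟩
    intro g z hz
    have h1 : g • z ∈ g • closure (φ '' Set.univ) := Set.smul_mem_smul_set hz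
    rw [← closure_smul] at h1
    refine closure_mono ?_ h1
    rintro _ ⟨_, ⟨h, _, rfl⟩, rfl⟩
    exact ⟨g * h, trivial, mul_smul g h x₀⟩
  have hcover : ∀ O : Set W, IsOpen O → (O ∩ Y).Nonempty →
      ∃ F : Finset G, ∀ g : G, ∃ f ∈ F, (f⁻¹ * g) • x₀ ∈ O := by
    intro O hO hne
    have h1 : ∀ y ∈ Y, ∃ g : G, g • y ∈ O := by
      intro y hy
      have h2 : closure (Set.range (fun g : G => g • y)) = Y := by
        refine hmin _ (closure_minimal (by rintro _ ⟨g, rfl⟩; exact hYG g y hy) hYcl)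
          isClosed_closure ?_ ⟨y, subset_closure ⟨1, one_smul _ _⟩⟩
        intro g z hz
        have h1 : g • z ∈ g • closure (Set.range (fun g : G => g • y)) :=
          Set.smul_mem_smul_set hz
        rw [← closure_smul] at h1
        refine closure_mono ?_ h1
        rintro _ ⟨_, ⟨h, rfl⟩, rfl⟩
        exact ⟨g * h, mul_smul g h y⟩
      obtain ⟨o, hoO, hoY⟩ := hne
      rw [← h2] at hoY
      obtain ⟨_, h3, ⟨g, rfl⟩⟩ := mem_closure_iff.1 hoY O hO hoO
      exact ⟨g, h3⟩
    obtain ⟨t, ht⟩ := hYc.elim_finite_subcover (fun g : G => (fun y => g⁻¹ • y) ⁻¹' O)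
      (fun g => hO.preimage (continuous_const_smul _)) (by
        intro y hy
        obtain ⟨g, hg⟩ := h1 y hy
        exact Set.mem_iUnion.2 ⟨g⁻¹, by simpa using hg⟩)
    refine ⟨t, fun g => ?_⟩
    have := ht (hYG g x₀ hx₀)
    simp only [Set.mem_iUnion] at this
    obtain ⟨f, hf, hfg⟩ := this
    refine ⟨f, hf, ?_⟩
    rw [mul_smul]
    exact hfg
  refine ⟨fun B => mm A Y (closure (φ '' B)), ?_, ?_, ?_, ?_, ?_, ?_, ?_⟩
  · intro B
    exact ⟨le_ciInf (fun n => mN_nonneg _ _ n), (mm_le _ _ 0).trans (mN_le_one _ _ _)⟩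
  · refine le_antisymm ((mm_le _ _ 0).trans ?_) (le_ciInf (fun n => mN_nonneg _ _ n))
    refine Real.iSup_le (fun z => ?_) le_rfl
    simp [cnt]
  · refine le_antisymm ((mm_le _ _ 0).trans (mN_le_one _ _ _)) (le_ciInf (fun n => ?_))
    refine le_trans (le_of_eq ?_) (le_mN (A := A) (n := n) hx₀)
    rw [hdense]
    have : (Th (A := A) n).filter (fun θ => θ • x₀ ∈ Y) = Th (A := A) n :=
      Finset.filter_true_of_mem (fun θ _ => hYA θ x₀ hx₀)
    unfold cnt
    rw [eq_comm, div_eq_one_iff_eq (by positivity)]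
    have h2 := Th_card (A := A) n
    rw [← this] at h2
    exact_mod_cast (by convert h2)
  · intro B C hBC
    exact mm_mono (closure_mono (Set.image_mono hBC))
  · intro B C
    show mm A Y (closure (φ '' (B ∪ C))) ≤ _
    rw [Set.image_union, closure_union]
    exact mm_union hYA _ _
  · intro x B
    show mm A Y (closure (φ '' ((fun y => x * y) '' B))) = mm A Y (closure (φ '' B))
    have h1 : φ '' ((fun y => x * y) '' B) = x • (φ '' B) := by
      ext z
      constructor
      · rintro ⟨_, ⟨a, ha, rfl⟩, rfl⟩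
        exact ⟨φ a, ⟨a, ha, rfl⟩, (mul_smul x a x₀).symm⟩
      · rintro ⟨_, ⟨a, ha, rfl⟩, rfl⟩
        exact ⟨x * a, ⟨a, ha, rfl⟩, mul_smul x a x₀⟩
    rw [h1, closure_smul, mm_smul hcomm hYG]
  · intro B hB ε hε
    have hε0 : 0 < ε := hε
    have hB' : mm A Y (closure (φ '' B)) < 1 := hB
    have hne : (Y \ closure (φ '' B)).Nonempty := by
      rw [Set.sdiff_nonempty]
      intro hsub
      have h1 : (1 : ℝ) ≤ mm A Y (closure (φ '' B)) := by
        refine le_ciInf (fun n => ?_)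
        refine le_trans (le_of_eq ?_) (le_mN (A := A) (n := n) hx₀)
        have : (Th (A := A) n).filter (fun θ => θ • x₀ ∈ closure (φ '' B)) = Th (A := A) n :=
          Finset.filter_true_of_mem (fun θ _ => hsub (hYA θ x₀ hx₀))
        unfold cnt
        rw [eq_comm, div_eq_one_iff_eq (by positivity)]
        have h2 := Th_card (A := A) n
        rw [← this] at h2
        exact_mod_cast (by convert h2)
      linarith
    obtain ⟨w₀, hw₀Y, hw₀⟩ := hne
    obtain ⟨k, hk⟩ := exists_pow_lt_of_lt_one hε0 (by norm_num : (1 / 2 : ℝ) < 1)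
    obtain ⟨U, hUo, hw₀U, hU⟩ := small_nhds (Th (A := A) k) (w₀ := w₀)
      (fun a ha => hfree a ha w₀ hw₀Y)
    -- a smaller open set whose closure (inside `Y`) is contained in `U` and misses `closure (φ '' B)`
    have hC1 : IsCompact (Y \ (U \ closure (φ '' B))) :=
      hYc.diff (hUo.sdiff isClosed_closure)
    obtain ⟨O, O', hO, hO', hsubO, hwO', hdis⟩ := SeparatedNhds.of_isCompact_isCompact hC1
      (isCompact_singleton (x := w₀)) (by
        rw [Set.disjoint_singleton_right]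
        intro h
        exact h.2 ⟨hw₀U, hw₀⟩)
    have hw₀O' : w₀ ∈ O' := hwO' rfl
    have hcl : closure O' ∩ Y ⊆ U \ closure (φ '' B) := by
      intro z hz
      by_contra hcon
      have h1 : z ∈ O := hsubO ⟨hz.2, hcon⟩
      obtain ⟨_, h2, h3⟩ := mem_closure_iff.1 hz.1 O hO h1
      exact Set.disjoint_left.1 hdis h2 h3
    refine ⟨φ ⁻¹' O', ?_, ?_, ?_⟩
    · intro g hg hgB
      have h1 : φ g ∈ closure O' ∩ Y := ⟨subset_closure hg, hYG g x₀ hx₀⟩
      exact (hcl h1).2 (subset_closure ⟨g, hgB, rfl⟩)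
    · show mm A Y (closure (φ '' (φ ⁻¹' O'))) < ε
      have h1 : closure (φ '' (φ ⁻¹' O')) ⊆ U := fun z hz =>
        (hcl ⟨closure_mono (Set.image_preimage_subset _ _) hz, hφY _ hz⟩).1
      refine lt_of_le_of_lt ((mm_mono h1).trans (mm_le _ _ k)) (lt_of_le_of_lt ?_ hk)
      refine Real.iSup_le (fun z => ?_) (by positivity)
      rw [one_div_pow]
      gcongr
      exact hU z
    · obtain ⟨F, hF⟩ := hcover O' hO' ⟨w₀, hw₀O', hw₀Y⟩
      refine ⟨F, fun g => ?_⟩
      obtain ⟨f, hf, hfg⟩ := hF g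
      exact ⟨f, hf, f⁻¹ * g, hfg, by group⟩

end Main

end Pool.Agent.H60.SM
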