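import Mathlib
import Pool.Agent.H60.SM.Core

/-!
Circle-valued functions with an eigenfunction in every orbit closure.
-/

set_option autoImplicit false
open Topology Pointwise

namespace Pool.Agent.H60.SM

/-- a minimal action with an infinite group of commuting symmetries -/
theorem minimal_flow (G X A : Type) [Group G] [TopologicalSpace X] [CompactSpace X] [T2Space X]
    [Nonempty X] [MulAction G X] [ContinuousConstSMul G X] [MulAction.IsMinimal G X]
    [Group A] [Infinite A] [MulAction A X] [ContinuousConstSMul A X] [FaithfulSMul A X]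
    (hcomm : ∀ (a : A) (g : G) (x : X), a • g • x = g • a • x) : HasSyndeticSubmeasure G := by
  refine core (A := A) hcomm Set.univ isCompact_univ Set.univ_nonempty
    (fun _ _ _ => trivial) (fun _ _ _ => trivial) ?_ ?_
  · intro Z _ hZ hZG hne
    rcases eq_empty_or_univ_of_smul_invariant_closed G hZ (by
      rintro c _ ⟨z, hz, rfl⟩; exact hZG c z hz) with h | h
    · exact absurd h hne.ne_empty
    · exact h
  · intro a ha y _ hay
    have hcl : IsClosed {x : X | a • x = x} := isClosed_eq (continuous_const_smul a) continuous_id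
    rcases eq_empty_or_univ_of_smul_invariant_closed G hcl (by
      rintro c _ ⟨z, hz, rfl⟩
      have hz' : a • z = z := hz
      show a • c • z = c • z
      rw [hcomm, hz']) with h | h
    · have : y ∈ ({x : X | a • x = x}) := hay
      rw [h] at this
      exact this
    · apply ha
      apply FaithfulSMul.eq_of_smul_eq_smul (α := X)
      intro x
      have : x ∈ ({x : X | a • x = x}) := by rw [h]; trivial
      rw [one_smul]
      exact this

/-- existence of minimal closed invariant sets -/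
lemma exists_min {G W : Type} [Group G] [MulAction G W] [TopologicalSpace W] [CompactSpace W]
    (W₀ : Set W) (hcl : IsClosed W₀) (hne : W₀.Nonempty) (hG : ∀ g : G, ∀ w ∈ W₀, g • w ∈ W₀) :
    ∃ Y ⊆ W₀, IsClosed Y ∧ Y.Nonempty ∧ (∀ g : G, ∀ y ∈ Y, g • y ∈ Y) ∧
      ∀ Z ⊆ Y, IsClosed Z → (∀ g : G, ∀ z ∈ Z, g • z ∈ Z) → Z.Nonempty → Z = Y := by
  obtain ⟨Y, hY⟩ := zorn_superset {Z : Set W | Z ⊆ W₀ ∧ IsClosed Z ∧ Z.Nonempty ∧
      ∀ g : G, ∀ z ∈ Z, g • z ∈ Z} (by
    intro c hc hchain
    rcases c.eq_empty_or_nonempty with rfl | hcne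
    · exact ⟨W₀, ⟨subset_rfl, hcl, hne, hG⟩, by simp⟩
    · refine ⟨⋂₀ c, ⟨?_, ?_, ?_, ?_⟩, fun s hs => Set.sInter_subset_of_mem hs⟩
      · obtain ⟨s, hs⟩ := hcne
        exact (Set.sInter_subset_of_mem hs).trans (hc hs).1
      · exact isClosed_sInter (fun s hs => (hc hs).2.1)
      · haveI : Nonempty c := hcne.to_subtype
        exact IsCompact.nonempty_sInter_of_directed_nonempty_isCompact_isClosed
          (S := c) (fun s hs u hu => by
            rcases hchain.total hs hu with h | h
            · exact ⟨s, hs, subset_rfl, h⟩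
            · exact ⟨u, hu, h, subset_rfl⟩) (fun s hs => (hc hs).2.2.1)
          (fun s hs => (hc hs).2.1.isCompact) (fun s hs => (hc hs).2.1)
      · intro g z hz s hs
        exact (hc hs).2.2.2 g z (hz s hs))
  refine ⟨Y, hY.prop.1, hY.prop.2.1, hY.prop.2.2.1, hY.prop.2.2.2, ?_⟩
  intro Z hZY hZ hZG hZne
  exact (hY.eq_of_subset ⟨hZY.trans hY.prop.1, hZ, hZne, hZG⟩ hZY)

/-- **Eigenfunction criterion.** -/
theorem eigen {G S : Type} [Group G] [MulAction G S] (s₀ : S) (F : S → Circle) (g : G)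
    (t : Circle) (ht : ∀ n : ℤ, t ^ n = 1 → n = 0) (hgF : ∀ x, F (g⁻¹ • x) = t * F x)
    (W₀ : Set (S → Circle)) (hcl : IsClosed W₀) (hne : W₀.Nonempty)
    (hG : ∀ (k : G), ∀ f ∈ W₀, (fun x => f (k⁻¹ • x)) ∈ W₀)
    (hW : ∀ f ∈ W₀, ∃ c : Circle, (fun x => c * F x) ∈
      closure (Set.range (fun (k : G) (x : S) => f (k⁻¹ • x)))) : HasSyndeticSubmeasure G := by
  letI actG : MulAction G (S → Circle) :=
    { smul := fun k f x => f (k⁻¹ • x)
      one_smul := by
        intro f; funext x
        show f ((1 : G)⁻¹ • x) = f x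
        simp
      mul_smul := by
        intro k l f; funext x
        show f ((k * l)⁻¹ • x) = f (l⁻¹ • k⁻¹ • x)
        rw [mul_inv_rev, mul_smul] }
  haveI : ContinuousConstSMul G (S → Circle) :=
    ⟨fun k => continuous_pi (fun x => continuous_apply (k⁻¹ • x))⟩
  have hsm : ∀ (k : G) (f : S → Circle) (x : S), (k • f) x = f (k⁻¹ • x) := fun _ _ _ => rfl
  obtain ⟨Y, hYW, hYcl, hYne, hYG, hYmin⟩ := exists_min (G := G) W₀ hcl hne hG
  have hcomm : ∀ (c : Circle) (k : G) (f : S → Circle), c • k • f = k • c • f :=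
    fun _ _ _ => rfl
  -- the eigenfunction is in `Y`, up to a scalar
  obtain ⟨c, hc⟩ : ∃ c : Circle, (fun x => c * F x) ∈ Y := by
    obtain ⟨y, hy⟩ := hYne
    obtain ⟨c, hc⟩ := hW y (hYW hy)
    refine ⟨c, closure_minimal ?_ hYcl hc⟩
    rintro _ ⟨k, rfl⟩
    exact hYG k y hy
  have hK : ∀ u : Circle, (∃ y ∈ Y, u • y ∈ Y) → ∀ y ∈ Y, u • y ∈ Y := by
    intro u ⟨y₀, hy₀, huy₀⟩
    have h1 : Y ∩ (fun y => u • y) ⁻¹' Y = Y := by
      refine hYmin _ Set.inter_subset_left (hYcl.inter (hYcl.preimage (continuous_const_smul u)))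
        ?_ ⟨y₀, hy₀, huy₀⟩
      rintro k z ⟨hz, hz'⟩
      refine ⟨hYG k z hz, ?_⟩
      show u • k • z ∈ Y
      rw [hcomm]
      exact hYG k _ hz'
    intro y hy
    rw [← h1] at hy
    exact hy.2
  have hKt : ∀ y ∈ Y, t • y ∈ Y := by
    refine hK t ⟨_, hc, ?_⟩
    have h1 := hYG g _ hc
    convert h1 using 1
    funext x
    rw [hsm]
    show t * (c * F x) = c * F (g⁻¹ • x)
    rw [hgF]
    exact mul_left_comm _ _ _
  have hKt' : ∀ y ∈ Y, t⁻¹ • y ∈ Y := by
    refine hK t⁻¹ ⟨_, hc, ?_⟩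
    have h1 := hYG g⁻¹ _ hc
    convert h1 using 1
    funext x
    rw [hsm]
    show t⁻¹ * (c * F x) = c * F (g⁻¹⁻¹ • x)
    have h2 := hgF (g • x)
    rw [inv_smul_smul] at h2
    rw [inv_inv, h2]
    rw [mul_left_comm c t, inv_mul_cancel_left]
  have hKn : ∀ n : ℤ, ∀ y ∈ Y, t ^ n • y ∈ Y := by
    intro n
    induction n using Int.induction_on with
    | zero => intro y hy; simpa using hy
    | succ i ih =>
      intro y hy
      rw [zpow_add_one, mul_smul]
      exact ih _ (hKt y hy)
    | pred i ih =>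
      intro y hy
      rw [zpow_sub_one, mul_smul]
      exact ih _ (hKt' y hy)
  haveI : Infinite (Subgroup.zpowers t) := by
    have hinj : Function.Injective (fun n : ℤ => t ^ n) := by
      intro m n hmn
      have : t ^ (m - n) = 1 := by
        have hmn' : t ^ m = t ^ n := hmn
        rw [zpow_sub, hmn', mul_inv_cancel]
      have := ht _ this
      omega
    have := Set.infinite_range_of_injective hinj
    exact this.to_subtype
  refine core (A := Subgroup.zpowers t) (W := S → Circle) (fun a k f => rfl) Y hYcl.isCompact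
    hYne hYG ?_ hYmin ?_
  · rintro ⟨_, n, rfl⟩ y hy
    exact hKn n y hy
  · rintro ⟨u, hu⟩ hne y _ h
    apply hne
    have h1 := congrFun h s₀
    have h2 : u * y s₀ = y s₀ := h1
    have h3 : u = 1 := mul_eq_right.1 h2
    exact Subtype.ext h3

end Pool.Agent.H60.SM
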