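import Mathlib
import Pool.Agent.H60.SM.Eigen

/-!
Minimal actions with a circle-valued cocycle no power of which is a coboundary.
-/

set_option autoImplicit false
open Topology Pointwise Filter

namespace Pool.Agent.H60.SM

/-- **Cocycle criterion.** -/
theorem cocycle (G X : Type) [Group G] [TopologicalSpace X] [CompactSpace X] [T2Space X]
    [Nonempty X] [MulAction G X] [ContinuousConstSMul G X] [MulAction.IsMinimal G X]
    (σ : G → X → Circle) (hσc : ∀ g, Continuous (σ g))
    (hσ : ∀ (g h : G) (x : X), σ (g * h) x = σ g (h • x) * σ h x)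
    (hno : ∀ m : ℕ, 1 ≤ m → ¬ ∃ φ : X → Circle, Continuous φ ∧
      ∀ (g : G) (x : X), φ (g • x) = σ g x ^ m * φ x) : HasSyndeticSubmeasure G := by
  classical
  have hσ1 : ∀ x, σ 1 x = 1 := by
    intro x
    have := hσ 1 1 x
    rw [mul_one, one_smul] at this
    exact (mul_eq_left.1 this.symm)
  letI actG : MulAction G (X × Circle) :=
    { smul := fun k p => (k • p.1, σ k p.1 * p.2)
      one_smul := by
        intro p
        show ((1 : G) • p.1, σ 1 p.1 * p.2) = p
        rw [one_smul, hσ1, one_mul]
      mul_smul := by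
        intro k l p
        show ((k * l) • p.1, σ (k * l) p.1 * p.2) = (k • l • p.1, σ k (l • p.1) * (σ l p.1 * p.2))
        rw [mul_smul, hσ, mul_assoc] }
  haveI : ContinuousConstSMul G (X × Circle) :=
    ⟨fun k => ((continuous_const_smul k).comp continuous_fst).prodMk
      (((hσc k).comp continuous_fst).mul continuous_snd)⟩
  have hsm : ∀ (k : G) (p : X × Circle), k • p = (k • p.1, σ k p.1 * p.2) := fun _ _ => rfl
  letI actC : MulAction Circle (X × Circle) :=
    { smul := fun u p => (p.1, u * p.2)
      one_smul := by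
        intro p
        show (p.1, 1 * p.2) = p
        rw [one_mul]
      mul_smul := by
        intro u v p
        show (p.1, u * v * p.2) = (p.1, u * (v * p.2))
        rw [mul_assoc] }
  haveI : ContinuousConstSMul Circle (X × Circle) :=
    ⟨fun u => continuous_fst.prodMk (continuous_const.mul continuous_snd)⟩
  have hsmC : ∀ (u : Circle) (p : X × Circle), u • p = (p.1, u * p.2) := fun _ _ => rfl
  have hcomm : ∀ (u : Circle) (k : G) (p : X × Circle), u • k • p = k • u • p := by
    intro u k p
    rw [hsmC, hsm, hsm, hsmC]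
    simp only
    rw [mul_left_comm]
  obtain ⟨Y, -, hYcl, hYne, hYG, hYmin⟩ := exists_min (G := G) (Set.univ : Set (X × Circle))
    isClosed_univ Set.univ_nonempty (fun _ _ _ => trivial)
  have hYc : IsCompact Y := hYcl.isCompact
  -- `Y` projects onto `X`
  have hproj : ∀ x : X, ∃ c : Circle, (x, c) ∈ Y := by
    have h1 : Prod.fst '' Y = (Set.univ : Set X) := by
      rcases eq_empty_or_univ_of_smul_invariant_closed G (s := Prod.fst '' Y)
        (hYc.image continuous_fst).isClosed (by
          rintro c _ ⟨_, ⟨p, hp, rfl⟩, rfl⟩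
          exact ⟨c • p, hYG c p hp, rfl⟩) with h | h
      · rw [Set.image_eq_empty] at h
        exact absurd h hYne.ne_empty
      · exact h
    intro x
    have : x ∈ Prod.fst '' Y := by rw [h1]; trivial
    obtain ⟨p, hp, rfl⟩ := this
    exact ⟨p.2, hp⟩
  have hK : ∀ u : Circle, (∃ y ∈ Y, u • y ∈ Y) → ∀ y ∈ Y, u • y ∈ Y := by
    intro u ⟨y₀, hy₀, huy₀⟩
    have h1 : Y ∩ (fun y => u • y) ⁻¹' Y = Y := by
      refine hYmin _ Set.inter_subset_left (hYcl.inter (hYcl.preimage (continuous_const_smul u)))
        ?_ ⟨y₀, hy₀, huy₀⟩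
      rintro k z ⟨hz, hz'⟩
      refine ⟨hYG k z hz, ?_⟩
      show u • k • z ∈ Y
      rw [hcomm]
      exact hYG k _ hz'
    intro y hy
    rw [← h1] at hy
    exact hy.2
  let K : Subgroup Circle :=
    { carrier := {u | ∀ y ∈ Y, u • y ∈ Y}
      one_mem' := by intro y hy; rwa [one_smul]
      mul_mem' := by
        intro u v hu hv y hy
        rw [mul_smul]
        exact hu _ (hv y hy)
      inv_mem' := by
        intro u hu
        obtain ⟨y, hy⟩ := hYne
        refine hK u⁻¹ ⟨u • y, hu y hy, ?_⟩
        rw [inv_smul_smul]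
        exact hy }
  have hKmem : ∀ u, u ∈ K ↔ ∀ y ∈ Y, u • y ∈ Y := fun _ => Iff.rfl
  rcases finite_or_infinite K with hfin | hinf
  · exfalso
    haveI := hfin
    set m := Nat.card K with hm
    have hm1 : 1 ≤ m := Nat.card_pos
    have hpow : ∀ u ∈ K, u ^ m = 1 := by
      intro u hu
      have h1 : (⟨u, hu⟩ : K) ^ m = 1 := pow_card_eq_one'
      have := congrArg Subtype.val h1
      simpa using this
    choose c hc using hproj
    have hwd : ∀ p ∈ Y, p.2 ^ m = c p.1 ^ m := by
      intro p hp
      have h1 : p.2 * (c p.1)⁻¹ ∈ K := by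
        rw [hKmem]
        refine hK _ ⟨(p.1, c p.1), hc p.1, ?_⟩
        rw [hsmC]
        simp only [inv_mul_cancel_right]
        exact hp
      have h2 := hpow _ h1
      rw [mul_pow, inv_pow, mul_inv_eq_one] at h2
      exact h2
    refine hno m hm1 ⟨fun x => c x ^ m, ?_, ?_⟩
    · rw [continuous_iff_isClosed]
      intro C hC
      have : (fun x => c x ^ m) ⁻¹' C = Prod.fst '' (Y ∩ {p : X × Circle | p.2 ^ m ∈ C}) := by
        ext x
        constructor
        · intro hx
          exact ⟨(x, c x), ⟨hc x, hx⟩, rfl⟩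
        · rintro ⟨p, ⟨hp, hpC⟩, rfl⟩
          show c p.1 ^ m ∈ C
          rw [← hwd p hp]
          exact hpC
      rw [this]
      exact ((hYc.inter_right (hC.preimage (continuous_snd.pow m))).image
        continuous_fst).isClosed
    · intro g x
      have h1 := hYG g _ (hc x)
      have h2 := hwd _ h1
      rw [hsm] at h2
      simp only at h2
      rw [mul_pow] at h2
      exact h2.symm
  · haveI := hinf
    haveI : ContinuousConstSMul K (X × Circle) :=
      ⟨fun u => continuous_const_smul (u : Circle)⟩
    refine core (A := K) (W := X × Circle) (fun a k p => hcomm a k p) Y hYc hYne hYG ?_ hYmin ?_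
    · rintro ⟨u, hu⟩ y hy
      exact hu y hy
    · rintro ⟨u, hu⟩ hne y _ h
      apply hne
      have h1 : u • y = y := h
      have h2 := congrArg Prod.snd h1
      have h3 : u * y.2 = y.2 := h2
      exact Subtype.ext (mul_eq_right.1 h3)

end Pool.Agent.H60.SM
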