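import Mathlib

/-!
Nontrivial valuations on uncountable fields; real characters.
-/

set_option autoImplicit false
open Topology Pointwise Filter

namespace Pool.Agent.H60.SM

lemma real_char (A : Type) [AddCommGroup A] (a : A) (ha : ∀ n : ℤ, n • a = 0 → n = 0) :
    ∃ f : A →+ ℝ, f a = 1 := by
  have hB : Module.Baer ℤ ℝ := Module.Baer.of_divisible ℝ
  obtain ⟨h, hh⟩ := hB.extension_property_addMonoidHom (zmultiplesHom A a) (by
    rw [injective_iff_map_eq_zero]
    intro n hn
    exact ha n (by simpa using hn)) (Int.castAddHom ℝ)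
  refine ⟨h, ?_⟩
  have := congrArg (fun k => k 1) hh
  simpa using this

lemma exists_val (K : Type) [Field K] [Uncountable K] :
    ∃ (B : ValuationSubring K) (x : K), x ≠ 0 ∧ B.valuation x < 1 := by
  by_contra hcon
  push_neg at hcon
  have key : ∀ x : K, x ≠ 0 → ∃ p : Polynomial ℤ,
      ((Polynomial.X * p - 1).map (Int.castRingHom K)).eval x = 0 := by
    intro x hx
    let φ : Polynomial ℤ →+* K := Polynomial.eval₂RingHom (Int.castRingHom K) x
    have hX : φ Polynomial.X = x := by simp [φ]
    let x' : φ.range := ⟨x, ⟨Polynomial.X, hX⟩⟩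
    by_cases hI : Ideal.span {x'} = ⊤
    · rw [Ideal.span_singleton_eq_top] at hI
      obtain ⟨y, hy⟩ := hI.exists_right_inv
      obtain ⟨p, hp⟩ := y.2
      refine ⟨p, ?_⟩
      have h1 : x * (y : K) = 1 := congrArg Subtype.val hy
      rw [Polynomial.eval_map]
      show φ (Polynomial.X * p - 1) = 0
      rw [map_sub, map_mul, hX, hp, map_one, h1, sub_self]
    · obtain ⟨B, _, hB⟩ := Ideal.image_subset_nonunits_valuationSubring _ hI
      exfalso
      have h1 : x ∈ B.nonunits := hB ⟨x', Ideal.subset_span rfl, rfl⟩
      rw [ValuationSubring.mem_nonunits_iff] at h1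
      exact absurd h1 (not_lt.2 (hcon B x hx))
  have hne : ∀ p : Polynomial ℤ, (Polynomial.X * p - 1).map (Int.castRingHom K) ≠ 0 := by
    intro p h
    have := congrArg (fun q => q.coeff 0) h
    simp at this
  have hcount : (Set.univ : Set K).Countable := by
    have hsub : (Set.univ : Set K) ⊆ {0} ∪ ⋃ p : Polynomial ℤ,
        {x : K | ((Polynomial.X * p - 1).map (Int.castRingHom K)).IsRoot x} := by
      intro x _
      by_cases hx : x = 0
      · exact Or.inl hx
      · obtain ⟨p, hp⟩ := key x hx
        exact Or.inr (Set.mem_iUnion.2 ⟨p, hp⟩)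
    haveI : Countable (Polynomial ℤ) := by
      rw [← Cardinal.mk_le_aleph0_iff]
      exact Polynomial.cardinalMk_le_max.trans (by simp)
    refine Set.Countable.mono hsub ((Set.countable_singleton 0).union
      (Set.countable_iUnion fun p => ?_))
    exact (Polynomial.finite_setOfPred_isRoot (hne p)).countable
  exact not_countable (α := K) (Set.countable_univ_iff.1 hcount)

end Pool.Agent.H60.SM
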