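import Mathlib
import Pool.Agent.H60.SM.Eigen
import Pool.Agent.H60.SM.Val

/-!
Linear groups over fields with a nontrivial valuation (any rank), in particular over uncountable
fields, which contain a one-parameter torus with a unique highest weight.
-/

set_option autoImplicit false
open Topology Pointwise Filter

namespace Pool.Agent.H60.SM.HW

open Pool.Agent.H60.SM

lemma exp_one_order (n : ℤ) (h : (Circle.exp 1) ^ n = 1) : n = 0 := by
  rw [← Circle.exp_zsmul] at h
  rw [Circle.exp_eq_one] at h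
  obtain ⟨m, hm⟩ := h
  by_contra hn
  have hm0 : m ≠ 0 := by
    rintro rfl
    simp at hm
    exact hn (by exact_mod_cast hm)
  have h1 : Real.pi = ((n : ℚ) / (2 * m) : ℚ) := by
    push_cast
    have h2 : (m : ℝ) ≠ 0 := by exact_mod_cast hm0
    field_simp
    simp at hm
    linarith
  exact irrational_pi ⟨_, h1.symm⟩

section

variable {K Γ₀ : Type} [Field K] [LinearOrderedCommGroupWithZero Γ₀] (v : Valuation K Γ₀) {n : ℕ}

/-- the sup norm of a vector -/
noncomputable def NN (u : Fin (n + 1) → K) : Γ₀ :=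
  Finset.univ.sup' Finset.univ_nonempty (fun i => v (u i))

lemma le_NN (u : Fin (n + 1) → K) (i : Fin (n + 1)) : v (u i) ≤ NN v u :=
  Finset.le_sup' (fun i => v (u i)) (Finset.mem_univ i)

lemma NN_le {u : Fin (n + 1) → K} {c : Γ₀} (h : ∀ i, v (u i) ≤ c) : NN v u ≤ c :=
  Finset.sup'_le _ _ (fun i _ => h i)

lemma NN_eq (u : Fin (n + 1) → K) : ∃ i, NN v u = v (u i) := by
  obtain ⟨i, _, hi⟩ := Finset.exists_mem_eq_sup' (Finset.univ_nonempty) (fun i => v (u i))
  exact ⟨i, hi⟩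

lemma NN_ne {u : Fin (n + 1) → K} (hu : u ≠ 0) : NN v u ≠ 0 := by
  intro h
  apply hu
  funext i
  have h1 := le_NN v u i
  rw [h, le_zero_iff] at h1
  exact (map_eq_zero v).1 h1

lemma NN_smul (c : K) (u : Fin (n + 1) → K) : NN v (c • u) = v c * NN v u := by
  apply le_antisymm
  · apply NN_le
    intro i
    rw [Pi.smul_apply, smul_eq_mul, map_mul]
    exact mul_le_mul_right (le_NN v u i) _
  · obtain ⟨i, hi⟩ := NN_eq v u
    rw [hi, ← map_mul]
    exact le_NN v (c • u) i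

lemma NN_add (u w : Fin (n + 1) → K) : NN v (u + w) ≤ max (NN v u) (NN v w) := by
  apply NN_le
  intro i
  exact (v.map_add _ _).trans (max_le_max (le_NN v u i) (le_NN v w i))

lemma NN_add_eq {u w : Fin (n + 1) → K} (h : NN v w < NN v u) : NN v (u + w) = NN v u := by
  apply le_antisymm
  · exact (NN_add v u w).trans (max_le le_rfl h.le)
  · obtain ⟨i, hi⟩ := NN_eq v u
    have h1 : v (w i) < v (u i) := lt_of_le_of_lt (le_NN v w i) (by rwa [← hi])
    rw [hi, ← v.map_add_eq_of_lt_left h1]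
    exact le_NN v (u + w) i

/-- bound for a matrix -/
lemma NN_mulVec (M : Matrix (Fin (n + 1)) (Fin (n + 1)) K) :
    ∃ c : Γ₀, 0 < c ∧ ∀ u, NN v (M.mulVec u) ≤ c * NN v u := by
  classical
  let c : Γ₀ := max 1 (Finset.univ.sup' Finset.univ_nonempty
    (fun p : Fin (n + 1) × Fin (n + 1) => v (M p.1 p.2)))
  refine ⟨c, lt_of_lt_of_le zero_lt_one (le_max_left _ _), fun u => ?_⟩
  apply NN_le
  intro i
  show v (∑ j, M i j * u j) ≤ _
  apply v.map_sum_le
  intro j _
  rw [map_mul]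
  refine mul_le_mul' ?_ (le_NN v u j)
  exact (Finset.le_sup' (fun p : Fin (n + 1) × Fin (n + 1) => v (M p.1 p.2))
    (Finset.mem_univ (i, j))).trans (le_max_right _ _)

/-- finitely many rows bound the norm -/
lemma norming {G : Type} (r : G → Fin (n + 1) → K)
    (h : ∀ u : Fin (n + 1) → K, u ≠ 0 → ∃ k, ∑ j, r k j * u j ≠ 0) :
    ∃ (I : Finset G) (C : Γ₀), 0 < C ∧ ∀ u : Fin (n + 1) → K, u ≠ 0 →
      ∃ k ∈ I, NN v u ≤ C * v (∑ j, r k j * u j) := by
  classical
  have hspan : Submodule.span K (Set.range r) = ⊤ := by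
    by_contra hne
    obtain ⟨f, hf0, hf⟩ := Submodule.exists_le_ker_of_lt_top _ (lt_top_iff_ne_top.2 hne)
    let u : Fin (n + 1) → K := fun j => f (Pi.single j 1)
    have hfw : ∀ w : Fin (n + 1) → K, f w = ∑ j, w j * u j := by
      intro w
      conv_lhs => rw [← Finset.univ_sum_single w]
      rw [map_sum]
      refine Finset.sum_congr rfl fun j _ => ?_
      have : (Pi.single j (w j) : Fin (n + 1) → K) = w j • Pi.single j 1 := by
        rw [← Pi.single_smul, smul_eq_mul, mul_one]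
      rw [this, map_smul, smul_eq_mul]
    have hu : u ≠ 0 := by
      intro h0
      apply hf0
      ext j
      have : u j = 0 := congrFun h0 j
      simpa [u] using this
    obtain ⟨k, hk⟩ := h u hu
    apply hk
    rw [← hfw]
    exact hf (Submodule.subset_span ⟨k, rfl⟩)
  have hrep : ∀ i : Fin (n + 1), ∃ (N : ℕ) (c : Fin N → K) (κ : Fin N → G),
      ∀ u : Fin (n + 1) → K, u i = ∑ l, c l * (∑ j, r (κ l) j * u j) := by
    intro i
    have h1 : (Pi.single i 1 : Fin (n + 1) → K) ∈ Submodule.span K (Set.range r) := by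
      rw [hspan]; trivial
    obtain ⟨N, c, g, hg⟩ := Submodule.mem_span_set'.1 h1
    choose κ hκ using fun l => (g l).2
    refine ⟨N, c, κ, fun u => ?_⟩
    have h2 : u i = ∑ j, (Pi.single i 1 : Fin (n + 1) → K) j * u j := by
      simp [Pi.single_apply]
    rw [h2, ← hg]
    simp only [Finset.sum_apply, Pi.smul_apply, smul_eq_mul, Finset.sum_mul, Finset.mul_sum]
    rw [Finset.sum_comm]
    refine Finset.sum_congr rfl fun l _ => Finset.sum_congr rfl fun j _ => ?_
    rw [hκ l, mul_assoc]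
  choose N c κ hc using hrep
  let I : Finset G := Finset.univ.biUnion (fun i => Finset.univ.image (κ i))
  obtain ⟨C₀, hC₀⟩ := Finset.exists_le
    (Finset.univ.biUnion (fun i : Fin (n + 1) => Finset.univ.image (fun l => v (c i l))))
  refine ⟨I, max 1 C₀, lt_of_lt_of_le zero_lt_one (le_max_left _ _), fun u hu => ?_⟩
  have hIne : I.Nonempty := by
    obtain ⟨i, hi⟩ : ∃ i, u i ≠ 0 := by
      by_contra hcon
      push Not at hcon
      exact hu (funext hcon)
    have h1 := hc i u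
    have h2 : (Finset.univ : Finset (Fin (N i))).Nonempty := by
      rw [Finset.nonempty_iff_ne_empty]
      intro h3
      rw [h3, Finset.sum_empty] at h1
      exact hi h1
    obtain ⟨l, _⟩ := h2
    exact ⟨κ i l, Finset.mem_biUnion.2 ⟨i, Finset.mem_univ _,
      Finset.mem_image_of_mem _ (Finset.mem_univ _)⟩⟩
  obtain ⟨k, hkI, hk⟩ := Finset.exists_max_image I (fun k => v (∑ j, r k j * u j)) hIne
  refine ⟨k, hkI, NN_le v fun i => ?_⟩
  rw [hc i u]
  apply v.map_sum_le
  intro l _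
  rw [map_mul]
  refine mul_le_mul' ?_ ?_
  · exact (hC₀ _ (Finset.mem_biUnion.2 ⟨i, Finset.mem_univ _,
      Finset.mem_image_of_mem _ (Finset.mem_univ _)⟩)).trans (le_max_right _ _)
  · exact hk _ (Finset.mem_biUnion.2 ⟨i, Finset.mem_univ _,
      Finset.mem_image_of_mem _ (Finset.mem_univ _)⟩)

end

/-- **Highest weight criterion over a valued field.** -/
theorem hwv (G K Γ₀ : Type) [Group G] [Field K] [LinearOrderedCommGroupWithZero Γ₀]
    (v : Valuation K Γ₀) (hv : Function.Surjective v) (a : K) (ha : 1 < v a) (n : ℕ)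
    (π : G →* Matrix.GeneralLinearGroup (Fin (n + 1)) K) (m : Fin (n + 1) → ℤ)
    (hm0 : m 0 ≠ 0) (hm : ∀ i, i ≠ 0 → m i < m 0)
    (htorus : ∀ b : K, b ≠ 0 → ∃ g : G, (π g : Matrix (Fin (n + 1)) (Fin (n + 1)) K) =
      Matrix.diagonal (fun i => b ^ m i))
    (hnd : ∀ u : Fin (n + 1) → K, u ≠ 0 → ∃ k : G,
      (π k : Matrix (Fin (n + 1)) (Fin (n + 1)) K).mulVec u 0 ≠ 0) :
    HasSyndeticSubmeasure G := by
  classical
  -- the character
  have hva0 : v a ≠ 0 := (lt_trans zero_lt_one ha).ne'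
  have ha0 : a ≠ 0 := (Valuation.ne_zero_iff v).1 hva0
  obtain ⟨f₀, hf₀⟩ := real_char (Additive Γ₀ˣ) (Additive.ofMul (Units.mk0 (v a) hva0)) (by
    intro m hm
    have h1 : (Units.mk0 (v a) hva0) ^ m = 1 := by
      rw [← ofMul_zpow] at hm
      exact Additive.ofMul.injective hm
    have h2 : (v a) ^ m = 1 := by
      have := congrArg (fun u : Γ₀ˣ => (u : Γ₀)) h1
      simpa using this
    exact zpow_right_injective₀ (lt_trans zero_lt_one ha) ha.ne' (by simpa using h2))
  let X : Γ₀ → Circle := fun γ => if h : γ = 0 then 1 else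
    Circle.exp (f₀ (Additive.ofMul (Units.mk0 γ h)))
  have hXmul : ∀ γ δ : Γ₀, γ ≠ 0 → δ ≠ 0 → X (γ * δ) = X γ * X δ := by
    intro γ δ hγ hδ
    have h1 : γ * δ ≠ 0 := mul_ne_zero hγ hδ
    simp only [X, dif_neg hγ, dif_neg hδ, dif_neg h1]
    rw [← Circle.exp_add, ← map_add]
    congr 2
    rw [← ofMul_mul]
    congr 1
    ext
    simp
  have hXa : X (v a) = Circle.exp 1 := by
    simp only [X, dif_neg hva0]
    rw [hf₀]
  have hXone : X 1 = 1 := by
    have h1 := hXmul 1 1 one_ne_zero one_ne_zero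
    rw [mul_one] at h1
    exact mul_eq_left.1 h1.symm
  have hXpow : ∀ (k : ℤ), X (v (a ^ k)) = Circle.exp 1 ^ k := by
    intro k
    have hne : ∀ j : ℤ, v (a ^ j) ≠ 0 := fun j => (Valuation.ne_zero_iff v).2 (zpow_ne_zero _ ha0)
    induction k using Int.induction_on with
    | zero => rw [zpow_zero, map_one, hXone, zpow_zero]
    | succ i ih =>
      rw [zpow_add_one₀ ha0, map_mul, hXmul _ _ (hne _) hva0, ih, hXa, zpow_add_one]
    | pred i ih =>
      have h1 : X (v (a ^ (-(i : ℤ)))) = X (v (a ^ (-(i : ℤ) - 1))) * Circle.exp 1 := by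
        rw [← hXa, ← hXmul _ _ (hne _) hva0, ← map_mul, ← zpow_add_one₀ ha0]
        congr 3
        ring
      rw [ih] at h1
      rw [zpow_sub_one, h1, mul_inv_cancel_right]
  -- the action on vectors
  let ρ : G → (Fin (n + 1) → K) → (Fin (n + 1) → K) := fun x u =>
    (π x : Matrix (Fin (n + 1)) (Fin (n + 1)) K).mulVec u
  have hρmul : ∀ x y u, ρ (x * y) u = ρ x (ρ y u) := by
    intro x y u
    simp only [ρ, map_mul, Units.val_mul, Matrix.mulVec_mulVec]
  have hρone : ∀ u, ρ 1 u = u := by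
    intro u
    simp only [ρ, map_one, Units.val_one, Matrix.one_mulVec]
  have hρsmul : ∀ x (c : K) u, ρ x (c • u) = c • ρ x u := fun x c u => Matrix.mulVec_smul _ _ _
  have hρadd : ∀ x u w, ρ x (u + w) = ρ x u + ρ x w := fun x u w => Matrix.mulVec_add _ _ _
  have hρne : ∀ x u, u ≠ 0 → ρ x u ≠ 0 := by
    intro x u hu h
    apply hu
    have h1 : ρ x⁻¹ (ρ x u) = u := by rw [← hρmul, inv_mul_cancel, hρone]
    rw [← h1, h]
    exact Matrix.mulVec_zero _
  let FF' : (Fin (n + 1) → K) → G → Circle := fun u x => X (NN v (ρ x⁻¹ u))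
  have hFs : ∀ u (k x : G), FF' u (k⁻¹ • x) = FF' (ρ k u) x := by
    intro u k x
    show X (NN v (ρ (k⁻¹ • x)⁻¹ u)) = X (NN v (ρ x⁻¹ (ρ k u)))
    rw [← hρmul, smul_eq_mul, mul_inv_rev, inv_inv]
  have hFc : ∀ (c : K) u (x : G), c ≠ 0 → u ≠ 0 → FF' (c • u) x = X (v c) * FF' u x := by
    intro c u x hc hu
    show X (NN v (ρ x⁻¹ (c • u))) = _
    rw [hρsmul, NN_smul, hXmul _ _ ((Valuation.ne_zero_iff v).2 hc) (NN_ne v (hρne _ _ hu))]
  let e : Fin (n + 1) → K := Pi.single 0 1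
  have he : e ≠ 0 := by
    intro h
    have := congrFun h 0
    simp [e] at this
  have he0 : e 0 = 1 := by simp [e]
  let F : G → Circle := FF' e
  -- diagonal elements
  have hdiag : ∀ b : K, b ≠ 0 → ∃ g : G, ∀ (u : Fin (n + 1) → K) (i : Fin (n + 1)),
      ρ g u i = b ^ m i * u i := by
    intro b hb
    obtain ⟨g, hg⟩ := htorus b hb
    refine ⟨g, fun u i => ?_⟩
    simp only [ρ, hg]
    rw [Matrix.mulVec_diagonal]
  choose! D hD using hdiag
  have hDe : ∀ b : K, b ≠ 0 → ρ (D b) e = (b ^ m 0) • e := by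
    intro b hb
    funext i
    rw [hD b hb]
    by_cases hi : i = 0
    · subst hi; simp [e]
    · simp [e, hi]
  obtain ⟨I, C₁, hC₁, hI⟩ := norming v
    (fun (k : G) (j : Fin (n + 1)) => (π k : Matrix (Fin (n + 1)) (Fin (n + 1)) K) 0 j)
    (fun u hu => hnd u hu)
  have hI' : ∀ u : Fin (n + 1) → K, u ≠ 0 → ∃ k ∈ I, NN v u ≤ C₁ * v (ρ k u 0) :=
    fun u hu => hI u hu
  let Gen : Γ₀ → Set (G → Circle) := fun C =>
    {f | ∃ (c : Circle) (u : Fin (n + 1) → K), u ≠ 0 ∧ NN v u ≤ C * v (u 0) ∧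
      f = fun x => c * FF' u x}
  let W₀ : Set (G → Circle) :=
    closure {f | ∃ (c : Circle) (u : Fin (n + 1) → K), u ≠ 0 ∧ f = fun x => c * FF' u x}
  have htrans : ∀ k : G, Continuous (fun (f : G → Circle) (x : G) => f (k⁻¹ • x)) :=
    fun k => continuous_pi (fun x => continuous_apply (k⁻¹ • x))
  -- main estimate
  have key : ∀ C : Γ₀, 0 < C → ∀ x : G, ∃ R : Γ₀, ∀ b : K, R ≤ v b → b ≠ 0 ∧
      ∀ u : Fin (n + 1) → K, u ≠ 0 →
      NN v u ≤ C * v (u 0) → FF' u ((D b)⁻¹ • x) = X (v (b ^ m 0 * u 0)) * F x := by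
    intro C hC x
    obtain ⟨c, hc, hcu⟩ := NN_mulVec v (π x⁻¹ : Matrix (Fin (n + 1)) (Fin (n + 1)) K)
    set q : Γ₀ := NN v (ρ x⁻¹ e) with hq
    have hq0 : q ≠ 0 := NN_ne v (hρne _ _ he)
    have hqpos : 0 < q := zero_lt_iff.2 hq0
    refine ⟨v a * max 1 (c * C * q⁻¹), fun b hb => ?_⟩
    have hm1 : (1 : Γ₀) ≤ max 1 (c * C * q⁻¹) := le_max_left _ _
    have hmpos : (0 : Γ₀) < max 1 (c * C * q⁻¹) := lt_of_lt_of_le zero_lt_one hm1
    have hlt : max 1 (c * C * q⁻¹) < v b := by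
      refine lt_of_lt_of_le ?_ hb
      calc max 1 (c * C * q⁻¹) = 1 * max 1 (c * C * q⁻¹) := (one_mul _).symm
        _ < v a * max 1 (c * C * q⁻¹) := mul_lt_mul_of_pos_right ha hmpos
    have hb1 : 1 < v b := lt_of_le_of_lt hm1 hlt
    have hbpos : 0 < v b := lt_trans zero_lt_one hb1
    have hb0 : b ≠ 0 := (Valuation.ne_zero_iff v).1 hbpos.ne'
    refine ⟨hb0, fun u hu huN => ?_⟩
    have hNu0 : NN v u ≠ 0 := NN_ne v hu
    have hu0v : v (u 0) ≠ 0 := by
      intro h
      rw [h, mul_zero, le_zero_iff] at huN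
      exact hNu0 huN
    have hu0 : u 0 ≠ 0 := (Valuation.ne_zero_iff v).1 hu0v
    have hbm : b ^ m 0 ≠ 0 := zpow_ne_zero _ hb0
    have hbu : b ^ m 0 * u 0 ≠ 0 := mul_ne_zero hbm hu0
    set r : Fin (n + 1) → K := (b ^ m 0 * u 0)⁻¹ • ρ (D b) u - e with hr
    have hru : ρ (D b) u = (b ^ m 0 * u 0) • (e + r) := by
      rw [hr, add_sub_cancel, smul_inv_smul₀ hbu]
    have hrN : NN v r ≤ C * (v b)⁻¹ := by
      apply NN_le
      intro i
      rw [hr, Pi.sub_apply, Pi.smul_apply, smul_eq_mul, hD b hb0]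
      by_cases hi : i = 0
      · subst hi
        simp only [he0]
        rw [inv_mul_cancel₀ hbu, sub_self, map_zero]
        exact zero_le
      · have hei : e i = 0 := by simp [e, hi]
        rw [hei, sub_zero, map_mul, map_inv₀, map_mul, map_mul, map_zpow₀, map_zpow₀]
        have h1 : (v b) ^ m i ≤ (v b) ^ m 0 * (v b)⁻¹ := by
          rw [← zpow_sub_one₀ hbpos.ne']
          exact zpow_le_zpow_right₀ hb1.le (by have := hm i hi; omega)
        have h2 : v (u i) ≤ C * v (u 0) := (le_NN v u i).trans huN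
        calc (v b ^ m 0 * v (u 0))⁻¹ * (v b ^ m i * v (u i))
            ≤ (v b ^ m 0 * v (u 0))⁻¹ * ((v b ^ m 0 * (v b)⁻¹) * (C * v (u 0))) :=
              mul_le_mul' le_rfl (mul_le_mul' h1 h2)
          _ = C * (v b)⁻¹ := by
            have h3 : (v b) ^ m 0 ≠ 0 := zpow_ne_zero _ hbpos.ne'
            field_simp
    have hsmall : NN v (ρ x⁻¹ r) < NN v (ρ x⁻¹ e) := by
      have h1 : NN v (ρ x⁻¹ r) ≤ c * (C * (v b)⁻¹) := (hcu r).trans (mul_le_mul' le_rfl hrN)
      refine lt_of_le_of_lt h1 ?_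
      rw [← hq, ← mul_assoc]
      have h2 : c * C * q⁻¹ < v b := lt_of_le_of_lt (le_max_right _ _) hlt
      rw [← div_eq_mul_inv, div_lt_iff₀ hqpos] at h2
      rw [← div_eq_mul_inv, div_lt_iff₀ hbpos, mul_comm q]
      exact h2
    rw [hFs, hru, hFc _ _ _ hbu]
    · show X (v (b ^ m 0 * u 0)) * X (NN v (ρ x⁻¹ (e + r))) =
        X (v (b ^ m 0 * u 0)) * X (NN v (ρ x⁻¹ e))
      rw [hρadd, NN_add_eq v hsmall]
    · intro h
      rw [h, smul_zero] at hru
      exact hρne _ _ hu hru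
  refine eigen (S := G) (1 : G) F (D a) (Circle.exp 1 ^ m 0) ?_ ?_ W₀ isClosed_closure
    ⟨fun x => 1 * F x, subset_closure ⟨1, e, he, rfl⟩⟩ ?_ ?_
  · intro k hk
    rw [← zpow_mul] at hk
    have h1 := exp_one_order _ hk
    rcases mul_eq_zero.1 h1 with h2 | h2
    · exact absurd h2 hm0
    · exact h2
  · intro x
    show FF' e ((D a)⁻¹ • x) = Circle.exp 1 ^ m 0 * FF' e x
    rw [hFs, hDe a ha0, hFc _ _ _ (zpow_ne_zero _ ha0) he, hXpow]
  · intro k f hf
    refine map_mem_closure (htrans k) hf ?_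
    rintro _ ⟨c, u, hu, rfl⟩
    refine ⟨c, ρ k u, hρne k u hu, ?_⟩
    funext x
    show c * FF' u (k⁻¹ • x) = _
    rw [hFs]
  · intro f hf
    choose cc hcc hccu using fun k : G =>
      NN_mulVec v (π k : Matrix (Fin (n + 1)) (Fin (n + 1)) K)
    obtain ⟨k, C, hC, hfk⟩ : ∃ (k : G) (C : Γ₀), 0 < C ∧
        (fun x => f (k⁻¹ • x)) ∈ closure (Gen C) := by
      have hcl : IsClosed (⋃ k ∈ I, (fun (f : G → Circle) (x : G) => f (k⁻¹ • x)) ⁻¹'
          closure (Gen (cc k * C₁))) :=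
        I.finite_toSet.isClosed_biUnion (fun k _ => isClosed_closure.preimage (htrans k))
      have hsub : {f | ∃ (c : Circle) (u : Fin (n + 1) → K), u ≠ 0 ∧
          f = fun x => c * FF' u x} ⊆
          (⋃ k ∈ I, (fun (f : G → Circle) (x : G) => f (k⁻¹ • x)) ⁻¹'
          closure (Gen (cc k * C₁))) := by
        rintro _ ⟨c, u, hu, rfl⟩
        simp only [Set.mem_iUnion]
        obtain ⟨k, hkI, hk⟩ := hI' u hu
        refine ⟨k, hkI, subset_closure ⟨c, ρ k u, hρne _ u hu, ?_, ?_⟩⟩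
        · calc NN v (ρ k u) ≤ cc k * NN v u := hccu k u
            _ ≤ cc k * (C₁ * v (ρ k u 0)) := mul_le_mul' le_rfl hk
            _ = _ := (mul_assoc _ _ _).symm
        · funext x
          show c * FF' u (k⁻¹ • x) = _
          rw [hFs]
      have h2 := closure_minimal hsub hcl hf
      simp only [Set.mem_iUnion] at h2
      obtain ⟨k, _, hk2⟩ := h2
      exact ⟨k, _, mul_pos (hcc k) hC₁, hk2⟩
    set f' : G → Circle := fun x => f (k⁻¹ • x) with hf'
    let fs : K → (G → Circle) := fun b x => f' ((D b)⁻¹ • x)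
    haveI : (comap (fun b : K => v b) atTop).NeBot := NeBot.comap_of_surj inferInstance hv
    let 𝒰 : Ultrafilter K := Ultrafilter.of (comap (fun b : K => v b) atTop)
    have h𝒰 : (𝒰 : Filter K) ≤ comap (fun b : K => v b) atTop := Ultrafilter.of_le _
    have hlim : Tendsto fs (𝒰 : Filter K) (𝓝 (𝒰.map fs).lim) := Ultrafilter.le_nhds_lim _
    set fi := (𝒰.map fs).lim with hfi
    have hfi_mem : fi ∈ closure (Set.range (fun (k : G) (x : G) => f (k⁻¹ • x))) := by
      refine isClosed_closure.mem_of_tendsto hlim (Eventually.of_forall fun b => ?_)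
      refine subset_closure ⟨D b * k, ?_⟩
      funext x
      show f ((D b * k)⁻¹ • x) = f (k⁻¹ • (D b)⁻¹ • x)
      rw [mul_inv_rev, mul_smul]
    have hpt : ∀ x, Tendsto (fun b => fs b x) (𝒰 : Filter K) (𝓝 (fi x)) :=
      fun x => tendsto_pi_nhds.1 hlim x
    have heq : ∀ x y : G, fi x * F y = fi y * F x := by
      intro x y
      obtain ⟨R₁, hR₁⟩ := key C hC x
      obtain ⟨R₂, hR₂⟩ := key C hC y
      have h3 : ∀ᶠ b in comap (fun b : K => v b) atTop, fs b x * F y = fs b y * F x := by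
        have h4 : ∀ᶠ γ in (atTop : Filter Γ₀), max R₁ R₂ ≤ γ := eventually_ge_atTop _
        have h5 := (h4.comap (fun b : K => v b))
        filter_upwards [h5] with b hb
        obtain ⟨_, hx⟩ := hR₁ b ((le_max_left _ _).trans hb)
        obtain ⟨_, hy⟩ := hR₂ b ((le_max_right _ _).trans hb)
        have hcl : IsClosed {h : G → Circle |
            h ((D b)⁻¹ • x) * F y = h ((D b)⁻¹ • y) * F x} :=
          isClosed_eq ((continuous_apply _).mul continuous_const)
            ((continuous_apply _).mul continuous_const)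
        refine closure_minimal ?_ hcl hfk
        rintro _ ⟨c, u, hu, huN, rfl⟩
        show c * FF' u ((D b)⁻¹ • x) * F y = c * FF' u ((D b)⁻¹ • y) * F x
        rw [hx u hu huN, hy u hu huN]
        simp only [mul_assoc]
        rw [mul_comm (F x) (F y)]
      refine tendsto_nhds_unique_of_eventuallyEq ((hpt x).mul tendsto_const_nhds)
        ((hpt y).mul tendsto_const_nhds) (h𝒰 h3)
    refine ⟨fi 1 * (F 1)⁻¹, ?_⟩
    convert hfi_mem using 1
    funext x
    have := heq x 1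
    rw [mul_right_comm, ← this, mul_inv_cancel_right]

/-- **Highest weight criterion over uncountable fields.** -/
theorem hw (G K : Type) [Group G] [Field K] [Uncountable K] (n : ℕ)
    (π : G →* Matrix.GeneralLinearGroup (Fin (n + 1)) K) (m : Fin (n + 1) → ℤ)
    (hm0 : m 0 ≠ 0) (hm : ∀ i, i ≠ 0 → m i < m 0)
    (htorus : ∀ b : K, b ≠ 0 → ∃ g : G, (π g : Matrix (Fin (n + 1)) (Fin (n + 1)) K) =
      Matrix.diagonal (fun i => b ^ m i))
    (hnd : ∀ u : Fin (n + 1) → K, u ≠ 0 → ∃ k : G,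
      (π k : Matrix (Fin (n + 1)) (Fin (n + 1)) K).mulVec u 0 ≠ 0) :
    HasSyndeticSubmeasure G := by
  obtain ⟨B, x, hx, hvx⟩ := exists_val K
  refine hwv G K B.ValueGroup B.valuation B.valuation_surjective x⁻¹ ?_ n π m hm0 hm htorus hnd
  rw [map_inv₀]
  exact (one_lt_inv₀ (zero_lt_iff.2 ((Valuation.ne_zero_iff _).2 hx))).2 hvx

end Pool.Agent.H60.SM.HW
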