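import Mathlib

/-!
Isometries with positive translation length of Gromov hyperbolic spaces: the function
`m ↦ d(p, hᵐ q)` goes down and then up with almost constant slope, uniformly in `p` and `q`.
-/

set_option autoImplicit false

namespace Pool.Agent.H60.SM.Hyp

lemma arch {α β : ℝ} (h : ∀ m : ℕ, α * m ≤ β) : α ≤ 0 := by
  by_contra hα
  push Not at hα
  obtain ⟨m, hm⟩ := exists_nat_gt (β / α)
  rw [div_lt_iff₀ hα] at hm
  have := h m
  linarith

section

variable {G S : Type} [Group G] [PseudoMetricSpace S] [MulAction G S]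

noncomputable def tau (h : G) (q : S) : ℝ := dist q (h ^ 2 • q) - dist q (h • q)

variable (hiso : ∀ (k : G) (x y : S), dist (k • x) (k • y) = dist x y) (δ : ℝ) (hδ : 0 ≤ δ)
  (h4 : ∀ x y z w : S, dist x y + dist z w ≤
    max (dist x z + dist y w) (dist x w + dist y z) + δ)

include hiso h4 in
lemma tri (h : G) (p q : S) (m : ℕ) :
    (dist p (h ^ (m + 1) • q) + tau h q ≤ dist p (h ^ m • q) + δ ∨
      dist p (h ^ (m + 1) • q) + tau h q ≤ dist p (h ^ (m + 2) • q) + δ) ∧
    (dist p (h ^ m • q) ≤ dist p (h ^ (m + 1) • q) + tau h q + δ ∨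
      dist p (h ^ m • q) ≤ dist p (h ^ (m + 2) • q) + δ) ∧
    (dist p (h ^ (m + 2) • q) ≤ dist p (h ^ (m + 1) • q) + tau h q + δ ∨
      dist p (h ^ (m + 2) • q) ≤ dist p (h ^ m • q) + δ) := by
  have e1 : dist (h ^ m • q) (h ^ (m + 1) • q) = dist q (h • q) := by
    rw [pow_succ, mul_smul, hiso]
  have e2 : dist (h ^ (m + 1) • q) (h ^ (m + 2) • q) = dist q (h • q) := by
    rw [show m + 2 = (m + 1) + 1 by ring, pow_succ h (m + 1), mul_smul, hiso]
  have e3 : dist (h ^ m • q) (h ^ (m + 2) • q) = dist q (h ^ 2 • q) := by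
    rw [pow_add, mul_smul, hiso]
  have f1 := h4 p (h ^ (m + 1) • q) (h ^ m • q) (h ^ (m + 2) • q)
  have f2 := h4 p (h ^ m • q) (h ^ (m + 1) • q) (h ^ (m + 2) • q)
  have f3 := h4 p (h ^ (m + 2) • q) (h ^ (m + 1) • q) (h ^ m • q)
  rw [e3, e2, dist_comm (h ^ (m + 1) • q) (h ^ m • q), e1] at f1
  rw [e2, e3, e1] at f2
  rw [dist_comm (h ^ (m + 1) • q) (h ^ m • q), e1, dist_comm (h ^ (m + 2) • q) (h ^ m • q), e3,
    dist_comm (h ^ (m + 2) • q) (h ^ (m + 1) • q), e2] at f3
  unfold tau
  refine ⟨?_, ?_, ?_⟩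
  · rcases max_choice (dist p (h ^ m • q) + dist q (h • q))
      (dist p (h ^ (m + 2) • q) + dist q (h • q)) with hh | hh
    · left; rw [hh] at f1; linarith
    · right; rw [hh] at f1; linarith
  · rcases max_choice (dist p (h ^ (m + 1) • q) + dist q (h ^ 2 • q))
      (dist p (h ^ (m + 2) • q) + dist q (h • q)) with hh | hh
    · left; rw [hh] at f2; linarith
    · right; rw [hh] at f2; linarith
  · rcases max_choice (dist p (h ^ (m + 1) • q) + dist q (h ^ 2 • q))
      (dist p (h ^ m • q) + dist q (h • q)) with hh | hh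
    · left; rw [hh] at f3; linarith
    · right; rw [hh] at f3; linarith

include hiso hδ h4 in
lemma tau_lower (h : G) (q : S) (lam C : ℝ) (hlam : δ < lam)
    (hgrow : ∀ m : ℕ, lam * m - C ≤ dist q (h ^ m • q)) : lam - δ ≤ tau h q := by
  by_contra hcon
  push Not at hcon
  set T : ℝ := max (tau h q) 0 with hT
  have hT0 : 0 ≤ T := le_max_right _ _
  have hTτ : tau h q ≤ T := le_max_left _ _
  have hTl : T < lam - δ := max_lt hcon (by linarith)
  have key : ∀ m : ℕ, dist q (h ^ m • q) ≤ dist q (h • q) + m * (T + δ) ∧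
      dist q (h ^ (m + 1) • q) ≤ dist q (h • q) + (m + 1) * (T + δ) := by
    intro m
    induction m with
    | zero =>
      refine ⟨?_, ?_⟩
      · simp only [pow_zero, one_smul, dist_self, Nat.cast_zero, zero_mul, add_zero]
        exact dist_nonneg
      · simp only [zero_add, pow_one, Nat.cast_zero, one_mul]
        linarith
    | succ m ih =>
      refine ⟨?_, ?_⟩
      · push_cast
        exact ih.2
      · obtain ⟨-, -, h3⟩ := tri hiso δ h4 h q q m
        rw [show m + 1 + 1 = m + 2 by ring]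
        push_cast
        have hm : (0 : ℝ) ≤ m := Nat.cast_nonneg m
        rcases h3 with h3 | h3
        · nlinarith [ih.2]
        · nlinarith [ih.1]
  have h5 : ∀ m : ℕ, (lam - (T + δ)) * m ≤ dist q (h • q) + C := by
    intro m
    have h6 := hgrow m
    have h7 := (key m).1
    nlinarith
  have := arch h5
  linarith

include hiso hδ h4 in
/-- once up, always up -/
lemma up_step (h : G) (p q : S) (hτ : δ < tau h q) (m : ℕ)
    (hP : dist p (h ^ m • q) + tau h q - δ ≤ dist p (h ^ (m + 1) • q)) :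
    |dist p (h ^ (m + 2) • q) - (dist p (h ^ (m + 1) • q) + tau h q)| ≤ δ := by
  obtain ⟨h1, -, h3⟩ := tri hiso δ h4 h p q m
  rw [abs_le]
  constructor
  · rcases h1 with h1 | h1 <;> linarith
  · rcases h3 with h3 | h3 <;> linarith

include hiso hδ h4 in
/-- not up at `m + 1`: down at `m` -/
lemma down_step (h : G) (p q : S) (m : ℕ)
    (hP : dist p (h ^ (m + 2) • q) < dist p (h ^ (m + 1) • q) + tau h q - δ) :
    |dist p (h ^ m • q) - (dist p (h ^ (m + 1) • q) + tau h q)| ≤ δ := by
  obtain ⟨h1, h2, -⟩ := tri hiso δ h4 h p q m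
  rw [abs_le]
  constructor
  · rcases h1 with h1 | h1 <;> linarith
  · rcases h2 with h2 | h2 <;> linarith

include hiso hδ h4 in
/-- the orbit of `q` seen from `q` -/
lemma ascend (h : G) (q : S) (hτ : δ < tau h q) (m : ℕ) :
    |dist q (h ^ (m + 1) • q) - (dist q (h • q) + m * tau h q)| ≤ m * δ := by
  have hE : tau h q ≤ dist q (h • q) := by
    unfold tau
    have h1 : dist q (h ^ 2 • q) ≤ dist q (h • q) + dist (h • q) (h ^ 2 • q) :=
      dist_triangle _ _ _
    have h2 : dist (h • q) (h ^ 2 • q) = dist q (h • q) := by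
      rw [pow_two, mul_smul, hiso]
    linarith
  have hP : ∀ m : ℕ, dist q (h ^ m • q) + tau h q - δ ≤ dist q (h ^ (m + 1) • q) := by
    intro m
    induction m with
    | zero =>
      simp only [pow_zero, one_smul, dist_self, zero_add, pow_one]
      linarith
    | succ m ih =>
      have := (abs_le.1 (up_step hiso δ hδ h4 h q q hτ m ih)).1
      rw [show m + 1 + 1 = m + 2 by ring]
      linarith
  induction m with
  | zero => simp
  | succ m ih =>
    have h1 := abs_le.1 (up_step hiso δ hδ h4 h q q hτ m (hP m))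
    have h2 := abs_le.1 ih
    rw [show m + 1 + 1 = m + 2 by ring, abs_le]
    push_cast
    constructor <;> linarith [h1.1, h1.2, h2.1, h2.2]

include hiso hδ h4 in
lemma tau_close (h : G) (q q' : S) (hτ : δ < tau h q) (hτ' : δ < tau h q') :
    tau h q ≤ tau h q' + 2 * δ := by
  have key : ∀ m : ℕ, (tau h q - tau h q' - 2 * δ) * m ≤
      dist q' (h • q') + 2 * dist q q' - dist q (h • q) := by
    intro m
    have h1 := abs_le.1 (ascend hiso δ hδ h4 h q hτ m)
    have h2 := abs_le.1 (ascend hiso δ hδ h4 h q' hτ' m)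
    have h3 : dist q (h ^ (m + 1) • q) ≤ dist q' (h ^ (m + 1) • q') + 2 * dist q q' := by
      have h4' : dist q (h ^ (m + 1) • q) ≤ dist q q' + dist q' (h ^ (m + 1) • q') +
          dist (h ^ (m + 1) • q') (h ^ (m + 1) • q) := dist_triangle4 _ _ _ _
      rw [hiso, dist_comm q' q] at h4'
      linarith
    nlinarith [h1.1, h2.2]
  have := arch key
  linarith

include hiso hδ h4 in
/-- V-shape -/
lemma vshape (h : G) (p q : S) (hτ : δ < tau h q) (M : ℕ) :
    ∃ m₁ : ℕ, (∀ m, m + 1 < m₁ →
        |dist p (h ^ m • q) - (dist p (h ^ (m + 1) • q) + tau h q)| ≤ δ) ∧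
      (∀ m, m₁ < m → m < M →
        |dist p (h ^ (m + 1) • q) - (dist p (h ^ m • q) + tau h q)| ≤ δ) := by
  classical
  by_cases hex : ∃ m, dist p (h ^ m • q) + tau h q - δ ≤ dist p (h ^ (m + 1) • q)
  · refine ⟨Nat.find hex, ?_, ?_⟩
    · intro m hm
      have h1 := Nat.find_min hex hm
      push Not at h1
      exact down_step hiso δ hδ h4 h p q m h1
    · have hP : ∀ n, Nat.find hex ≤ n →
          dist p (h ^ n • q) + tau h q - δ ≤ dist p (h ^ (n + 1) • q) := by
        intro n hn
        induction n, hn using Nat.le_induction with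
        | base => exact Nat.find_spec hex
        | succ n hn ih =>
          have := (abs_le.1 (up_step hiso δ hδ h4 h p q hτ n ih)).1
          rw [show n + 1 + 1 = n + 2 by ring]
          linarith
      intro m hm _
      obtain ⟨n, rfl⟩ : ∃ n, m = n + 1 := ⟨m - 1, by omega⟩
      exact up_step hiso δ hδ h4 h p q hτ n (hP n (by omega))
  · push Not at hex
    refine ⟨M, ?_, ?_⟩
    · intro m _
      exact down_step hiso δ hδ h4 h p q m (hex (m + 1))
    · intro m h1 h2
      omega

end

/-- steps of almost constant size: total displacement -/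
lemma total (b : ℕ → ℝ) (L η : ℝ) (j : ℕ) (n : ℕ)
    (h : ∀ i < n, |b (j + i + 1) - (b (j + i) + L)| ≤ η) : |b (j + n) - (b j + n * L)| ≤ n * η := by
  induction n with
  | zero => simp
  | succ n ih =>
    have h1 := abs_le.1 (ih (fun i hi => h i (by omega)))
    have h2 := abs_le.1 (h n (by omega))
    rw [← add_assoc, abs_le]
    push_cast
    constructor <;> linarith [h1.1, h1.2, h2.1, h2.2]

end Pool.Agent.H60.SM.Hyp
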