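import Mathlib
import Pool.Agent.H60.SM.Hyp
import Pool.Graph.R_seed8.SyndeticSub.Core

/-!
Groups acting on Gromov hyperbolic spaces with an element of positive translation length have
finite colourings of arbitrarily small two-sided density.
-/

set_option autoImplicit false

namespace Pool.Agent.H60.SM.Hyp

/-- the colour of a real number -/
noncomputable def col (N : ℕ) (hN : 0 < N) (L : ℝ) (t : ℝ) : Fin (2 * N) :=
  ⟨((⌊t * (2 / L)⌋) % ((2 * N : ℕ) : ℤ)).toNat, by
    have h1 : (0 : ℤ) < ((2 * N : ℕ) : ℤ) := by push_cast; omega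
    have h2 := Int.emod_lt_of_pos (⌊t * (2 / L)⌋) h1
    have h3 := Int.emod_nonneg (⌊t * (2 / L)⌋) h1.ne'
    omega⟩

lemma col_ne (N : ℕ) (hN : 0 < N) (L : ℝ) (hL : 0 < L) (n : ℕ) (hn : 1 ≤ n) (hnN : n < N)
    (e : ℝ) (he : e * (2 / L) < 1) (t t' : ℝ) (h : |t' - (t + n * L)| ≤ e) :
    col N hN L t ≠ col N hN L t' := by
  intro heq
  have hs : 0 < 2 / L := by positivity
  have h1 := abs_le.1 h
  have f1 := Int.floor_le (t * (2 / L))
  have f2 := Int.lt_floor_add_one (t * (2 / L))
  have f3 := Int.floor_le (t' * (2 / L))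
  have f4 := Int.lt_floor_add_one (t' * (2 / L))
  have hLs : L * (2 / L) = 2 := by field_simp
  have g1 : t' * (2 / L) ≤ t * (2 / L) + 2 * n + e * (2 / L) := by
    have : t' ≤ t + n * L + e := by linarith [h1.2]
    calc t' * (2 / L) ≤ (t + n * L + e) * (2 / L) := by gcongr
      _ = t * (2 / L) + n * (L * (2 / L)) + e * (2 / L) := by ring
      _ = _ := by rw [hLs]; ring
  have g2 : t * (2 / L) + 2 * n - e * (2 / L) ≤ t' * (2 / L) := by
    have : t + n * L - e ≤ t' := by linarith [h1.1]
    calc t * (2 / L) + 2 * n - e * (2 / L) =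
        t * (2 / L) + n * (L * (2 / L)) - e * (2 / L) := by rw [hLs]; ring
      _ = (t + n * L - e) * (2 / L) := by ring
      _ ≤ t' * (2 / L) := by gcongr
  set A := ⌊t * (2 / L)⌋ with hA
  set B := ⌊t' * (2 / L)⌋ with hB
  have d1 : ((2 * n : ℤ) : ℝ) - 2 < ((B - A : ℤ) : ℝ) := by
    push_cast
    linarith
  have d2 : ((B - A : ℤ) : ℝ) < ((2 * n : ℤ) : ℝ) + 2 := by
    push_cast
    linarith
  have d1' : (2 * n : ℤ) - 2 < B - A := by exact_mod_cast d1
  have d2' : B - A < (2 * n : ℤ) + 2 := by exact_mod_cast d2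
  have h5 : (0 : ℤ) < ((2 * N : ℕ) : ℤ) := by push_cast; omega
  have h6 : A % ((2 * N : ℕ) : ℤ) = B % ((2 * N : ℕ) : ℤ) := by
    have h7 := congrArg Fin.val heq
    simp only [col] at h7
    rw [← hA, ← hB] at h7
    have h8 := Int.emod_nonneg A h5.ne'
    have h9 := Int.emod_nonneg B h5.ne'
    omega
  have h7 : ((2 * N : ℕ) : ℤ) ∣ B - A := Int.ModEq.dvd h6
  obtain ⟨k, hk⟩ := h7
  push_cast at hk h5
  have hn' : (n : ℤ) + 1 ≤ N := by exact_mod_cast hnN
  have hn1 : (1 : ℤ) ≤ n := by exact_mod_cast hn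
  rcases le_or_gt k 0 with hk0 | hk0
  · nlinarith
  · nlinarith

/-- counting -/
lemma count (N : ℕ) (hN : 0 < N) (L τ δ : ℝ) (hL : 0 < L) (hδ : 0 ≤ δ)
    (hLδ : 6 * N * δ < L) (hτ : |τ - L| ≤ 2 * δ) (a : ℕ → ℝ) (m₁ : ℕ)
    (hdown : ∀ m, m + 1 < m₁ → |a m - (a (m + 1) + τ)| ≤ δ)
    (hup : ∀ m, m₁ < m → m < N * N → |a (m + 1) - (a m + τ)| ≤ δ) (i : Fin (2 * N)) :
    ((Finset.range (N * N)).filter (fun j => col N hN L (a j) = i)).card ≤ 2 * N := by
  classical
  have he : (3 * N * δ) * (2 / L) < 1 := by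
    rw [mul_div_assoc', div_lt_one hL]
    linarith
  have hsame : ∀ j j' : ℕ, j < j' → j' < N * N → j / N = j' / N → j / N ≠ m₁ / N →
      col N hN L (a j) ≠ col N hN L (a j') := by
    intro j j' hjj' hj' hdiv hne
    obtain ⟨n, rfl⟩ : ∃ n, j' = j + n := ⟨j' - j, by omega⟩
    have hn1 : 1 ≤ n := by omega
    have hb1 : N * (j / N) ≤ j := Nat.mul_div_le j N
    have hb2 : j + n < N * (j / N) + N := by
      have := Nat.lt_mul_div_succ (j + n) hN
      rw [← hdiv] at this
      linarith [this, Nat.mul_succ N (j / N)]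
    have hnN : n < N := by omega
    have hnN' : (n : ℝ) ≤ N := by exact_mod_cast hnN.le
    have habs := abs_le.1 hτ
    rcases lt_or_gt_of_ne hne with hlt | hgt
    · -- descending
      have hm : N * (j / N) + N ≤ m₁ := by
        have h1 : j / N + 1 ≤ m₁ / N := hlt
        calc N * (j / N) + N = N * (j / N + 1) := by ring
          _ ≤ N * (m₁ / N) := Nat.mul_le_mul_left _ h1
          _ ≤ m₁ := Nat.mul_div_le m₁ N
      have ht := total (fun m => - a m) τ δ j n (fun k hk => by
        have := hdown (j + k) (by omega)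
        rw [show -a (j + k + 1) - (-a (j + k) + τ) = a (j + k) - (a (j + k + 1) + τ) by ring]
        exact this)
      have ht' := abs_le.1 ht
      refine (col_ne N hN L hL n hn1 hnN (3 * N * δ) he (a (j + n)) (a j) ?_).symm
      rw [abs_le]
      constructor <;> nlinarith [ht'.1, ht'.2, habs.1, habs.2]
    · -- ascending
      have hm : m₁ < N * (j / N) := by
        have h1 : m₁ / N + 1 ≤ j / N := hgt
        calc m₁ < N * (m₁ / N + 1) := by
              have := Nat.lt_mul_div_succ m₁ hN
              simpa using this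
          _ ≤ N * (j / N) := Nat.mul_le_mul_left _ h1
      have ht := total a τ δ j n (fun k hk => hup (j + k) (by omega) (by omega))
      have ht' := abs_le.1 ht
      refine col_ne N hN L hL n hn1 hnN (3 * N * δ) he (a j) (a (j + n)) ?_
      rw [abs_le]
      constructor <;> nlinarith [ht'.1, ht'.2, habs.1, habs.2]
  set T := (Finset.range (N * N)).filter (fun j => col N hN L (a j) = i) with hT
  have hTmem : ∀ j ∈ T, j < N * N ∧ col N hN L (a j) = i := by
    intro j hj
    rw [hT, Finset.mem_filter, Finset.mem_range] at hj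
    exact hj
  have h1 : (T.filter (fun j => j / N = m₁ / N)).card ≤ N := by
    have : (T.filter (fun j => j / N = m₁ / N)).card ≤ (Finset.range N).card := by
      refine Finset.card_le_card_of_injOn (fun j => j % N) ?_ ?_
      · intro j _
        simp only [Finset.coe_range, Set.mem_Iio]
        exact Nat.mod_lt _ hN
      · intro j hj j' hj' hjj
        have e1 : j / N = m₁ / N := (Finset.mem_filter.1 hj).2
        have e2 : j' / N = m₁ / N := (Finset.mem_filter.1 hj').2
        have e3 : j % N = j' % N := hjj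
        rw [← Nat.div_add_mod j N, ← Nat.div_add_mod j' N, e1, e2, e3]
    simpa using this
  have h2 : (T.filter (fun j => ¬ j / N = m₁ / N)).card ≤ N := by
    have : (T.filter (fun j => ¬ j / N = m₁ / N)).card ≤ (Finset.range N).card := by
      refine Finset.card_le_card_of_injOn (fun j => j / N) ?_ ?_
      · intro j hj
        have e1 := hTmem j (Finset.mem_filter.1 hj).1
        simp only [Finset.coe_range, Set.mem_Iio]
        exact (Nat.div_lt_iff_lt_mul hN).2 e1.1
      · intro j hj j' hj' hjj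
        have e1 := hTmem j (Finset.mem_filter.1 hj).1
        have e2 := hTmem j' (Finset.mem_filter.1 hj').1
        have e3 : j / N = j' / N := hjj
        rcases lt_trichotomy j j' with h | h | h
        · exact absurd (e1.2.trans e2.2.symm)
            (hsame j j' h e2.1 e3 (Finset.mem_filter.1 hj).2)
        · exact h
        · exact absurd (e2.2.trans e1.2.symm)
            (hsame j' j h e1.1 e3.symm (Finset.mem_filter.1 hj').2)
    simpa using this
  have h3 := Finset.card_filter_add_card_filter_not (s := T) (fun j => j / N = m₁ / N)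
  omega

open Pool.Agent.SyndeticSub in
/-- **Colourings from actions on Gromov hyperbolic spaces.** -/
theorem spread_of_hyp {G S : Type} [Group G] [PseudoMetricSpace S] [MulAction G S]
    (hiso : ∀ (k : G) (x y : S), dist (k • x) (k • y) = dist x y) (δ : ℝ) (hδ : 0 ≤ δ)
    (h4 : ∀ x y z w : S, dist x y + dist z w ≤
      max (dist x z + dist y w) (dist x w + dist y z) + δ)
    (o : S) (g : G) (c C : ℝ) (hc : 0 < c)
    (hgrow : ∀ m : ℕ, c * m - C ≤ dist o (g ^ m • o)) : Spread G := by
  classical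
  intro ε hε
  obtain ⟨N, hN⟩ := exists_nat_gt (2 / ε)
  have hNpos : (0 : ℝ) < N := lt_trans (by positivity) hN
  have hN0 : 0 < N := by exact_mod_cast hNpos
  obtain ⟨k, hk⟩ := exists_nat_gt (((6 * N + 2) * δ + 1) / c)
  rw [div_lt_iff₀ hc] at hk
  set h : G := g ^ k with hh
  set lam : ℝ := c * k with hlam
  have hNδ : 0 ≤ N * δ := by positivity
  have hlam1 : (6 * N + 2) * δ + 1 < lam := by rw [hlam]; linarith
  have hlamδ : 2 * δ < lam := by nlinarith
  have hgr : ∀ q : S, ∀ m : ℕ, lam * m - (C + 2 * dist o q) ≤ dist q (h ^ m • q) := by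
    intro q m
    have h1 := hgrow (k * m)
    have h2 : dist o (h ^ m • o) ≤ dist o q + dist q (h ^ m • q) +
        dist (h ^ m • q) (h ^ m • o) := dist_triangle4 _ _ _ _
    rw [hiso, dist_comm q o] at h2
    rw [pow_mul, ← hh] at h1
    push_cast at h1
    rw [hlam]
    nlinarith
  have hτq : ∀ q : S, lam - δ ≤ tau h q := fun q =>
    tau_lower hiso δ hδ h4 h q lam (C + 2 * dist o q) (by linarith) (hgr q)
  have hτδ : ∀ q : S, δ < tau h q := fun q => by linarith [hτq q]
  set L : ℝ := tau h o with hL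
  have hL1 : lam - δ ≤ L := hτq o
  have hLpos : 0 < L := by linarith [hτδ o]
  have hLδ : 6 * N * δ < L := by nlinarith
  refine ⟨2 * N, fun x => col N hN0 L (dist o (x • o)), N * N, fun j => h ^ (j : ℕ),
    Nat.mul_pos hN0 hN0, ?_⟩
  intro x z i
  set q : S := z • o with hq
  set p : S := x⁻¹ • o with hp
  have hdist : ∀ j : ℕ, dist o ((x * h ^ j * z) • o) = dist p (h ^ j • q) := by
    intro j
    rw [hp, hq, ← hiso x (x⁻¹ • o), smul_inv_smul, mul_smul, mul_smul]
  obtain ⟨m₁, hm1, hm2⟩ := vshape hiso δ hδ h4 h p q (hτδ q) (N * N)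
  have hτL : |tau h q - L| ≤ 2 * δ := by
    have e1 := tau_close hiso δ hδ h4 h q o (hτδ q) (hτδ o)
    have e2 := tau_close hiso δ hδ h4 h o q (hτδ o) (hτδ q)
    rw [abs_le]
    constructor <;> linarith
  have hcnt := count N hN0 L (tau h q) δ hLpos hδ hLδ hτL (fun j => dist p (h ^ j • q)) m₁
    hm1 hm2 i
  have hle : Nat.card {j : Fin (N * N) // col N hN0 L (dist o ((x * h ^ (j : ℕ) * z) • o)) = i} ≤
      2 * N := by
    rw [Nat.card_eq_fintype_card, Fintype.card_subtype]
    refine le_trans ?_ hcnt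
    refine Finset.card_le_card_of_injOn (fun j => (j : ℕ)) ?_ ?_
    · intro j hj
      have e1 := (Finset.mem_filter.1 hj).2
      rw [hdist] at e1
      exact Finset.mem_coe.2 (Finset.mem_filter.2 ⟨Finset.mem_range.2 j.2, e1⟩)
    · intro j _ j' _ hjj
      exact Fin.ext hjj
  have hle' : ((Nat.card {j : Fin (N * N) //
      col N hN0 L (dist o ((x * h ^ (j : ℕ) * z) • o)) = i} : ℕ) : ℝ) ≤ 2 * N := by
    exact_mod_cast hle
  refine hle'.trans ?_
  push_cast
  have h5 : 2 < ε * N := by
    rw [div_lt_iff₀ hε] at hN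
    linarith
  nlinarith

end Pool.Agent.H60.SM.Hyp
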