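import Mathlib
import Pool.Agent.H60.SM.Hyp2
import Pool.Agent.H60.SM.Val

/-!
Groups with a representation in `SL₂` of a field one of whose traces is not integral over `ℤ`
have finite colourings of arbitrarily small two-sided density.
-/

set_option autoImplicit false

namespace Pool.Agent.H60.SM.SL2

open Pool.Agent.H60.SM Pool.Agent.H60.SM.Hyp

lemma exists_val_nonint (K : Type) [Field K] (t : K) (ht : ¬ IsIntegral ℤ t) :
    ∃ B : ValuationSubring K, 1 < B.valuation t := by
  have h1 : t ∉ (integralClosure ℤ K).toSubring := by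
    intro h
    exact ht h
  obtain ⟨V, _, hV⟩ := Subring.exists_le_valuationSubring_of_isIntegrallyClosedIn h1
  refine ⟨V, ?_⟩
  rw [← not_le, ValuationSubring.valuation_le_one_iff]
  exact hV

section

variable {K Γ₀ : Type} [Field K] [LinearOrderedCommGroupWithZero Γ₀] (v : Valuation K Γ₀)

/-- the sup norm of a `2 × 2` matrix -/
noncomputable def MN (M : Matrix (Fin 2) (Fin 2) K) : Γ₀ :=
  Finset.univ.sup' Finset.univ_nonempty (fun p : Fin 2 × Fin 2 => v (M p.1 p.2))

lemma le_MN (M : Matrix (Fin 2) (Fin 2) K) (i j : Fin 2) : v (M i j) ≤ MN v M :=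
  Finset.le_sup' (fun p : Fin 2 × Fin 2 => v (M p.1 p.2)) (Finset.mem_univ (i, j))

lemma MN_le {M : Matrix (Fin 2) (Fin 2) K} {c : Γ₀} (h : ∀ i j, v (M i j) ≤ c) : MN v M ≤ c :=
  Finset.sup'_le _ _ (fun p _ => h p.1 p.2)

lemma MN_eq (M : Matrix (Fin 2) (Fin 2) K) : ∃ i j, MN v M = v (M i j) := by
  obtain ⟨p, _, hp⟩ := Finset.exists_mem_eq_sup' (Finset.univ_nonempty)
    (fun p : Fin 2 × Fin 2 => v (M p.1 p.2))
  exact ⟨p.1, p.2, hp⟩

lemma MN_ne {M : Matrix (Fin 2) (Fin 2) K} (hM : M ≠ 0) : MN v M ≠ 0 := by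
  intro h
  apply hM
  ext i j
  have h1 := le_MN v M i j
  rw [h, le_zero_iff] at h1
  exact (map_eq_zero v).1 h1

lemma MN_smul (c : K) (M : Matrix (Fin 2) (Fin 2) K) : MN v (c • M) = v c * MN v M := by
  apply le_antisymm
  · apply MN_le
    intro i j
    rw [Matrix.smul_apply, smul_eq_mul, map_mul]
    exact mul_le_mul_right (le_MN v M i j) _
  · obtain ⟨i, j, hij⟩ := MN_eq v M
    rw [hij, ← map_mul]
    exact le_MN v (c • M) i j

lemma MN_neg (M : Matrix (Fin 2) (Fin 2) K) : MN v (-M) = MN v M := by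
  have := MN_smul v (-1) M
  rw [neg_one_smul, Valuation.map_neg, map_one, one_mul] at this
  exact this

lemma MN_add (M M' : Matrix (Fin 2) (Fin 2) K) : MN v (M + M') ≤ max (MN v M) (MN v M') := by
  apply MN_le
  intro i j
  exact (v.map_add _ _).trans (max_le_max (le_MN v M i j) (le_MN v M' i j))

lemma MN_add_eq {M M' : Matrix (Fin 2) (Fin 2) K} (h : MN v M' < MN v M) :
    MN v (M + M') = MN v M := by
  apply le_antisymm
  · exact (MN_add v M M').trans (max_le le_rfl h.le)
  · obtain ⟨i, j, hij⟩ := MN_eq v M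
    have h1 : v (M' i j) < v (M i j) := lt_of_le_of_lt (le_MN v M' i j) (by rwa [← hij])
    rw [hij, ← v.map_add_eq_of_lt_left h1]
    exact le_MN v (M + M') i j

end

lemma cayley {K : Type} [Field K] (A : Matrix.SpecialLinearGroup (Fin 2) K) :
    (A : Matrix (Fin 2) (Fin 2) K) * (A : Matrix (Fin 2) (Fin 2) K) =
      (Matrix.trace (A : Matrix (Fin 2) (Fin 2) K)) • (A : Matrix (Fin 2) (Fin 2) K) +
        -(1 : Matrix (Fin 2) (Fin 2) K) := by
  have hd := A.det_coe
  rw [Matrix.det_fin_two] at hd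
  ext i j
  fin_cases i <;> fin_cases j <;>
    simp [Matrix.mul_apply, Fin.sum_univ_two, Matrix.trace_fin_two] <;>
    first
    | linear_combination -hd
    | ring

open Pool.Agent.SyndeticSub in
/-- **Colourings from representations in `SL₂`.** -/
theorem spread_of_val {G K Γ₀ : Type} [Group G] [Field K] [LinearOrderedCommGroupWithZero Γ₀]
    (v : Valuation K Γ₀) (ρ : G →* Matrix.SpecialLinearGroup (Fin 2) K) (g : G)
    (ht : 1 < v (Matrix.trace (ρ g : Matrix (Fin 2) (Fin 2) K))) : Spread G := by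
  classical
  set t : K := Matrix.trace (ρ g : Matrix (Fin 2) (Fin 2) K) with htdef
  set s : Γ₀ := v t with hs
  have hs0 : s ≠ 0 := (lt_trans zero_lt_one ht).ne'
  have hspos : 0 < s := lt_trans zero_lt_one ht
  obtain ⟨f₀, hf₀⟩ := real_char (Additive Γ₀ˣ) (Additive.ofMul (Units.mk0 s hs0)) (by
    intro m hm
    have h1 : (Units.mk0 s hs0) ^ m = 1 := by
      rw [← ofMul_zpow] at hm
      exact Additive.ofMul.injective hm
    have h2 : s ^ m = 1 := by
      have := congrArg (fun u : Γ₀ˣ => (u : Γ₀)) h1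
      simpa using this
    exact zpow_right_injective₀ hspos ht.ne' (by simpa using h2))
  let T : Γ₀ → ℝ := fun γ => if h : γ = 0 then 0 else f₀ (Additive.ofMul (Units.mk0 γ h))
  have hTs : ∀ γ : Γ₀, γ ≠ 0 → T (s * γ) = T γ + 1 := by
    intro γ hγ
    have h1 : s * γ ≠ 0 := mul_ne_zero hs0 hγ
    simp only [T, dif_neg hγ, dif_neg h1]
    rw [← hf₀, ← map_add]
    congr 1
    rw [← ofMul_mul]
    congr 1
    ext
    simp [mul_comm]
  intro ε hε
  obtain ⟨N, hN⟩ := exists_nat_gt (2 / ε)
  have hNpos : (0 : ℝ) < N := lt_trans (by positivity) hN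
  have hN0 : 0 < N := by exact_mod_cast hNpos
  refine ⟨2 * N, fun x => col N hN0 1 (T (MN v (ρ x : Matrix (Fin 2) (Fin 2) K))), N * N,
    fun j => g ^ (j : ℕ), Nat.mul_pos hN0 hN0, ?_⟩
  intro x z i
  let a : ℕ → Γ₀ := fun j => MN v (ρ (x * g ^ j * z) : Matrix (Fin 2) (Fin 2) K)
  have ha0 : ∀ j, a j ≠ 0 := by
    intro j
    apply MN_ne
    intro h0
    have h1 := (ρ (x * g ^ j * z)).det_coe
    rw [h0, Matrix.det_fin_two] at h1
    simp at h1
  have hrec : ∀ j, (ρ (x * g ^ (j + 2) * z) : Matrix (Fin 2) (Fin 2) K) =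
      t • (ρ (x * g ^ (j + 1) * z) : Matrix (Fin 2) (Fin 2) K) +
        -(ρ (x * g ^ j * z) : Matrix (Fin 2) (Fin 2) K) := by
    intro j
    have e1 : x * g ^ (j + 2) * z = x * g ^ j * (g * g) * z := by
      simp only [pow_add, pow_two, mul_assoc]
    have e2 : x * g ^ (j + 1) * z = x * g ^ j * g * z := by
      simp only [pow_succ, mul_assoc]
    rw [e1, e2]
    simp only [map_mul, Matrix.SpecialLinearGroup.coe_mul]
    rw [cayley (ρ g), ← htdef]
    rw [mul_add, add_mul, mul_smul_comm, smul_mul_assoc, mul_neg, mul_one, neg_mul]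
  have hA : ∀ j, a j < s * a (j + 1) → a (j + 2) = s * a (j + 1) := by
    intro j hj
    show MN v (ρ (x * g ^ (j + 2) * z) : Matrix (Fin 2) (Fin 2) K) = _
    rw [hrec j, MN_add_eq, MN_smul]
    rw [MN_neg, MN_smul]
    exact hj
  have hB : ∀ j, s * a (j + 1) < a j → a (j + 2) = a j := by
    intro j hj
    show MN v (ρ (x * g ^ (j + 2) * z) : Matrix (Fin 2) (Fin 2) K) = _
    rw [hrec j, add_comm, MN_add_eq, MN_neg]
    rw [MN_neg, MN_smul]
    exact hj
  have hQ : ∀ j, a j < s * a (j + 1) → a (j + 1) < s * a (j + 2) := by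
    intro j hj
    rw [hA j hj]
    have h1 : a (j + 1) < s * a (j + 1) := by
      calc a (j + 1) = 1 * a (j + 1) := (one_mul _).symm
        _ < s * a (j + 1) := mul_lt_mul_of_pos_right ht (zero_lt_iff.2 (ha0 _))
    calc a (j + 1) < s * a (j + 1) := h1
      _ = 1 * (s * a (j + 1)) := (one_mul _).symm
      _ < s * (s * a (j + 1)) := mul_lt_mul_of_pos_right ht
          (mul_pos hspos (zero_lt_iff.2 (ha0 _)))
  obtain ⟨m₁, hdown, hup⟩ : ∃ m₁ : ℕ, (∀ m, m + 1 < m₁ → a m = s * a (m + 1)) ∧
      (∀ m, m₁ < m → m < N * N → a (m + 1) = s * a m) := by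
    by_cases hex : ∃ m, a m ≠ s * a (m + 1)
    · refine ⟨Nat.find hex + 1, ?_, ?_⟩
      · intro m hm
        have h1 := Nat.find_min hex (show m < Nat.find hex by omega)
        push Not at h1
        exact h1
      · have hQ0 : a (Nat.find hex + 1) < s * a (Nat.find hex + 2) := by
          rcases lt_or_gt_of_ne (Nat.find_spec hex) with h1 | h1
          · exact hQ _ h1
          · rw [hB _ h1]
            have h2 : a (Nat.find hex + 1) < s * a (Nat.find hex + 1) := by
              calc a (Nat.find hex + 1) = 1 * a (Nat.find hex + 1) := (one_mul _).symm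
                _ < s * a (Nat.find hex + 1) :=
                  mul_lt_mul_of_pos_right ht (zero_lt_iff.2 (ha0 _))
            calc a (Nat.find hex + 1) < s * a (Nat.find hex + 1) := h2
              _ < a (Nat.find hex) := h1
              _ = 1 * a (Nat.find hex) := (one_mul _).symm
              _ < s * a (Nat.find hex) := mul_lt_mul_of_pos_right ht (zero_lt_iff.2 (ha0 _))
        have hQn : ∀ n, Nat.find hex + 1 ≤ n → a n < s * a (n + 1) := by
          intro n hn
          induction n, hn using Nat.le_induction with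
          | base => exact hQ0
          | succ n hn ih => exact hQ n ih
        intro m hm _
        obtain ⟨n, rfl⟩ : ∃ n, m = n + 1 := ⟨m - 1, by omega⟩
        exact hA n (hQn n (by omega))
    · push Not at hex
      exact ⟨N * N, fun m _ => hex m, fun m h1 h2 => by omega⟩
  have hcnt := count N hN0 1 1 0 one_pos le_rfl (by simp) (by simp) (fun j => T (a j)) m₁
    (fun m hm => by
      rw [hdown m hm, hTs _ (ha0 _), sub_self, abs_zero])
    (fun m hm1 hm2 => by
      rw [hup m hm1 hm2, hTs _ (ha0 _), sub_self, abs_zero]) i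
  have hle : Nat.card {j : Fin (N * N) // col N hN0 1 (T (MN v
      (ρ (x * g ^ (j : ℕ) * z) : Matrix (Fin 2) (Fin 2) K))) = i} ≤ 2 * N := by
    rw [Nat.card_eq_fintype_card, Fintype.card_subtype]
    refine le_trans ?_ hcnt
    refine Finset.card_le_card_of_injOn (fun j => (j : ℕ)) ?_ ?_
    · intro j hj
      have e1 := (Finset.mem_filter.1 hj).2
      exact Finset.mem_coe.2 (Finset.mem_filter.2 ⟨Finset.mem_range.2 j.2, e1⟩)
    · intro j _ j' _ hjj
      exact Fin.ext hjj
  have hle' : ((Nat.card {j : Fin (N * N) // col N hN0 1 (T (MN v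
      (ρ (x * g ^ (j : ℕ) * z) : Matrix (Fin 2) (Fin 2) K))) = i} : ℕ) : ℝ) ≤ 2 * N := by
    exact_mod_cast hle
  refine hle'.trans ?_
  push_cast
  have h5 : 2 < ε * N := by
    rw [div_lt_iff₀ hε] at hN
    linarith
  nlinarith

open Pool.Agent.SyndeticSub in
/-- **Representations in `SL₂` with a trace which is not integral.** -/
theorem spread_of_trace {G K : Type} [Group G] [Field K]
    (ρ : G →* Matrix.SpecialLinearGroup (Fin 2) K) (g : G)
    (ht : ¬ IsIntegral ℤ (Matrix.trace (ρ g : Matrix (Fin 2) (Fin 2) K))) : Spread G := by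
  obtain ⟨B, hB⟩ := exists_val_nonint K _ ht
  exact spread_of_val B.valuation ρ g hB

/-- such a group is infinite -/
theorem infinite_of_trace {G K : Type} [Group G] [Field K]
    (ρ : G →* Matrix.SpecialLinearGroup (Fin 2) K) (g : G)
    (ht : ¬ IsIntegral ℤ (Matrix.trace (ρ g : Matrix (Fin 2) (Fin 2) K))) : Infinite G := by
  by_contra hfin
  rw [not_infinite_iff_finite] at hfin
  obtain ⟨B, hB⟩ := exists_val_nonint K _ ht
  set v := B.valuation with hv
  set t : K := Matrix.trace (ρ g : Matrix (Fin 2) (Fin 2) K) with htdef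
  set s := v t with hs
  have hspos : 0 < s := lt_trans zero_lt_one hB
  let a : ℕ → B.ValueGroup := fun j => MN v (ρ (g ^ j) : Matrix (Fin 2) (Fin 2) K)
  have hone : MN v (1 : Matrix (Fin 2) (Fin 2) K) ≤ 1 := by
    apply MN_le
    intro i j
    by_cases hij : i = j
    · subst hij; simp
    · rw [Matrix.one_apply_ne hij, map_zero]; exact zero_le
  have hrec : ∀ j, (ρ (g ^ (j + 2)) : Matrix (Fin 2) (Fin 2) K) =
      t • (ρ (g ^ (j + 1)) : Matrix (Fin 2) (Fin 2) K) +
        -(ρ (g ^ j) : Matrix (Fin 2) (Fin 2) K) := by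
    intro j
    have e1 : g ^ (j + 2) = g ^ j * (g * g) := by rw [pow_add, pow_two]
    have e2 : g ^ (j + 1) = g ^ j * g := pow_succ g j
    rw [e1, e2]
    simp only [map_mul, Matrix.SpecialLinearGroup.coe_mul]
    rw [cayley (ρ g), ← htdef]
    rw [mul_add, mul_smul_comm, mul_neg, mul_one]
  have key : ∀ j, a j < s * a (j + 1) ∧ 1 < a (j + 1) := by
    intro j
    induction j with
    | zero =>
      have h1 : s ≤ a 1 := by
        rw [hs, htdef, Matrix.trace_fin_two]
        refine (v.map_add _ _).trans (max_le ?_ ?_)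
        · have := le_MN v (ρ (g ^ 1) : Matrix (Fin 2) (Fin 2) K) 0 0
          rw [pow_one] at this
          show _ ≤ MN v (ρ (g ^ 1) : Matrix (Fin 2) (Fin 2) K)
          rw [pow_one]
          exact this
        · have := le_MN v (ρ (g ^ 1) : Matrix (Fin 2) (Fin 2) K) 1 1
          rw [pow_one] at this
          show _ ≤ MN v (ρ (g ^ 1) : Matrix (Fin 2) (Fin 2) K)
          rw [pow_one]
          exact this
      have h2 : a 0 ≤ 1 := by
        show MN v (ρ (g ^ 0) : Matrix (Fin 2) (Fin 2) K) ≤ 1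
        rw [pow_zero, map_one]
        exact hone
      have h3 : 1 < a 1 := lt_of_lt_of_le hB h1
      refine ⟨lt_of_le_of_lt h2 ?_, h3⟩
      calc (1 : B.ValueGroup) < a 1 := h3
        _ = 1 * a 1 := (one_mul _).symm
        _ < s * a (0 + 1) := mul_lt_mul_of_pos_right hB (lt_trans zero_lt_one h3)
    | succ j ih =>
      have h1 : a (j + 2) = s * a (j + 1) := by
        show MN v (ρ (g ^ (j + 2)) : Matrix (Fin 2) (Fin 2) K) = _
        rw [hrec j, MN_add_eq, MN_smul]
        rw [MN_neg, MN_smul]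
        exact ih.1
      have hpos : 0 < a (j + 1) := lt_trans zero_lt_one ih.2
      have h2 : a (j + 1) < a (j + 2) := by
        rw [h1]
        calc a (j + 1) = 1 * a (j + 1) := (one_mul _).symm
          _ < s * a (j + 1) := mul_lt_mul_of_pos_right hB hpos
      have h3 : a (j + 2) < s * a (j + 2) := by
        calc a (j + 2) = 1 * a (j + 2) := (one_mul _).symm
          _ < s * a (j + 2) := mul_lt_mul_of_pos_right hB (lt_trans hpos h2)
      exact ⟨lt_trans h2 h3, lt_trans ih.2 h2⟩
  have hn : 0 < orderOf g := orderOf_pos g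
  obtain ⟨n, hn'⟩ : ∃ n, orderOf g = n + 1 := ⟨orderOf g - 1, by omega⟩
  have h1 := (key n).2
  have h2 : a (n + 1) ≤ 1 := by
    show MN v (ρ (g ^ (n + 1)) : Matrix (Fin 2) (Fin 2) K) ≤ 1
    rw [← hn', pow_orderOf_eq_one, map_one]
    exact hone
  exact absurd h1 (not_lt.2 h2)

end Pool.Agent.H60.SM.SL2
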