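import Mathlib
import Pool.Agent.H60.SM.SL2

/-!
Uncountable absolutely irreducible subgroups of `SL₂(K)` have a trace which is not integral.
-/

set_option autoImplicit false

namespace Pool.Agent.H60.SM.SL2

lemma countable_integral (K : Type) [Field K] : {t : K | IsIntegral ℤ t}.Countable := by
  haveI : Countable (Polynomial ℤ) := by
    rw [← Cardinal.mk_le_aleph0_iff]
    exact Polynomial.cardinalMk_le_max.trans (by simp)
  have hsub : {t : K | IsIntegral ℤ t} ⊆ ⋃ p : Polynomial ℤ,
      {t : K | (p.map (Int.castRingHom K)) ≠ 0 ∧ (p.map (Int.castRingHom K)).IsRoot t} := by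
    rintro t ⟨p, hp, hpt⟩
    refine Set.mem_iUnion.2 ⟨p, (hp.map _).ne_zero, ?_⟩
    rw [Polynomial.IsRoot.def, Polynomial.eval_map]
    exact hpt
  refine Set.Countable.mono hsub (Set.countable_iUnion fun p => ?_)
  by_cases h0 : p.map (Int.castRingHom K) = 0
  · have : {t : K | (p.map (Int.castRingHom K)) ≠ 0 ∧ (p.map (Int.castRingHom K)).IsRoot t} = ∅ := by
      ext t
      simp [h0]
    rw [this]
    exact Set.countable_empty
  · exact ((Polynomial.finite_setOfPred_isRoot h0).subset (fun t ht => ht.2)).countable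

/-- an absolutely irreducible subgroup with integral traces is countable -/
theorem countable_of_traces {G K : Type} [Group G] [Field K]
    (ρ : G →* Matrix.SpecialLinearGroup (Fin 2) K)
    (hspan : Submodule.span K (Set.range
      (fun g : G => (ρ g : Matrix (Fin 2) (Fin 2) K))) = ⊤)
    (htr : ∀ g : G, IsIntegral ℤ (Matrix.trace (ρ g : Matrix (Fin 2) (Fin 2) K))) :
    (Set.range ρ).Countable := by
  classical
  have hrep : ∀ i j : Fin 2, ∃ (N : ℕ) (c : Fin N → K) (κ : Fin N → G),
      ∀ M : Matrix (Fin 2) (Fin 2) K,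
        M j i = ∑ l, c l * Matrix.trace (M * (ρ (κ l) : Matrix (Fin 2) (Fin 2) K)) := by
    intro i j
    have h1 : (Matrix.single i j (1 : K)) ∈ Submodule.span K (Set.range
        (fun g : G => (ρ g : Matrix (Fin 2) (Fin 2) K))) := by
      rw [hspan]; trivial
    obtain ⟨N, c, y, hy⟩ := Submodule.mem_span_set'.1 h1
    choose κ hκ using fun l => (y l).2
    refine ⟨N, c, κ, fun M => ?_⟩
    have h2 : M j i = Matrix.trace (M * Matrix.single i j (1 : K)) := by
      fin_cases i <;> fin_cases j <;>
        simp [Matrix.trace_fin_two, Matrix.mul_apply, Matrix.single_apply]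
    rw [h2, ← hy, Finset.mul_sum, Matrix.trace_sum]
    refine Finset.sum_congr rfl fun l _ => ?_
    rw [mul_smul_comm, Matrix.trace_smul, smul_eq_mul]
    congr 3
    exact (hκ l).symm
  choose N c κ hc using hrep
  haveI : Countable {t : K | IsIntegral ℤ t} := (countable_integral K).to_subtype
  let Φ : Set.range ρ → ((i j : Fin 2) → Fin (N i j) → {t : K | IsIntegral ℤ t}) :=
    fun M i j l => ⟨Matrix.trace ((M.1 : Matrix (Fin 2) (Fin 2) K) *
      (ρ (κ i j l) : Matrix (Fin 2) (Fin 2) K)), by
      obtain ⟨g, hg⟩ := M.2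
      have := htr (g * κ i j l)
      rw [map_mul, Matrix.SpecialLinearGroup.coe_mul, hg] at this
      exact this⟩
  have hΦ : Function.Injective Φ := by
    intro M M' h
    apply Subtype.ext
    apply Subtype.ext
    ext j i
    rw [hc i j M.1, hc i j M'.1]
    refine Finset.sum_congr rfl fun l _ => ?_
    have h1 := congrArg Subtype.val (congrFun (congrFun (congrFun h i) j) l)
    simp only [Φ] at h1
    rw [h1]
  have : Countable (Set.range ρ) := hΦ.countable
  exact Set.countable_coe_iff.1 this

theorem exists_trace {G K : Type} [Group G] [Field K]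
    (ρ : G →* Matrix.SpecialLinearGroup (Fin 2) K)
    (hunc : ¬ (Set.range ρ).Countable)
    (hspan : Submodule.span K (Set.range
      (fun g : G => (ρ g : Matrix (Fin 2) (Fin 2) K))) = ⊤) :
    ∃ g : G, ¬ IsIntegral ℤ (Matrix.trace (ρ g : Matrix (Fin 2) (Fin 2) K)) := by
  by_contra hcon
  push Not at hcon
  exact hunc (countable_of_traces ρ hspan hcon)

end Pool.Agent.H60.SM.SL2
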