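import Mathlib
import Pool.Agent.H60.SM.Eigen

/-!
Linear groups over normed fields with a proximal element.
-/

set_option autoImplicit false
open Topology Pointwise Filter

namespace Pool.Agent.H60.SM

lemma circle_dist_mul_left (a b c : Circle) : dist (a * b) (a * c) = dist b c := by
  show dist ((a * b : Circle) : ℂ) ((a * c : Circle) : ℂ) = dist (b : ℂ) (c : ℂ)
  rw [dist_eq_norm, dist_eq_norm, Circle.coe_mul, Circle.coe_mul, ← mul_sub, norm_mul,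
    Circle.norm_coe, one_mul]

/-- `s ↦ exp (i log s / L)` -/
noncomputable def HH (L : ℝ) (s : ℝ) : Circle := Circle.exp (Real.log s / L)

lemma HH_mul (L : ℝ) {s t : ℝ} (hs : s ≠ 0) (ht : t ≠ 0) : HH L (s * t) = HH L s * HH L t := by
  unfold HH
  rw [Real.log_mul hs ht, add_div, Circle.exp_add]

lemma HH_cont (L : ℝ) {s : ℝ} (hs : s ≠ 0) : ContinuousAt (HH L) s := by
  unfold HH
  exact Circle.exp.continuous.continuousAt.comp ((Real.continuousAt_log hs).div_const L)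

lemma HH_self (L : ℝ) {r : ℝ} (hr : Real.log r = L) (hL : L ≠ 0) : HH L r = Circle.exp 1 := by
  unfold HH
  rw [hr, div_self hL]

lemma exp_one_order (n : ℤ) (h : (Circle.exp 1) ^ n = 1) : n = 0 := by
  rw [← Circle.exp_zsmul] at h
  rw [Circle.exp_eq_one] at h
  obtain ⟨m, hm⟩ := h
  by_contra hn
  have hm0 : m ≠ 0 := by
    rintro rfl
    simp at hm
    exact hn (by exact_mod_cast hm)
  have h1 : Real.pi = ((n : ℚ) / (2 * m) : ℚ) := by
    push_cast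
    have h2 : (m : ℝ) ≠ 0 := by exact_mod_cast hm0
    field_simp
    simp at hm
    linarith
  exact irrational_pi ⟨_, h1.symm⟩

section

variable {G K E : Type} [Group G] [NontriviallyNormedField K] [NormedAddCommGroup E]
  [NormedSpace K E]

/-- the function `x ↦ exp (i log ‖x⁻¹ u‖ / L)` -/
noncomputable def FF (L : ℝ) (ρ : G →* (E →L[K] E)) (u : E) (x : G) : Circle :=
  HH L ‖ρ x⁻¹ u‖

lemma rho_ne {ρ : G →* (E →L[K] E)} {u : E} (hu : u ≠ 0) (x : G) : ρ x u ≠ 0 := by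
  intro h
  apply hu
  have : ρ (x⁻¹ * x) u = 0 := by
    rw [map_mul]
    show ρ x⁻¹ (ρ x u) = 0
    rw [h, map_zero]
  simpa using this

lemma FF_smul (L : ℝ) (ρ : G →* (E →L[K] E)) (u : E) (k x : G) :
    FF L ρ u (k⁻¹ • x) = FF L ρ (ρ k u) x := by
  unfold FF
  have : (k⁻¹ • x)⁻¹ = x⁻¹ * k := by
    rw [smul_eq_mul, mul_inv_rev, inv_inv]
  rw [this, map_mul]
  rfl

/-- **Linear criterion.** -/
theorem linear (ρ : G →* (E →L[K] E)) (g : G) (v : E) (φ : E →L[K] K) (a : K)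
    (ha : 1 < ‖a‖) (hv : ρ g v = a • v) (hφv : φ v = 1)
    (hε : ∀ ε : ℝ, 0 < ε → ∃ N : ℕ, ∀ m ≥ N, ∀ w, φ w = 0 →
      ‖ρ (g ^ m) w‖ ≤ ε * ‖a‖ ^ m * ‖w‖)
    (hk : ∃ δ : ℝ, 0 < δ ∧ ∃ I : Finset G, ∀ w, ∃ k ∈ I, δ * ‖w‖ ≤ ‖φ (ρ k w)‖) :
    HasSyndeticSubmeasure G := by
  classical
  obtain ⟨δ, hδ, I, hI⟩ := hk
  set L : ℝ := Real.log ‖a‖ with hLdef
  have hL : L ≠ 0 := (Real.log_pos ha).ne'
  have hv0 : v ≠ 0 := by
    rintro rfl
    rw [map_zero] at hφv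
    exact zero_ne_one hφv
  have ha0 : (0 : ℝ) < ‖a‖ := lt_trans zero_lt_one ha
  have hane : a ≠ 0 := norm_pos_iff.1 ha0
  let F : G → Circle := FF L ρ v
  let Gen : ℝ → Set (G → Circle) := fun η =>
    {f | ∃ (c : Circle) (u : E), u ≠ 0 ∧ η * ‖u‖ ≤ ‖φ u‖ ∧ f = fun x => c * FF L ρ u x}
  let W₀ : Set (G → Circle) :=
    closure {f | ∃ (c : Circle) (u : E), u ≠ 0 ∧ f = fun x => c * FF L ρ u x}
  have htrans : ∀ k : G, Continuous (fun (f : G → Circle) (x : G) => f (k⁻¹ • x)) :=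
    fun k => continuous_pi (fun x => continuous_apply (k⁻¹ • x))
  -- powers
  have hvn : ∀ n : ℕ, ρ (g ^ n) v = a ^ n • v := by
    intro n
    induction n with
    | zero => simp
    | succ n ih =>
      rw [pow_succ', map_mul]
      show ρ g (ρ (g ^ n) v) = _
      rw [ih, map_smul, hv, smul_smul, pow_succ]
  -- main estimate
  have key : ∀ η : ℝ, 0 < η → ∀ f' ∈ closure (Gen η), ∀ x y : G, ∀ ε : ℝ, 0 < ε →
      ∃ N : ℕ, ∀ n ≥ N, dist (f' ((g ^ n)⁻¹ • x) * F y) (f' ((g ^ n)⁻¹ • y) * F x) ≤ ε := by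
    intro η hη f' hf' x y ε hεp
    have hpos : ∀ z : G, 0 < ‖ρ z⁻¹ v‖ := fun z => norm_pos_iff.2 (rho_ne hv0 _)
    -- continuity
    have hcont : ∀ z : G, ∃ τ : ℝ, 0 < τ ∧ ∀ s : ℝ, |s - ‖ρ z⁻¹ v‖| < τ →
        s ≠ 0 ∧ dist (HH L s) (F z) < ε / 2 := by
      intro z
      have h1 := Metric.continuousAt_iff.1 (HH_cont L (hpos z).ne') (ε / 2) (by linarith)
      obtain ⟨τ, hτ, h2⟩ := h1
      refine ⟨min τ ‖ρ z⁻¹ v‖, lt_min hτ (hpos z), fun s hs => ⟨?_, ?_⟩⟩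
      · rintro rfl
        rw [zero_sub, abs_neg, abs_of_pos (hpos z)] at hs
        exact absurd hs (not_lt.2 (min_le_right _ _))
      · exact h2 (by rw [Real.dist_eq]; exact lt_of_lt_of_le hs (min_le_left _ _))
    -- uniform approximation for generators
    have happ : ∀ z : G, ∃ N : ℕ, ∀ n ≥ N, ∀ u : E, u ≠ 0 → η * ‖u‖ ≤ ‖φ u‖ →
        dist (FF L ρ u ((g ^ n)⁻¹ • z)) (HH L (‖φ u‖ * ‖a‖ ^ n) * F z) < ε / 2 := by
      intro z
      obtain ⟨τ, hτ, hc⟩ := hcont z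
      set M : ℝ := 1 / η + ‖v‖ with hM
      have hM0 : 0 < M := by positivity
      set C : ℝ := ‖ρ z⁻¹‖ + 1 with hC
      have hC0 : 0 < C := by positivity
      obtain ⟨N, hN⟩ := hε (τ / (2 * C * M)) (by positivity)
      refine ⟨N, fun n hn u hu hηu => ?_⟩
      have hφu : 0 < ‖φ u‖ := lt_of_lt_of_le (mul_pos hη (norm_pos_iff.2 hu)) hηu
      have hD : 0 < ‖φ u‖ * ‖a‖ ^ n := by positivity
      set w : E := u - φ u • v with hw
      have hφw : φ w = 0 := by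
        rw [hw, map_sub, map_smul, hφv, smul_eq_mul, mul_one, sub_self]
      have hwn : ‖w‖ ≤ ‖φ u‖ * M := by
        have h1 : ‖u‖ ≤ ‖φ u‖ * (1 / η) := by
          rw [mul_one_div, le_div_iff₀ hη, mul_comm]; exact hηu
        calc ‖w‖ ≤ ‖u‖ + ‖φ u • v‖ := norm_sub_le _ _
          _ = ‖u‖ + ‖φ u‖ * ‖v‖ := by rw [norm_smul]
          _ ≤ ‖φ u‖ * (1 / η) + ‖φ u‖ * ‖v‖ := by linarith
          _ = ‖φ u‖ * M := by rw [hM]; ring
      have hdecomp : ρ z⁻¹ (ρ (g ^ n) u) = (φ u * a ^ n) • ρ z⁻¹ v + ρ z⁻¹ (ρ (g ^ n) w) := by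
        have h1 : u = φ u • v + w := by rw [hw]; abel
        conv_lhs => rw [h1]
        rw [map_add, map_smul, hvn, map_add, map_smul, map_smul, smul_smul]
      have hrem : ‖ρ z⁻¹ (ρ (g ^ n) w)‖ ≤ (τ / 2) * (‖φ u‖ * ‖a‖ ^ n) := by
        calc ‖ρ z⁻¹ (ρ (g ^ n) w)‖ ≤ ‖ρ z⁻¹‖ * ‖ρ (g ^ n) w‖ := (ρ z⁻¹).le_opNorm _
          _ ≤ C * ‖ρ (g ^ n) w‖ := by gcongr; rw [hC]; linarith
          _ ≤ C * (τ / (2 * C * M) * ‖a‖ ^ n * ‖w‖) := by gcongr; exact hN n hn w hφw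
          _ ≤ C * (τ / (2 * C * M) * ‖a‖ ^ n * (‖φ u‖ * M)) := by gcongr
          _ = (τ / 2) * (‖φ u‖ * ‖a‖ ^ n) := by field_simp
      have hnorm1 : ‖(φ u * a ^ n) • ρ z⁻¹ v‖ = (‖φ u‖ * ‖a‖ ^ n) * ‖ρ z⁻¹ v‖ := by
        rw [norm_smul, norm_mul, norm_pow]
      have hdiff : |‖ρ z⁻¹ (ρ (g ^ n) u)‖ - (‖φ u‖ * ‖a‖ ^ n) * ‖ρ z⁻¹ v‖| ≤
          (τ / 2) * (‖φ u‖ * ‖a‖ ^ n) := by
        rw [← hnorm1, hdecomp]
        refine (abs_norm_sub_norm_le _ _).trans ?_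
        rw [add_sub_cancel_left]
        exact hrem
      set q : ℝ := ‖ρ z⁻¹ (ρ (g ^ n) u)‖ / (‖φ u‖ * ‖a‖ ^ n) with hq
      have hqd : |q - ‖ρ z⁻¹ v‖| < τ := by
        have h1 : q - ‖ρ z⁻¹ v‖ =
            (‖ρ z⁻¹ (ρ (g ^ n) u)‖ - (‖φ u‖ * ‖a‖ ^ n) * ‖ρ z⁻¹ v‖) / (‖φ u‖ * ‖a‖ ^ n) := by
          rw [hq]; field_simp
        rw [h1, abs_div, abs_of_pos hD, div_lt_iff₀ hD]
        refine lt_of_le_of_lt hdiff ?_
        have : 0 < τ * (‖φ u‖ * ‖a‖ ^ n) := by positivity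
        linarith
      obtain ⟨hq0, hqdist⟩ := hc q hqd
      rw [FF_smul]
      unfold FF
      have h2 : ‖ρ z⁻¹ (ρ (g ^ n) u)‖ = (‖φ u‖ * ‖a‖ ^ n) * q := by
        rw [hq]; field_simp
      rw [h2, HH_mul L hD.ne' hq0, circle_dist_mul_left]
      exact hqdist
    obtain ⟨N₁, hN₁⟩ := happ x
    obtain ⟨N₂, hN₂⟩ := happ y
    refine ⟨max N₁ N₂, fun n hn => ?_⟩
    have hclosed : IsClosed {f : G → Circle |
        dist (f ((g ^ n)⁻¹ • x) * F y) (f ((g ^ n)⁻¹ • y) * F x) ≤ ε} := by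
      refine isClosed_le ?_ continuous_const
      exact ((continuous_apply _).mul continuous_const).dist
        ((continuous_apply _).mul continuous_const)
    have hsub : Gen η ⊆ {f : G → Circle |
        dist (f ((g ^ n)⁻¹ • x) * F y) (f ((g ^ n)⁻¹ • y) * F x) ≤ ε} := by
      rintro f ⟨c, u, hu, hηu, rfl⟩
      have h1 := hN₁ n (le_trans (le_max_left _ _) hn) u hu hηu
      have h2 := hN₂ n (le_trans (le_max_right _ _) hn) u hu hηu
      show dist (c * FF L ρ u ((g ^ n)⁻¹ • x) * F y) (c * FF L ρ u ((g ^ n)⁻¹ • y) * F x) ≤ ε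
      rw [mul_assoc, mul_assoc, circle_dist_mul_left]
      set κ := HH L (‖φ u‖ * ‖a‖ ^ n) with hκ
      calc dist (FF L ρ u ((g ^ n)⁻¹ • x) * F y) (FF L ρ u ((g ^ n)⁻¹ • y) * F x)
          ≤ dist (FF L ρ u ((g ^ n)⁻¹ • x) * F y) (κ * F x * F y) +
            dist (κ * F x * F y) (FF L ρ u ((g ^ n)⁻¹ • y) * F x) := dist_triangle _ _ _
        _ = dist (FF L ρ u ((g ^ n)⁻¹ • x)) (κ * F x) +
            dist (κ * F y) (FF L ρ u ((g ^ n)⁻¹ • y)) := by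
          congr 1
          · rw [mul_comm _ (F y), mul_comm _ (F y), circle_dist_mul_left]
          · have : κ * F x * F y = F x * (κ * F y) := by
              rw [mul_comm κ, mul_assoc]
            rw [this, mul_comm _ (F x), circle_dist_mul_left]
        _ ≤ ε := by rw [dist_comm (κ * F y)]; linarith
    exact closure_minimal hsub hclosed hf'
  refine eigen (S := G) (1 : G) F g (Circle.exp 1) exp_one_order ?_ W₀ isClosed_closure ?_ ?_ ?_
  · intro x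
    show FF L ρ v (g⁻¹ • x) = _
    rw [FF_smul, hv]
    show HH L ‖ρ x⁻¹ (a • v)‖ = Circle.exp 1 * HH L ‖ρ x⁻¹ v‖
    rw [map_smul, norm_smul, HH_mul L ha0.ne' (norm_pos_iff.2 (rho_ne hv0 _)).ne',
      HH_self L hLdef.symm hL]
  · exact ⟨fun x => 1 * F x, subset_closure ⟨1, v, hv0, rfl⟩⟩
  · intro k f hf
    refine map_mem_closure (htrans k) hf ?_
    rintro _ ⟨c, u, hu, rfl⟩
    refine ⟨c, ρ k u, rho_ne hu k, ?_⟩
    funext x
    show c * FF L ρ u (k⁻¹ • x) = _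
    rw [FF_smul]
  · intro f hf
    -- choose `k`
    obtain ⟨k, η, hη, hfk⟩ : ∃ (k : G) (η : ℝ), 0 < η ∧
        (fun x => f (k⁻¹ • x)) ∈ closure (Gen η) := by
      have hcl : IsClosed (⋃ k ∈ I, (fun (f : G → Circle) (x : G) => f (k⁻¹ • x)) ⁻¹'
          closure (Gen (δ / (‖ρ k‖ + 1)))) :=
        I.finite_toSet.isClosed_biUnion (fun k _ => isClosed_closure.preimage (htrans k))
      have hsub : {f | ∃ (c : Circle) (u : E), u ≠ 0 ∧ f = fun x => c * FF L ρ u x} ⊆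
          (⋃ k ∈ I, (fun (f : G → Circle) (x : G) => f (k⁻¹ • x)) ⁻¹'
          closure (Gen (δ / (‖ρ k‖ + 1)))) := by
        rintro _ ⟨c, u, hu, rfl⟩
        obtain ⟨k, hkI, hku⟩ := hI u
        simp only [Set.mem_iUnion]
        refine ⟨k, hkI, subset_closure ⟨c, ρ k u, rho_ne hu k, ?_, ?_⟩⟩
        · have h1 : ‖ρ k u‖ ≤ (‖ρ k‖ + 1) * ‖u‖ :=
            ((ρ k).le_opNorm u).trans (by gcongr; linarith)
          rw [div_mul_eq_mul_div, div_le_iff₀ (by positivity)]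
          calc δ * ‖ρ k u‖ ≤ δ * ((‖ρ k‖ + 1) * ‖u‖) := by gcongr
            _ = (δ * ‖u‖) * (‖ρ k‖ + 1) := by ring
            _ ≤ ‖φ (ρ k u)‖ * (‖ρ k‖ + 1) := by gcongr
        · funext x
          show c * FF L ρ u (k⁻¹ • x) = _
          rw [FF_smul]
      have h2 := closure_minimal hsub hcl hf
      simp only [Set.mem_iUnion] at h2
      obtain ⟨k, _, hk2⟩ := h2
      exact ⟨k, _, by positivity, hk2⟩
    set f' : G → Circle := fun x => f (k⁻¹ • x) with hf'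
    let fs : ℕ → (G → Circle) := fun n x => f' ((g ^ n)⁻¹ • x)
    let 𝒰 : Ultrafilter ℕ := Filter.hyperfilter ℕ
    have hlim : Tendsto fs (𝒰 : Filter ℕ) (𝓝 (𝒰.map fs).lim) := Ultrafilter.le_nhds_lim _
    set fi := (𝒰.map fs).lim with hfi
    have hfi_mem : fi ∈ closure (Set.range (fun (k : G) (x : G) => f (k⁻¹ • x))) := by
      refine isClosed_closure.mem_of_tendsto hlim (Eventually.of_forall fun n => ?_)
      refine subset_closure ⟨g ^ n * k, ?_⟩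
      funext x
      show f ((g ^ n * k)⁻¹ • x) = f (k⁻¹ • (g ^ n)⁻¹ • x)
      rw [mul_inv_rev, mul_smul]
    have hpt : ∀ x, Tendsto (fun n => fs n x) (𝒰 : Filter ℕ) (𝓝 (fi x)) :=
      fun x => tendsto_pi_nhds.1 hlim x
    have heq : ∀ x y : G, fi x * F y = fi y * F x := by
      intro x y
      refine eq_of_dist_eq_zero (le_antisymm (le_of_forall_pos_le_add fun ε hε' => ?_)
        dist_nonneg)
      rw [zero_add]
      have h1 : Tendsto (fun n => dist (fs n x * F y) (fs n y * F x)) (𝒰 : Filter ℕ)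
          (𝓝 (dist (fi x * F y) (fi y * F x))) :=
        ((hpt x).mul tendsto_const_nhds).dist ((hpt y).mul tendsto_const_nhds)
      refine le_of_tendsto h1 ?_
      obtain ⟨N, hN⟩ := key η hη f' hfk x y ε hε'
      have h3 : ∀ᶠ n in atTop, dist (fs n x * F y) (fs n y * F x) ≤ ε :=
        eventually_atTop.2 ⟨N, hN⟩
      exact Nat.hyperfilter_le_atTop h3
    refine ⟨fi 1 * (F 1)⁻¹, ?_⟩
    convert hfi_mem using 1
    funext x
    have := heq x 1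
    rw [mul_right_comm, ← this, mul_inv_cancel_right]

end

end Pool.Agent.H60.SM
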