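import Mathlib
import Pool.Agent.H60.SM.Eigen
import Pool.Agent.H60.SM.Val

/-!
`SL_n` over fields with a nontrivial valuation, in particular over uncountable fields.
-/

set_option autoImplicit false
open Topology Pointwise Filter

namespace Pool.Agent.H60.SM

lemma exp_one_order'' (n : ℤ) (h : (Circle.exp 1) ^ n = 1) : n = 0 := by
  rw [← Circle.exp_zsmul] at h
  rw [Circle.exp_eq_one] at h
  obtain ⟨m, hm⟩ := h
  by_contra hn
  have hm0 : m ≠ 0 := by
    rintro rfl
    simp at hm
    exact hn (by exact_mod_cast hm)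
  have h1 : Real.pi = ((n : ℚ) / (2 * m) : ℚ) := by
    push_cast
    have h2 : (m : ℝ) ≠ 0 := by exact_mod_cast hm0
    field_simp
    simp at hm
    linarith
  exact irrational_pi ⟨_, h1.symm⟩

section

variable {K Γ₀ : Type} [Field K] [LinearOrderedCommGroupWithZero Γ₀] (v : Valuation K Γ₀) {n : ℕ}

/-- the sup norm of a vector -/
noncomputable def NN (u : Fin (n + 2) → K) : Γ₀ :=
  Finset.univ.sup' Finset.univ_nonempty (fun i => v (u i))

lemma le_NN (u : Fin (n + 2) → K) (i : Fin (n + 2)) : v (u i) ≤ NN v u :=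
  Finset.le_sup' (fun i => v (u i)) (Finset.mem_univ i)

lemma NN_le {u : Fin (n + 2) → K} {c : Γ₀} (h : ∀ i, v (u i) ≤ c) : NN v u ≤ c :=
  Finset.sup'_le _ _ (fun i _ => h i)

lemma NN_eq (u : Fin (n + 2) → K) : ∃ i, NN v u = v (u i) := by
  obtain ⟨i, _, hi⟩ := Finset.exists_mem_eq_sup' (Finset.univ_nonempty) (fun i => v (u i))
  exact ⟨i, hi⟩

lemma NN_ne {u : Fin (n + 2) → K} (hu : u ≠ 0) : NN v u ≠ 0 := by
  intro h
  apply hu
  funext i
  have h1 := le_NN v u i
  rw [h, le_zero_iff] at h1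
  exact (map_eq_zero v).1 h1

lemma NN_smul (c : K) (u : Fin (n + 2) → K) : NN v (c • u) = v c * NN v u := by
  apply le_antisymm
  · apply NN_le
    intro i
    rw [Pi.smul_apply, smul_eq_mul, map_mul]
    exact mul_le_mul_right (le_NN v u i) _
  · obtain ⟨i, hi⟩ := NN_eq v u
    rw [hi, ← map_mul]
    exact le_NN v (c • u) i

lemma NN_add (u w : Fin (n + 2) → K) : NN v (u + w) ≤ max (NN v u) (NN v w) := by
  apply NN_le
  intro i
  exact (v.map_add _ _).trans (max_le_max (le_NN v u i) (le_NN v w i))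

lemma NN_add_eq {u w : Fin (n + 2) → K} (h : NN v w < NN v u) : NN v (u + w) = NN v u := by
  apply le_antisymm
  · exact (NN_add v u w).trans (max_le le_rfl h.le)
  · obtain ⟨i, hi⟩ := NN_eq v u
    have h1 : v (w i) < v (u i) := lt_of_le_of_lt (le_NN v w i) (by rwa [← hi])
    rw [hi, ← v.map_add_eq_of_lt_left h1]
    exact le_NN v (u + w) i

/-- bound for a matrix -/
lemma NN_mulVec (M : Matrix (Fin (n + 2)) (Fin (n + 2)) K) :
    ∃ c : Γ₀, 0 < c ∧ ∀ u, NN v (M.mulVec u) ≤ c * NN v u := by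
  classical
  let c : Γ₀ := max 1 (Finset.univ.sup' Finset.univ_nonempty
    (fun p : Fin (n + 2) × Fin (n + 2) => v (M p.1 p.2)))
  refine ⟨c, lt_of_lt_of_le zero_lt_one (le_max_left _ _), fun u => ?_⟩
  apply NN_le
  intro i
  show v (∑ j, M i j * u j) ≤ _
  apply v.map_sum_le
  intro j _
  rw [map_mul]
  refine mul_le_mul' ?_ (le_NN v u j)
  exact (Finset.le_sup' (fun p : Fin (n + 2) × Fin (n + 2) => v (M p.1 p.2))
    (Finset.mem_univ (i, j))).trans (le_max_right _ _)

end

/-- **`SL_n` over a valued field.** -/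
theorem slv (G K Γ₀ : Type) [Group G] [Field K] [LinearOrderedCommGroupWithZero Γ₀]
    (v : Valuation K Γ₀) (hv : Function.Surjective v) (a : K) (ha : 1 < v a) (n : ℕ)
    (π : G →* Matrix.SpecialLinearGroup (Fin (n + 2)) K) (hπ : Function.Surjective π) :
    HasSyndeticSubmeasure G := by
  classical
  -- the character
  have hva0 : v a ≠ 0 := (lt_trans zero_lt_one ha).ne'
  have ha0 : a ≠ 0 := (Valuation.ne_zero_iff v).1 hva0
  obtain ⟨f₀, hf₀⟩ := real_char (Additive Γ₀ˣ) (Additive.ofMul (Units.mk0 (v a) hva0)) (by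
    intro m hm
    have h1 : (Units.mk0 (v a) hva0) ^ m = 1 := by
      rw [← ofMul_zpow] at hm
      exact Additive.ofMul.injective hm
    have h2 : (v a) ^ m = 1 := by
      have := congrArg (fun u : Γ₀ˣ => (u : Γ₀)) h1
      simpa using this
    exact zpow_right_injective₀ (lt_trans zero_lt_one ha) ha.ne' (by simpa using h2))
  let X : Γ₀ → Circle := fun γ => if h : γ = 0 then 1 else
    Circle.exp (f₀ (Additive.ofMul (Units.mk0 γ h)))
  have hXmul : ∀ γ δ : Γ₀, γ ≠ 0 → δ ≠ 0 → X (γ * δ) = X γ * X δ := by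
    intro γ δ hγ hδ
    have h1 : γ * δ ≠ 0 := mul_ne_zero hγ hδ
    simp only [X, dif_neg hγ, dif_neg hδ, dif_neg h1]
    rw [← Circle.exp_add, ← map_add]
    congr 2
    rw [← ofMul_mul]
    congr 1
    ext
    simp
  have hXa : X (v a) = Circle.exp 1 := by
    simp only [X, dif_neg hva0]
    rw [hf₀]
  -- the action on vectors
  let ρ : G → (Fin (n + 2) → K) → (Fin (n + 2) → K) := fun x u =>
    ((π x : Matrix.SpecialLinearGroup (Fin (n + 2)) K) :
      Matrix (Fin (n + 2)) (Fin (n + 2)) K).mulVec u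
  have hρmul : ∀ x y u, ρ (x * y) u = ρ x (ρ y u) := by
    intro x y u
    simp only [ρ, map_mul, Matrix.SpecialLinearGroup.coe_mul, Matrix.mulVec_mulVec]
  have hρone : ∀ u, ρ 1 u = u := by
    intro u
    simp only [ρ, map_one, Matrix.SpecialLinearGroup.coe_one, Matrix.one_mulVec]
  have hρsmul : ∀ x (c : K) u, ρ x (c • u) = c • ρ x u := fun x c u => Matrix.mulVec_smul _ _ _
  have hρadd : ∀ x u w, ρ x (u + w) = ρ x u + ρ x w := fun x u w => Matrix.mulVec_add _ _ _
  have hρne : ∀ x u, u ≠ 0 → ρ x u ≠ 0 := by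
    intro x u hu h
    apply hu
    have h1 : ρ x⁻¹ (ρ x u) = u := by rw [← hρmul, inv_mul_cancel, hρone]
    rw [← h1, h]
    exact Matrix.mulVec_zero _
  let FF' : (Fin (n + 2) → K) → G → Circle := fun u x => X (NN v (ρ x⁻¹ u))
  have hFs : ∀ u (k x : G), FF' u (k⁻¹ • x) = FF' (ρ k u) x := by
    intro u k x
    show X (NN v (ρ (k⁻¹ • x)⁻¹ u)) = X (NN v (ρ x⁻¹ (ρ k u)))
    rw [← hρmul, smul_eq_mul, mul_inv_rev, inv_inv]
  have hFc : ∀ (c : K) u (x : G), c ≠ 0 → u ≠ 0 → FF' (c • u) x = X (v c) * FF' u x := by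
    intro c u x hc hu
    show X (NN v (ρ x⁻¹ (c • u))) = _
    rw [hρsmul, NN_smul, hXmul _ _ ((Valuation.ne_zero_iff v).2 hc) (NN_ne v (hρne _ _ hu))]
  let e : Fin (n + 2) → K := Pi.single 0 1
  have he : e ≠ 0 := by
    intro h
    have := congrFun h 0
    simp [e] at this
  have he0 : e 0 = 1 := by simp [e]
  let F : G → Circle := FF' e
  -- diagonal elements
  have hdiag : ∀ b : K, b ≠ 0 → ∃ g : G, ∀ (u : Fin (n + 2) → K) (i : Fin (n + 2)),
      ρ g u i = (if i = 0 then b else if i = 1 then b⁻¹ else 1) * u i := by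
    intro b hb
    let d : Fin (n + 2) → K := fun i => if i = 0 then b else if i = 1 then b⁻¹ else 1
    have hd : (Matrix.diagonal d).det = 1 := by
      rw [Matrix.det_diagonal, Fin.prod_univ_succ, Fin.prod_univ_succ]
      have h1 : ∀ i : Fin n, d i.succ.succ = 1 := by
        intro i
        have h2 : i.succ.succ ≠ (0 : Fin (n + 2)) := Fin.succ_ne_zero _
        have h3 : i.succ.succ ≠ (1 : Fin (n + 2)) := by
          intro h
          have := congrArg Fin.val h
          simp at this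
        simp only [d, h2, h3, if_false]
      have h4 : d (Fin.succ 0) = b⁻¹ := by
        show (if (Fin.succ 0 : Fin (n + 2)) = 0 then b else
          if (Fin.succ 0 : Fin (n + 2)) = 1 then b⁻¹ else 1) = b⁻¹
        rw [if_neg (Fin.succ_ne_zero _), if_pos (by rfl)]
      have h5 : d 0 = b := by simp [d]
      rw [h5, h4]
      simp only [h1, Finset.prod_const_one, mul_one]
      exact mul_inv_cancel₀ hb
    obtain ⟨g, hg⟩ := hπ ⟨Matrix.diagonal d, hd⟩
    refine ⟨g, fun u i => ?_⟩
    simp only [ρ, hg]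
    rw [Matrix.mulVec_diagonal]
  choose! D hD using hdiag
  have hDe : ∀ b : K, b ≠ 0 → ρ (D b) e = b • e := by
    intro b hb
    funext i
    rw [hD b hb]
    by_cases hi : i = 0
    · subst hi; simp [e]
    · simp [e, hi]
  -- transvections
  have htr : ∀ j : Fin (n + 2), j ≠ 0 → ∃ k : G, ∀ (w : Fin (n + 2) → K),
      ρ k w = w + (w j) • e := by
    intro j hj
    obtain ⟨k, hk⟩ := hπ ⟨Matrix.transvection 0 j 1, Matrix.det_transvection_of_ne 0 j hj.symm 1⟩
    refine ⟨k, fun w => ?_⟩
    simp only [ρ, hk]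
    unfold Matrix.transvection
    rw [Matrix.add_mulVec, Matrix.one_mulVec]
    congr 1
    rw [Matrix.single_mulVec]
    funext i
    by_cases hi : i = 0
    · subst hi; simp [e]
    · simp [e, hi]
  choose! T hT using htr
  let Gen : Set (G → Circle) :=
    {f | ∃ (c : Circle) (u : Fin (n + 2) → K), u ≠ 0 ∧ NN v u ≤ v (u 0) ∧
      f = fun x => c * FF' u x}
  let W₀ : Set (G → Circle) :=
    closure {f | ∃ (c : Circle) (u : Fin (n + 2) → K), u ≠ 0 ∧ f = fun x => c * FF' u x}
  have htrans : ∀ k : G, Continuous (fun (f : G → Circle) (x : G) => f (k⁻¹ • x)) :=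
    fun k => continuous_pi (fun x => continuous_apply (k⁻¹ • x))
  -- main estimate
  have key : ∀ x : G, ∃ R : Γ₀, ∀ b : K, R ≤ v b → b ≠ 0 ∧ ∀ u : Fin (n + 2) → K, u ≠ 0 →
      NN v u ≤ v (u 0) → FF' u ((D b)⁻¹ • x) = X (v (b * u 0)) * F x := by
    intro x
    obtain ⟨c, hc, hcu⟩ := NN_mulVec v ((π x⁻¹ : Matrix.SpecialLinearGroup (Fin (n + 2)) K) :
      Matrix (Fin (n + 2)) (Fin (n + 2)) K)
    set q : Γ₀ := NN v (ρ x⁻¹ e) with hq
    have hq0 : q ≠ 0 := NN_ne v (hρne _ _ he)
    have hqpos : 0 < q := zero_lt_iff.2 hq0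
    refine ⟨v a * max 1 (c * q⁻¹), fun b hb => ?_⟩
    have hm1 : (1 : Γ₀) ≤ max 1 (c * q⁻¹) := le_max_left _ _
    have hmpos : (0 : Γ₀) < max 1 (c * q⁻¹) := lt_of_lt_of_le zero_lt_one hm1
    have hlt : max 1 (c * q⁻¹) < v b := by
      refine lt_of_lt_of_le ?_ hb
      calc max 1 (c * q⁻¹) = 1 * max 1 (c * q⁻¹) := (one_mul _).symm
        _ < v a * max 1 (c * q⁻¹) := mul_lt_mul_of_pos_right ha hmpos
    have hb1 : 1 < v b := lt_of_le_of_lt hm1 hlt
    have hb0 : b ≠ 0 := (Valuation.ne_zero_iff v).1 (lt_trans zero_lt_one hb1).ne'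
    refine ⟨hb0, fun u hu huN => ?_⟩
    have hNu0 : NN v u ≠ 0 := NN_ne v hu
    have hu0v : v (u 0) ≠ 0 := by
      intro h
      rw [h, le_zero_iff] at huN
      exact hNu0 huN
    have hu0 : u 0 ≠ 0 := (Valuation.ne_zero_iff v).1 hu0v
    have hbu : b * u 0 ≠ 0 := mul_ne_zero hb0 hu0
    set r : Fin (n + 2) → K := (b * u 0)⁻¹ • ρ (D b) u - e with hr
    have hru : ρ (D b) u = (b * u 0) • (e + r) := by
      rw [hr, add_sub_cancel, smul_inv_smul₀ hbu]
    have hrN : NN v r ≤ (v b)⁻¹ := by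
      apply NN_le
      intro i
      rw [hr, Pi.sub_apply, Pi.smul_apply, smul_eq_mul, hD b hb0]
      by_cases hi : i = 0
      · subst hi
        simp only [if_true, he0]
        rw [inv_mul_cancel₀ hbu, sub_self, map_zero]
        exact zero_le
      · have hei : e i = 0 := by simp [e, hi]
        rw [hei, sub_zero, if_neg hi, map_mul, map_inv₀, map_mul, map_mul]
        have h1 : v (if i = 1 then b⁻¹ else 1) ≤ 1 := by
          split_ifs
          · rw [map_inv₀]
            exact inv_le_one_of_one_le₀ hb1.le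
          · rw [map_one]
        have h2 : v (u i) ≤ v (u 0) := (le_NN v u i).trans huN
        calc (v b * v (u 0))⁻¹ * (v (if i = 1 then b⁻¹ else 1) * v (u i))
            ≤ (v b * v (u 0))⁻¹ * (1 * v (u 0)) :=
              mul_le_mul' le_rfl (mul_le_mul' h1 h2)
          _ = (v b)⁻¹ := by
            rw [one_mul, mul_inv, mul_assoc, inv_mul_cancel₀ hu0v, mul_one]
    have hsmall : NN v (ρ x⁻¹ r) < NN v (ρ x⁻¹ e) := by
      have h1 : NN v (ρ x⁻¹ r) ≤ c * (v b)⁻¹ := (hcu r).trans (mul_le_mul' le_rfl hrN)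
      refine lt_of_le_of_lt h1 ?_
      rw [← hq]
      have h2 : c * q⁻¹ < v b := lt_of_le_of_lt (le_max_right _ _) hlt
      rw [← div_eq_mul_inv, div_lt_iff₀ hqpos] at h2
      rw [← div_eq_mul_inv, div_lt_iff₀ (lt_trans zero_lt_one hb1), mul_comm q]
      exact h2
    rw [hFs, hru, hFc _ _ _ hbu]
    · show X (v (b * u 0)) * X (NN v (ρ x⁻¹ (e + r))) = X (v (b * u 0)) * X (NN v (ρ x⁻¹ e))
      rw [hρadd, NN_add_eq v hsmall]
    · intro h
      rw [h, smul_zero] at hru
      exact hρne _ _ hu hru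
  refine eigen (S := G) (1 : G) F (D a) (Circle.exp 1) exp_one_order'' ?_ W₀ isClosed_closure
    ⟨fun x => 1 * F x, subset_closure ⟨1, e, he, rfl⟩⟩ ?_ ?_
  · intro x
    show FF' e ((D a)⁻¹ • x) = Circle.exp 1 * FF' e x
    rw [hFs, hDe a ha0, hFc _ _ _ ha0 he, hXa]
  · intro k f hf
    refine map_mem_closure (htrans k) hf ?_
    rintro _ ⟨c, u, hu, rfl⟩
    refine ⟨c, ρ k u, hρne k u hu, ?_⟩
    funext x
    show c * FF' u (k⁻¹ • x) = _
    rw [hFs]
  · intro f hf
    obtain ⟨k, hfk⟩ : ∃ (k : G), (fun x => f (k⁻¹ • x)) ∈ closure Gen := by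
      let I : Finset G := insert 1 (Finset.univ.image T)
      have hcl : IsClosed (⋃ k ∈ I, (fun (f : G → Circle) (x : G) => f (k⁻¹ • x)) ⁻¹'
          closure Gen) :=
        I.finite_toSet.isClosed_biUnion (fun k _ => isClosed_closure.preimage (htrans k))
      have hsub : {f | ∃ (c : Circle) (u : Fin (n + 2) → K), u ≠ 0 ∧
          f = fun x => c * FF' u x} ⊆
          (⋃ k ∈ I, (fun (f : G → Circle) (x : G) => f (k⁻¹ • x)) ⁻¹' closure Gen) := by
        rintro _ ⟨c, u, hu, rfl⟩
        simp only [Set.mem_iUnion]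
        by_cases hc : NN v u ≤ v (u 0)
        · refine ⟨1, Finset.mem_insert_self _ _, subset_closure ⟨c, u, hu, hc, ?_⟩⟩
          funext x
          simp
        · push Not at hc
          obtain ⟨j, hj⟩ := NN_eq v u
          have hj0 : j ≠ 0 := by
            rintro rfl
            rw [hj] at hc
            exact lt_irrefl _ hc
          refine ⟨T j, Finset.mem_insert_of_mem (Finset.mem_image_of_mem _ (Finset.mem_univ _)),
            subset_closure ⟨c, ρ (T j) u, hρne _ u hu, ?_, ?_⟩⟩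
          · rw [hT j hj0]
            have h1 : v ((u + (u j) • e) 0) = v (u j) := by
              rw [Pi.add_apply, Pi.smul_apply, he0, smul_eq_mul, mul_one]
              rw [hj] at hc
              exact v.map_add_eq_of_lt_right hc
            rw [h1]
            refine (NN_add v _ _).trans (max_le hj.le ?_)
            rw [NN_smul]
            have h2 : NN v e ≤ 1 := by
              apply NN_le
              intro i
              by_cases hi : i = 0
              · subst hi; rw [he0, map_one]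
              · have : e i = 0 := by simp [e, hi]
                rw [this, map_zero]; exact zero_le
            calc v (u j) * NN v e ≤ v (u j) * 1 := mul_le_mul' le_rfl h2
              _ = v (u j) := mul_one _
          · funext x
            show c * FF' u ((T j)⁻¹ • x) = _
            rw [hFs]
      have h2 := closure_minimal hsub hcl hf
      simp only [Set.mem_iUnion] at h2
      obtain ⟨k, _, hk2⟩ := h2
      exact ⟨k, hk2⟩
    set f' : G → Circle := fun x => f (k⁻¹ • x) with hf'
    let fs : K → (G → Circle) := fun b x => f' ((D b)⁻¹ • x)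
    haveI : (comap (fun b : K => v b) atTop).NeBot := NeBot.comap_of_surj inferInstance hv
    let 𝒰 : Ultrafilter K := Ultrafilter.of (comap (fun b : K => v b) atTop)
    have h𝒰 : (𝒰 : Filter K) ≤ comap (fun b : K => v b) atTop := Ultrafilter.of_le _
    have hlim : Tendsto fs (𝒰 : Filter K) (𝓝 (𝒰.map fs).lim) := Ultrafilter.le_nhds_lim _
    set fi := (𝒰.map fs).lim with hfi
    have hfi_mem : fi ∈ closure (Set.range (fun (k : G) (x : G) => f (k⁻¹ • x))) := by
      refine isClosed_closure.mem_of_tendsto hlim (Eventually.of_forall fun b => ?_)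
      refine subset_closure ⟨D b * k, ?_⟩
      funext x
      show f ((D b * k)⁻¹ • x) = f (k⁻¹ • (D b)⁻¹ • x)
      rw [mul_inv_rev, mul_smul]
    have hpt : ∀ x, Tendsto (fun b => fs b x) (𝒰 : Filter K) (𝓝 (fi x)) :=
      fun x => tendsto_pi_nhds.1 hlim x
    have heq : ∀ x y : G, fi x * F y = fi y * F x := by
      intro x y
      obtain ⟨R₁, hR₁⟩ := key x
      obtain ⟨R₂, hR₂⟩ := key y
      have h3 : ∀ᶠ b in comap (fun b : K => v b) atTop, fs b x * F y = fs b y * F x := by
        have h4 : ∀ᶠ γ in (atTop : Filter Γ₀), max R₁ R₂ ≤ γ := eventually_ge_atTop _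
        have h5 := (h4.comap (fun b : K => v b))
        filter_upwards [h5] with b hb
        obtain ⟨_, hx⟩ := hR₁ b ((le_max_left _ _).trans hb)
        obtain ⟨_, hy⟩ := hR₂ b ((le_max_right _ _).trans hb)
        have hcl : IsClosed {h : G → Circle |
            h ((D b)⁻¹ • x) * F y = h ((D b)⁻¹ • y) * F x} :=
          isClosed_eq ((continuous_apply _).mul continuous_const)
            ((continuous_apply _).mul continuous_const)
        refine closure_minimal ?_ hcl hfk
        rintro _ ⟨c, u, hu, huN, rfl⟩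
        show c * FF' u ((D b)⁻¹ • x) * F y = c * FF' u ((D b)⁻¹ • y) * F x
        rw [hx u hu huN, hy u hu huN]
        simp only [mul_assoc]
        rw [mul_comm (F x) (F y)]
      refine tendsto_nhds_unique_of_eventuallyEq ((hpt x).mul tendsto_const_nhds)
        ((hpt y).mul tendsto_const_nhds) (h𝒰 h3)
    refine ⟨fi 1 * (F 1)⁻¹, ?_⟩
    convert hfi_mem using 1
    funext x
    have := heq x 1
    rw [mul_right_comm, ← this, mul_inv_cancel_right]

/-- **`SL_n` over uncountable fields.** -/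
theorem sl_uncountable (G K : Type) [Group G] [Field K] [Uncountable K] (n : ℕ)
    (π : G →* Matrix.SpecialLinearGroup (Fin (n + 2)) K) (hπ : Function.Surjective π) :
    HasSyndeticSubmeasure G := by
  obtain ⟨B, x, hx, hvx⟩ := exists_val K
  refine slv G K B.ValueGroup B.valuation B.valuation_surjective x⁻¹ ?_ n π hπ
  rw [map_inv₀]
  exact (one_lt_inv₀ (zero_lt_iff.2 ((Valuation.ne_zero_iff _).2 hx))).2 hvx

end Pool.Agent.H60.SM
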