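import Mathlib
import Pool.Agent.H60.SM.SLv

/-!
Quotients by finite normal subgroups, pullbacks; `PSL_n` over uncountable fields.
-/

set_option autoImplicit false
open Topology Pointwise Filter

namespace Pool.Agent.H60.SM

theorem of_surjective (H Q : Type) [Group H] [Group Q] (π : H →* Q)
    (hπ : Function.Surjective π) (hQ : HasSyndeticSubmeasure Q) : HasSyndeticSubmeasure H := by
  classical
  obtain ⟨μ, hrange, h0, h1, hmono, hsub, hinv, hsyn⟩ := hQ
  refine ⟨fun A => μ (π '' A), fun A => hrange _, ?_, ?_, ?_, ?_, ?_, ?_⟩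
  · show μ (π '' ∅) = 0
    rw [Set.image_empty, h0]
  · show μ (π '' Set.univ) = 1
    rw [Set.image_univ, hπ.range_eq, h1]
  · intro A B hAB
    exact hmono _ _ (Set.image_mono hAB)
  · intro A B
    show μ (π '' (A ∪ B)) ≤ _
    rw [Set.image_union]
    exact hsub _ _
  · intro x A
    show μ (π '' ((fun y => x * y) '' A)) = μ (π '' A)
    rw [← hinv (π x) (π '' A)]
    congr 1
    rw [Set.image_image, Set.image_image]
    simp only [map_mul]
  · intro A hA ε hε
    obtain ⟨B, hB, hBε, F, hF⟩ := hsyn (π '' A) hA ε hε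
    obtain ⟨s, hs⟩ := hπ.hasRightInverse
    refine ⟨π ⁻¹' B, ?_, ?_, F.image s, ?_⟩
    · intro b hb hbA
      exact hB hb ⟨b, hbA, rfl⟩
    · show μ (π '' (π ⁻¹' B)) < ε
      rw [Set.image_preimage_eq _ hπ]
      exact hBε
    · intro g
      obtain ⟨f, hf, b, hb, hfb⟩ := hF (π g)
      refine ⟨s f, Finset.mem_image_of_mem _ hf, (s f)⁻¹ * g, ?_, by group⟩
      show π ((s f)⁻¹ * g) ∈ B
      rw [map_mul, map_inv, hs f, hfb, inv_mul_cancel_left]
      exact hb

theorem of_finite_ker (Γ Q : Type) [Group Γ] [Group Q] (π : Γ →* Q)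
    (hπ : Function.Surjective π) [Finite π.ker] (hΓ : HasSyndeticSubmeasure Γ) :
    HasSyndeticSubmeasure Q := by
  classical
  obtain ⟨μ, hrange, h0, h1, hmono, hsub, hinv, hsyn⟩ := hΓ
  haveI : Fintype π.ker := Fintype.ofFinite _
  set k : ℝ := (Fintype.card π.ker : ℝ) with hk
  have hk0 : 0 < k := by
    rw [hk]
    exact_mod_cast Fintype.card_pos
  refine ⟨fun A => μ (π ⁻¹' A), fun A => hrange _, ?_, ?_, ?_, ?_, ?_, ?_⟩
  · show μ (π ⁻¹' ∅) = 0
    rw [Set.preimage_empty, h0]
  · show μ (π ⁻¹' Set.univ) = 1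
    rw [Set.preimage_univ, h1]
  · intro A B hAB
    exact hmono _ _ (Set.preimage_mono hAB)
  · intro A B
    show μ (π ⁻¹' (A ∪ B)) ≤ _
    rw [Set.preimage_union]
    exact hsub _ _
  · intro x A
    show μ (π ⁻¹' ((fun y => x * y) '' A)) = μ (π ⁻¹' A)
    obtain ⟨x', hx'⟩ := hπ x
    rw [← hinv x' (π ⁻¹' A)]
    congr 1
    ext g
    constructor
    · rintro ⟨a, ha, hag⟩
      refine ⟨x'⁻¹ * g, ?_, mul_inv_cancel_left x' g⟩
      show π (x'⁻¹ * g) ∈ A
      have h2 : x * a = π g := hag
      rw [map_mul, map_inv, hx', ← h2, inv_mul_cancel_left]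
      exact ha
    · rintro ⟨b, hb, rfl⟩
      exact ⟨π b, hb, by simp [hx']⟩
  · intro A hA ε hε
    obtain ⟨B, hB, hBε, F, hF⟩ := hsyn (π ⁻¹' A) hA (ε / k) (div_pos hε hk0)
    refine ⟨π '' B, ?_, ?_, F.image π, ?_⟩
    · rintro _ ⟨b, hb, rfl⟩ hbA
      exact hB hb hbA
    · have hfin : ∀ s : Finset π.ker,
          μ (⋃ z ∈ s, (fun y => (z : Γ) * y) '' B) ≤ s.card * μ B := by
        intro s
        induction s using Finset.induction_on with
        | empty => simp [h0]
        | insert z s hz ih =>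
          rw [Finset.set_biUnion_insert, Finset.card_insert_of_notMem hz]
          refine (hsub _ _).trans ?_
          rw [hinv]
          push_cast
          linarith
      have hsubset : π ⁻¹' (π '' B) ⊆ ⋃ z ∈ (Finset.univ : Finset π.ker),
          (fun y => (z : Γ) * y) '' B := by
        rintro g ⟨b, hb, hbg⟩
        simp only [Set.mem_iUnion]
        refine ⟨⟨g * b⁻¹, ?_⟩, Finset.mem_univ _, b, hb, by simp⟩
        rw [MonoidHom.mem_ker, map_mul, map_inv, hbg, mul_inv_cancel]
      show μ (π ⁻¹' (π '' B)) < ε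
      calc μ (π ⁻¹' (π '' B)) ≤ _ := hmono _ _ hsubset
        _ ≤ _ := hfin Finset.univ
        _ = k * μ B := by rw [Finset.card_univ, hk]
        _ < k * (ε / k) := by gcongr
        _ = ε := by field_simp
    · intro q
      obtain ⟨g, rfl⟩ := hπ q
      obtain ⟨f, hf, b, hb, rfl⟩ := hF g
      exact ⟨π f, Finset.mem_image_of_mem _ hf, π b, ⟨b, hb, rfl⟩, map_mul _ _ _⟩

/-- **`PSL_n` over uncountable fields.** -/
theorem psl_uncountable (G K : Type) [Group G] [Field K] [Uncountable K] (n : ℕ)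
    (π : G →* Matrix.ProjectiveSpecialLinearGroup (Fin (n + 2)) K)
    (hπ : Function.Surjective π) : HasSyndeticSubmeasure G := by
  classical
  have h1 : HasSyndeticSubmeasure (Matrix.SpecialLinearGroup (Fin (n + 2)) K) :=
    sl_uncountable _ K n (MonoidHom.id _) Function.surjective_id
  let q : Matrix.SpecialLinearGroup (Fin (n + 2)) K →*
      Matrix.ProjectiveSpecialLinearGroup (Fin (n + 2)) K := QuotientGroup.mk' _
  have hq : Function.Surjective q := QuotientGroup.mk'_surjective _
  haveI : NeZero (n + 2) := ⟨by omega⟩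
  haveI : Finite (rootsOfUnity (n + 2) K) := inferInstance
  haveI : Finite (Subgroup.center (Matrix.SpecialLinearGroup (Fin (n + 2)) K)) := by
    have e := Matrix.SpecialLinearGroup.center_equiv_rootsOfUnity' (n := Fin (n + 2)) (R := K) 0
    rw [Fintype.card_fin] at e
    exact Finite.of_equiv _ e.symm.toEquiv
  haveI : Finite q.ker := by
    have : q.ker = Subgroup.center (Matrix.SpecialLinearGroup (Fin (n + 2)) K) :=
      QuotientGroup.ker_mk' _
    rw [this]
    infer_instance
  exact of_surjective G _ π hπ (of_finite_ker _ _ q hq h1)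

end Pool.Agent.H60.SM
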