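import Mathlib
import Pool.Agent.H60.SM.Linear

/-!
`SL_n` over normed fields.
-/

set_option autoImplicit false
open Topology Pointwise Filter

namespace Pool.Agent.H60.SM

/-- the standard representation of `SL_n(K)` on `K^n` by bounded operators -/
noncomputable def slRep (n : ℕ) (K : Type) [NontriviallyNormedField K] :
    Matrix.SpecialLinearGroup (Fin n) K →* ((Fin n → K) →L[K] (Fin n → K)) where
  toFun x := ⟨Matrix.mulVecLin (x : Matrix (Fin n) (Fin n) K), LinearMap.continuous_on_pi _⟩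
  map_one' := by
    ext w i
    show ((1 : Matrix (Fin n) (Fin n) K).mulVec _) i = _
    rw [Matrix.one_mulVec]
    rfl
  map_mul' x y := by
    refine ContinuousLinearMap.ext fun w => ?_
    show ((x : Matrix (Fin n) (Fin n) K) * (y : Matrix (Fin n) (Fin n) K)).mulVec w =
      (x : Matrix (Fin n) (Fin n) K).mulVec ((y : Matrix (Fin n) (Fin n) K).mulVec w)
    rw [Matrix.mulVec_mulVec]

lemma slRep_apply (n : ℕ) (K : Type) [NontriviallyNormedField K]
    (x : Matrix.SpecialLinearGroup (Fin n) K) (w : Fin n → K) :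
    slRep n K x w = (x : Matrix (Fin n) (Fin n) K).mulVec w := rfl

theorem sl (G K : Type) [Group G] [NontriviallyNormedField K] (n : ℕ)
    (π : G →* Matrix.SpecialLinearGroup (Fin (n + 2)) K) (hπ : Function.Surjective π) :
    HasSyndeticSubmeasure G := by
  classical
  obtain ⟨a, ha⟩ := NormedField.exists_one_lt_norm K
  have ha0 : a ≠ 0 := norm_pos_iff.1 (lt_trans zero_lt_one ha)
  let d : Fin (n + 2) → K := fun i => if i = 0 then a else if i = 1 then a⁻¹ else 1
  have hd : (Matrix.diagonal d).det = 1 := by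
    rw [Matrix.det_diagonal, Fin.prod_univ_succ, Fin.prod_univ_succ]
    have h1 : ∀ i : Fin n, d i.succ.succ = 1 := by
      intro i
      have h2 : i.succ.succ ≠ (0 : Fin (n + 2)) := Fin.succ_ne_zero _
      have h3 : i.succ.succ ≠ (1 : Fin (n + 2)) := by
        intro h
        have := congrArg Fin.val h
        simp at this
      simp only [d, h2, h3, if_false]
    have h4 : d (Fin.succ 0) = a⁻¹ := by
      show (if (Fin.succ 0 : Fin (n + 2)) = 0 then a else
        if (Fin.succ 0 : Fin (n + 2)) = 1 then a⁻¹ else 1) = a⁻¹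
      rw [if_neg (Fin.succ_ne_zero _), if_pos (by rfl)]
    have h5 : d 0 = a := by simp [d]
    rw [h5, h4]
    simp only [h1, Finset.prod_const_one, mul_one]
    exact mul_inv_cancel₀ ha0
  let γ : Matrix.SpecialLinearGroup (Fin (n + 2)) K := ⟨Matrix.diagonal d, hd⟩
  obtain ⟨g, hg⟩ := hπ γ
  let E := Fin (n + 2) → K
  let v : Fin (n + 2) → K := Pi.single 0 1
  let φ : (Fin (n + 2) → K) →L[K] K := ContinuousLinearMap.proj 0
  have hγpow : ∀ (m : ℕ) (w : Fin (n + 2) → K) (i : Fin (n + 2)),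
      ((slRep (n + 2) K).comp π (g ^ m)) w i = d i ^ m * w i := by
    intro m w i
    rw [MonoidHom.comp_apply, map_pow, hg, slRep_apply]
    have : ((γ ^ m : Matrix.SpecialLinearGroup (Fin (n + 2)) K) :
        Matrix (Fin (n + 2)) (Fin (n + 2)) K) = Matrix.diagonal (d ^ m) := by
      rw [Matrix.SpecialLinearGroup.coe_pow]
      show (Matrix.diagonal d) ^ m = _
      rw [Matrix.diagonal_pow]
    rw [this, Matrix.mulVec_diagonal]
    rfl
  refine linear ((slRep (n + 2) K).comp π) g v φ a ha ?_ ?_ ?_ ?_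
  · funext i
    have := hγpow 1 v i
    rw [pow_one, pow_one] at this
    rw [this]
    by_cases hi : i = 0
    · subst hi; simp [v, d]
    · simp [v, hi]
  · show v 0 = 1
    simp [v]
  · intro ε hε
    -- `‖a‖⁻ᵐ → 0`
    obtain ⟨N, hN⟩ := exists_pow_lt_of_lt_one hε (inv_lt_one_of_one_lt₀ ha)
    refine ⟨N, fun m hm w hw => ?_⟩
    have hw0 : w 0 = 0 := hw
    have h1 : ‖((slRep (n + 2) K).comp π (g ^ m)) w‖ ≤ ‖w‖ := by
      rw [pi_norm_le_iff_of_nonneg (norm_nonneg _)]
      intro i
      rw [hγpow, norm_mul, norm_pow]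
      by_cases hi : i = 0
      · subst hi; rw [hw0, norm_zero, mul_zero]; exact norm_nonneg _
      · have h2 : ‖d i‖ ≤ 1 := by
          by_cases hi' : i = 1
          · simp only [d, hi, hi', if_false, if_true]
            rw [if_neg (by simp), norm_inv]
            exact (inv_lt_one_of_one_lt₀ ha).le
          · simp only [d, hi, hi', if_false, norm_one, le_refl]
        calc ‖d i‖ ^ m * ‖w i‖ ≤ 1 * ‖w i‖ := by
              gcongr; exact pow_le_one₀ (norm_nonneg _) h2
          _ ≤ ‖w‖ := by rw [one_mul]; exact norm_le_pi_norm w i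
    refine h1.trans ?_
    have h3 : (1 : ℝ) ≤ ε * ‖a‖ ^ m := by
      have h4 : (‖a‖⁻¹) ^ m ≤ ε :=
        (pow_le_pow_of_le_one (by positivity) (inv_lt_one_of_one_lt₀ ha).le hm).trans hN.le
      have h5 : 0 < ‖a‖ ^ m := by positivity
      rw [inv_pow, inv_le_iff_one_le_mul₀ h5] at h4
      exact h4
    calc ‖w‖ = 1 * ‖w‖ := (one_mul _).symm
      _ ≤ ε * ‖a‖ ^ m * ‖w‖ := by gcongr
  · -- transvections
    have htr : ∀ j : Fin (n + 2), j ≠ 0 → ∃ k : G, ∀ w : Fin (n + 2) → K,
        φ (((slRep (n + 2) K).comp π k) w) = w 0 + w j := by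
      intro j hj
      obtain ⟨k, hk⟩ := hπ ⟨Matrix.transvection 0 j 1, Matrix.det_transvection_of_ne 0 j hj.symm 1⟩
      refine ⟨k, fun w => ?_⟩
      rw [MonoidHom.comp_apply, hk, slRep_apply]
      show (Matrix.transvection (0 : Fin (n + 2)) j (1 : K)).mulVec w 0 = _
      unfold Matrix.transvection
      rw [Matrix.add_mulVec, Matrix.one_mulVec]
      simp [Matrix.single_mulVec]
    choose! T hT using htr
    refine ⟨1 / 2, by norm_num, insert 1 (Finset.univ.image T), fun w => ?_⟩
    obtain ⟨j, hj⟩ : ∃ j, ‖w‖ = ‖w j‖ := by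
      obtain ⟨j, _, hj⟩ := Finset.exists_mem_eq_sup' (Finset.univ_nonempty) (fun i => ‖w i‖)
      refine ⟨j, le_antisymm ?_ (norm_le_pi_norm w j)⟩
      rw [pi_norm_le_iff_of_nonneg (norm_nonneg _)]
      intro i
      rw [← hj]
      exact Finset.le_sup' (fun i => ‖w i‖) (Finset.mem_univ i)
    have hone : φ (((slRep (n + 2) K).comp π 1) w) = w 0 := by
      rw [map_one]; rfl
    by_cases hc : 1 / 2 * ‖w‖ ≤ ‖w 0‖
    · exact ⟨1, Finset.mem_insert_self _ _, by rw [hone]; exact hc⟩
    · push_neg at hc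
      have hj0 : j ≠ 0 := by
        rintro rfl
        have := norm_nonneg w
        linarith
      refine ⟨T j, Finset.mem_insert_of_mem (Finset.mem_image_of_mem _ (Finset.mem_univ _)), ?_⟩
      rw [hT j hj0]
      have h1 : ‖w j‖ ≤ ‖w 0 + w j‖ + ‖w 0‖ := by
        calc ‖w j‖ = ‖(w 0 + w j) - w 0‖ := by rw [add_sub_cancel_left]
          _ ≤ _ := norm_sub_le _ _
      linarith

end Pool.Agent.H60.SM
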