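import Mathlib
import Pool.Agent.H60.SM.Eigen

/-!
Isometric actions on 0-hyperbolic spaces (trees, real trees) with a hyperbolic element.
-/

set_option autoImplicit false
open Topology Pointwise Filter

namespace Pool.Agent.H60.SM

lemma exp_one_order' (n : ℤ) (h : (Circle.exp 1) ^ n = 1) : n = 0 := by
  rw [← Circle.exp_zsmul] at h
  rw [Circle.exp_eq_one] at h
  obtain ⟨m, hm⟩ := h
  by_contra hn
  have hm0 : m ≠ 0 := by
    rintro rfl
    simp at hm
    exact hn (by exact_mod_cast hm)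
  have h1 : Real.pi = ((n : ℚ) / (2 * m) : ℚ) := by
    push_cast
    have h2 : (m : ℝ) ≠ 0 := by exact_mod_cast hm0
    field_simp
    simp at hm
    linarith
  exact irrational_pi ⟨_, h1.symm⟩

section

variable {G S : Type} [Group G] [PseudoMetricSpace S] [MulAction G S]

lemma two_of_three {a b c : ℝ} (h1 : a ≤ max b c) (h2 : b ≤ max c a) (h : c < b) : a = b := by
  rcases le_max_iff.1 h1 with h3 | h3 <;> rcases le_max_iff.1 h2 with h4 | h4 <;> linarith

/-- distances along an orbit -/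
lemma D_lin (hiso : ∀ (k : G) (x y : S), dist (k • x) (k • y) = dist x y)
    (h4 : ∀ x y z w : S, dist x y + dist z w ≤ max (dist x z + dist y w) (dist x w + dist y z))
    (x₀ : S) (g : G) (ℓ : ℝ) (hℓ : 0 < ℓ)
    (h2 : dist x₀ (g ^ 2 • x₀) = dist x₀ (g • x₀) + ℓ) :
    ∀ n : ℕ, dist x₀ (g ^ (n + 1) • x₀) = dist x₀ (g • x₀) + n * ℓ := by
  have hsh : ∀ m j : ℕ, dist (g ^ m • x₀) (g ^ (m + j) • x₀) = dist x₀ (g ^ j • x₀) := by
    intro m j
    rw [pow_add, mul_smul, hiso]
  have key : ∀ n : ℕ, dist x₀ (g ^ (n + 1) • x₀) = dist x₀ (g • x₀) + n * ℓ ∧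
      dist x₀ (g ^ (n + 2) • x₀) = dist x₀ (g • x₀) + (n + 1) * ℓ := by
    intro n
    induction n with
    | zero => simp [h2]
    | succ n ih =>
      refine ⟨?_, ?_⟩
      · have := ih.2
        rw [show n + 1 + 1 = n + 2 by ring, this]
        push_cast
        ring
      · obtain ⟨ih1, ih2⟩ := ih
        have e1 : dist (g • x₀) (g ^ (n + 2) • x₀) = dist x₀ (g ^ (n + 1) • x₀) := by
          have := hsh 1 (n + 1)
          rw [pow_one, show 1 + (n + 1) = n + 2 by ring] at this
          exact this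
        have e2 : dist (g • x₀) (g ^ (n + 3) • x₀) = dist x₀ (g ^ (n + 2) • x₀) := by
          have := hsh 1 (n + 2)
          rw [pow_one, show 1 + (n + 2) = n + 3 by ring] at this
          exact this
        have e3 : dist (g ^ (n + 2) • x₀) (g ^ (n + 3) • x₀) = dist x₀ (g • x₀) := by
          have := hsh (n + 2) 1
          rw [pow_one] at this
          exact this
        have f1 := h4 x₀ (g ^ (n + 3) • x₀) (g • x₀) (g ^ (n + 2) • x₀)
        have f2 := h4 x₀ (g ^ (n + 2) • x₀) (g • x₀) (g ^ (n + 3) • x₀)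
        rw [dist_comm (g ^ (n + 3) • x₀) (g ^ (n + 2) • x₀),
          dist_comm (g ^ (n + 3) • x₀) (g • x₀), e1, e2, e3] at f1
        rw [dist_comm (g ^ (n + 2) • x₀) (g • x₀), e1, e2, e3] at f2
        have h5 := two_of_three (a := dist x₀ (g ^ (n + 3) • x₀) + dist x₀ (g ^ (n + 1) • x₀))
          (b := dist x₀ (g ^ (n + 2) • x₀) + dist x₀ (g ^ (n + 2) • x₀))
          (c := dist x₀ (g • x₀) + dist x₀ (g • x₀))
          (by rw [max_comm]; exact f1) f2
          (by rw [ih2]; nlinarith)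
        rw [show n + 1 + 2 = n + 3 by ring]
        push_cast
        linarith
  exact fun n => (key n).1

/-- Busemann function of the orbit of `g` -/
lemma buse (hiso : ∀ (k : G) (x y : S), dist (k • x) (k • y) = dist x y)
    (h4 : ∀ x y z w : S, dist x y + dist z w ≤ max (dist x z + dist y w) (dist x w + dist y z))
    (x₀ : S) (g : G) (ℓ : ℝ) (hℓ : 0 < ℓ)
    (h2 : dist x₀ (g ^ 2 • x₀) = dist x₀ (g • x₀) + ℓ) (x : S) :
    ∃ β : ℝ, ∃ N : ℕ, ∀ n ≥ N, dist x (g ^ n • x₀) = β + n * ℓ := by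
  have hD := D_lin hiso h4 x₀ g ℓ hℓ h2
  obtain ⟨N, hN⟩ := exists_nat_gt (dist x x₀ / ℓ + 1)
  have hstep : ∀ n ≥ N, dist x (g ^ (n + 1) • x₀) = dist x (g ^ n • x₀) + ℓ := by
    intro n hn
    have hn' : dist x x₀ / ℓ + 1 < n := lt_of_lt_of_le hN (by exact_mod_cast hn)
    have hn1 : 1 ≤ n := by
      by_contra h
      have : n = 0 := by omega
      subst this
      have : 0 ≤ dist x x₀ / ℓ := by positivity
      simp at hn'
      linarith
    obtain ⟨m, rfl⟩ : ∃ m, n = m + 1 := ⟨n - 1, by omega⟩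
    have e1 : dist (g ^ (m + 1) • x₀) (g ^ (m + 2) • x₀) = dist x₀ (g • x₀) := by
      rw [show m + 2 = (m + 1) + 1 by ring, pow_succ g (m + 1), mul_smul, hiso]
    have hA := hD m
    have hB := hD (m + 1)
    rw [show m + 1 + 1 = m + 2 by ring] at hB ⊢
    have f1 := h4 x (g ^ (m + 2) • x₀) (g ^ (m + 1) • x₀) x₀
    have f2 := h4 x (g ^ (m + 1) • x₀) (g ^ (m + 2) • x₀) x₀
    have htri : dist x₀ (g ^ (m + 1) • x₀) ≤ dist x x₀ + dist x (g ^ (m + 1) • x₀) := by
      rw [dist_comm x x₀]; exact dist_triangle _ _ _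
    rw [dist_comm (g ^ (m + 1) • x₀) x₀, dist_comm (g ^ (m + 2) • x₀) x₀,
      dist_comm (g ^ (m + 2) • x₀) (g ^ (m + 1) • x₀), e1] at f1
    rw [dist_comm (g ^ (m + 1) • x₀) x₀, dist_comm (g ^ (m + 2) • x₀) x₀, e1] at f2
    have hd1 : 0 ≤ dist x₀ (g • x₀) := dist_nonneg
    have hlt : dist x x₀ < m * ℓ := by
      push_cast at hn'
      have : dist x x₀ / ℓ < m := by linarith
      rwa [div_lt_iff₀ hℓ] at this
    have h5 := two_of_three
      (a := dist x (g ^ (m + 2) • x₀) + dist x₀ (g ^ (m + 1) • x₀))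
      (b := dist x (g ^ (m + 1) • x₀) + dist x₀ (g ^ (m + 2) • x₀))
      (c := dist x x₀ + dist x₀ (g • x₀))
      f1 (by rw [max_comm]; exact f2) (by
        rw [hB]; push_cast
        nlinarith)
    rw [hA, hB] at h5
    push_cast at h5
    linarith
  refine ⟨dist x (g ^ N • x₀) - N * ℓ, N, fun n hn => ?_⟩
  induction n, hn using Nat.le_induction with
  | base => ring
  | succ n hn ih =>
    rw [hstep n hn, ih]
    push_cast
    ring

/-- **Tree criterion.** -/
theorem tree (hiso : ∀ (k : G) (x y : S), dist (k • x) (k • y) = dist x y)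
    (h4 : ∀ x y z w : S, dist x y + dist z w ≤ max (dist x z + dist y w) (dist x w + dist y z))
    (x₀ : S) (g : G) (hg : dist x₀ (g • x₀) < dist x₀ (g ^ 2 • x₀)) :
    HasSyndeticSubmeasure G := by
  classical
  set ℓ : ℝ := dist x₀ (g ^ 2 • x₀) - dist x₀ (g • x₀) with hℓdef
  have hℓ : 0 < ℓ := by rw [hℓdef]; linarith
  have h2 : dist x₀ (g ^ 2 • x₀) = dist x₀ (g • x₀) + ℓ := by rw [hℓdef]; ring
  have hinv1 : dist x₀ (g⁻¹ • x₀) = dist x₀ (g • x₀) := by
    rw [← hiso g x₀ (g⁻¹ • x₀), smul_inv_smul, dist_comm]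
  have hinv2 : dist x₀ (g⁻¹ ^ 2 • x₀) = dist x₀ (g⁻¹ • x₀) + ℓ := by
    rw [hinv1, ← h2, ← hiso (g ^ 2) x₀ (g⁻¹ ^ 2 • x₀), inv_pow, smul_inv_smul, dist_comm]
  choose βp Np hβp using buse hiso h4 x₀ g ℓ hℓ h2
  choose βm Nm hβm using buse hiso h4 x₀ g⁻¹ ℓ hℓ hinv2
  set C : ℝ := dist x₀ (g • x₀) - ℓ with hC
  have hD := D_lin hiso h4 x₀ g ℓ hℓ h2
  -- the basic formula
  have hform : ∀ x z : S, βm x - βp x < βm z - βp z → dist x z = βp x + βm z - C := by
    intro x z hs
    set m : ℕ := max (max (Np x) (Np z)) (max (Nm x) (Nm z)) + 1 with hm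
    have b1 := hβp x m (by omega)
    have b2 := hβp z m (by omega)
    have b3 := hβm x m (by omega)
    have b4 := hβm z m (by omega)
    have b5 : dist (g ^ m • x₀) (g⁻¹ ^ m • x₀) = C + 2 * m * ℓ := by
      rw [← hiso (g ^ m) (g ^ m • x₀) (g⁻¹ ^ m • x₀), inv_pow, smul_inv_smul, ← mul_smul,
        ← pow_add, dist_comm]
      have := hD (m + m - 1)
      rw [Nat.sub_add_cancel (by omega)] at this
      rw [this, hC, Nat.cast_sub (by omega)]
      push_cast
      ring
    have f1 := h4 x z (g ^ m • x₀) (g⁻¹ ^ m • x₀)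
    have f2 := h4 x (g ^ m • x₀) (g⁻¹ ^ m • x₀) z
    rw [b5, b1, b3, b2, b4] at f1
    rw [dist_comm (g⁻¹ ^ m • x₀) z, dist_comm (g ^ m • x₀) z, b1, b2, b3, b4, b5] at f2
    have h5 := two_of_three (a := dist x z + (C + 2 * m * ℓ))
      (b := βp x + m * ℓ + (βm z + m * ℓ)) (c := βm x + m * ℓ + (βp z + m * ℓ))
      f1 (by convert f2 using 2) (by linarith)
    linarith
  -- equivariance
  have hgp : ∀ x, βp (g⁻¹ • x) = βp x + ℓ := by
    intro x
    have b1 := hβp (g⁻¹ • x) (max (Np (g⁻¹ • x)) (Np x)) (le_max_left _ _)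
    have b2 := hβp x (max (Np (g⁻¹ • x)) (Np x) + 1) (by
      have := le_max_right (Np (g⁻¹ • x)) (Np x); omega)
    have b3 : dist (g⁻¹ • x) (g ^ (max (Np (g⁻¹ • x)) (Np x)) • x₀) =
        dist x (g ^ (max (Np (g⁻¹ • x)) (Np x) + 1) • x₀) := by
      rw [← hiso g (g⁻¹ • x), smul_inv_smul, ← mul_smul, ← pow_succ']
    rw [b3, b2] at b1
    push_cast at b1
    linarith
  have hgp' : ∀ x, βp (g • x) = βp x - ℓ := by
    intro x
    have := hgp (g • x)
    rw [inv_smul_smul] at this
    linarith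
  have hgm : ∀ x, βm (g • x) = βm x + ℓ := by
    intro x
    have b1 := hβm (g • x) (max (Nm (g • x)) (Nm x)) (le_max_left _ _)
    have b2 := hβm x (max (Nm (g • x)) (Nm x) + 1) (by
      have := le_max_right (Nm (g • x)) (Nm x); omega)
    have b3 : dist (g • x) (g⁻¹ ^ (max (Nm (g • x)) (Nm x)) • x₀) =
        dist x (g⁻¹ ^ (max (Nm (g • x)) (Nm x) + 1) • x₀) := by
      rw [← hiso g⁻¹ (g • x), inv_smul_smul, ← mul_smul, ← pow_succ']
    rw [b3, b2] at b1
    push_cast at b1
    linarith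
  have hgs : ∀ (n : ℕ) (x : S), βm (g ^ n • x) - βp (g ^ n • x) = βm x - βp x + 2 * n * ℓ := by
    intro n x
    induction n with
    | zero => simp
    | succ n ih =>
      rw [pow_succ', mul_smul, hgm, hgp']
      push_cast
      linarith
  let HS : ℝ → Circle := fun s => Circle.exp (s / ℓ)
  have hHS : ∀ s t, HS (s + t) = HS s * HS t := by
    intro s t
    show Circle.exp ((s + t) / ℓ) = _
    rw [add_div, Circle.exp_add]
  have hHSℓ : HS ℓ = Circle.exp 1 := by
    show Circle.exp (ℓ / ℓ) = _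
    rw [div_self hℓ.ne']
  let FZ : S → S → Circle := fun z x => HS (dist x z)
  let Fp : S → Circle := fun x => HS (βp x)
  let Fm : S → Circle := fun x => HS (βm x)
  have htrans : ∀ k : G, Continuous (fun (f : S → Circle) (x : S) => f (k⁻¹ • x)) :=
    fun k => continuous_pi (fun x => continuous_apply (k⁻¹ • x))
  by_cases hcase : ∀ k : G, ∃ c : Circle, ∀ x, Fm (k⁻¹ • x) = c * Fm x
  · -- the repelling end is fixed
    refine eigen (S := S) x₀ Fm g⁻¹ (Circle.exp 1) exp_one_order' ?_
      {f | ∃ c : Circle, f = fun x => c * Fm x} ?_ ⟨Fm, 1, by funext x; rw [one_mul]⟩ ?_ ?_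
    · intro x
      rw [inv_inv]
      show HS (βm (g • x)) = Circle.exp 1 * HS (βm x)
      rw [hgm, add_comm, hHS, hHSℓ]
    · have : {f : S → Circle | ∃ c : Circle, f = fun x => c * Fm x} =
          (fun (c : Circle) (x : S) => c * Fm x) '' Set.univ := by
        ext f
        constructor
        · rintro ⟨c, rfl⟩; exact ⟨c, trivial, rfl⟩
        · rintro ⟨c, _, rfl⟩; exact ⟨c, rfl⟩
      rw [this]
      refine (isCompact_univ.image ?_).isClosed
      exact continuous_pi (fun x => continuous_id.mul continuous_const)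
    · rintro k _ ⟨c, rfl⟩
      obtain ⟨c', hc'⟩ := hcase k
      refine ⟨c * c', ?_⟩
      funext x
      show c * Fm (k⁻¹ • x) = _
      rw [hc', mul_assoc]
    · rintro _ ⟨c, rfl⟩
      refine ⟨c, subset_closure ⟨1, ?_⟩⟩
      funext x
      simp
  · push_neg at hcase
    obtain ⟨k₀, hk₀⟩ := hcase
    let Gen : ℝ → Set (S → Circle) := fun R =>
      {f | ∃ (c : Circle) (z : S), -R ≤ βm z - βp z ∧ f = fun x => c * FZ z x}
    let W₀ : Set (S → Circle) := closure {f | ∃ (c : Circle) (z : S), f = fun x => c * FZ z x}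
    have hWG : ∀ (k : G), ∀ f ∈ W₀, (fun x => f (k⁻¹ • x)) ∈ W₀ := by
      intro k f hf
      refine map_mem_closure (htrans k) hf ?_
      rintro _ ⟨c, z, rfl⟩
      refine ⟨c, k • z, ?_⟩
      funext x
      show c * HS (dist (k⁻¹ • x) z) = c * HS (dist x (k • z))
      rw [← hiso k (k⁻¹ • x) z, smul_inv_smul]
    -- dichotomy
    have hdich : ∀ f ∈ W₀, (∃ R, f ∈ closure (Gen R)) ∨ ∀ x y, f x * Fm y = f y * Fm x := by
      intro f hf
      by_cases hR : ∃ R, f ∈ closure (Gen R)
      · exact Or.inl hR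
      · right
        push_neg at hR
        intro x y
        set R : ℝ := -(min (βm x - βp x) (βm y - βp y)) with hRdef
        have hsub : {f | ∃ (c : Circle) (z : S), f = fun x => c * FZ z x} ⊆ Gen R ∪
            {f | ∃ (c : Circle) (z : S), βm z - βp z < -R ∧ f = fun x => c * FZ z x} := by
          rintro _ ⟨c, z, rfl⟩
          rcases le_or_gt (-R) (βm z - βp z) with h | h
          · exact Or.inl ⟨c, z, h, rfl⟩
          · exact Or.inr ⟨c, z, h, rfl⟩
        have h1 := closure_mono hsub hf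
        rw [closure_union] at h1
        rcases h1 with h1 | h1
        · exact absurd h1 (hR R)
        · have hcl : IsClosed {f : S → Circle | f x * Fm y = f y * Fm x} :=
            isClosed_eq ((continuous_apply x).mul continuous_const)
              ((continuous_apply y).mul continuous_const)
          refine closure_minimal ?_ hcl h1
          rintro _ ⟨c, z, hz, rfl⟩
          have hzx : βm z - βp z < βm x - βp x := by
            have := min_le_left (βm x - βp x) (βm y - βp y)
            rw [hRdef] at hz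
            linarith
          have hzy : βm z - βp z < βm y - βp y := by
            have := min_le_right (βm x - βp x) (βm y - βp y)
            rw [hRdef] at hz
            linarith
          show c * HS (dist x z) * HS (βm y) = c * HS (dist y z) * HS (βm x)
          rw [dist_comm x z, dist_comm y z, hform z x hzx, hform z y hzy, mul_assoc, mul_assoc,
            ← hHS, ← hHS]
          congr 2
          ring
    -- convergence
    have hconv : ∀ R, ∀ f' ∈ closure (Gen R), ∀ x y : S, ∃ N : ℕ, ∀ n ≥ N,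
        f' ((g ^ n)⁻¹ • x) * Fp y = f' ((g ^ n)⁻¹ • y) * Fp x := by
      intro R f' hf' x y
      obtain ⟨N, hN⟩ := exists_nat_gt
        ((max (βm x - βp x) (βm y - βp y) + R) / (2 * ℓ))
      refine ⟨N, fun n hn => ?_⟩
      have hn' : (max (βm x - βp x) (βm y - βp y) + R) / (2 * ℓ) < n :=
        lt_of_lt_of_le hN (by exact_mod_cast hn)
      rw [div_lt_iff₀ (by positivity)] at hn'
      have hcl : IsClosed {f : S → Circle |
          f ((g ^ n)⁻¹ • x) * Fp y = f ((g ^ n)⁻¹ • y) * Fp x} :=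
        isClosed_eq ((continuous_apply _).mul continuous_const)
          ((continuous_apply _).mul continuous_const)
      refine closure_minimal ?_ hcl hf'
      rintro _ ⟨c, z, hz, rfl⟩
      have hs := hgs n z
      have hx1 : βm x - βp x < βm (g ^ n • z) - βp (g ^ n • z) := by
        have := le_max_left (βm x - βp x) (βm y - βp y)
        rw [hs]
        linarith
      have hy1 : βm y - βp y < βm (g ^ n • z) - βp (g ^ n • z) := by
        have := le_max_right (βm x - βp x) (βm y - βp y)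
        rw [hs]
        linarith
      show c * HS (dist ((g ^ n)⁻¹ • x) z) * HS (βp y) =
        c * HS (dist ((g ^ n)⁻¹ • y) z) * HS (βp x)
      rw [← hiso (g ^ n) ((g ^ n)⁻¹ • x) z, ← hiso (g ^ n) ((g ^ n)⁻¹ • y) z, smul_inv_smul,
        smul_inv_smul, hform x _ hx1, hform y _ hy1, mul_assoc, mul_assoc, ← hHS, ← hHS]
      congr 2
      ring
    refine eigen (S := S) x₀ Fp g (Circle.exp 1) exp_one_order' ?_ W₀ isClosed_closure
      ⟨fun x => 1 * FZ x₀ x, subset_closure ⟨1, x₀, rfl⟩⟩ hWG ?_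
    · intro x
      show HS (βp (g⁻¹ • x)) = Circle.exp 1 * HS (βp x)
      rw [hgp, add_comm, hHS, hHSℓ]
    · intro f hf
      obtain ⟨k, R, hfk⟩ : ∃ (k : G) (R : ℝ), (fun x => f (k⁻¹ • x)) ∈ closure (Gen R) := by
        rcases hdich f hf with ⟨R, hR⟩ | hbad
        · exact ⟨1, R, by simpa using hR⟩
        · rcases hdich _ (hWG k₀ f hf) with ⟨R, hR⟩ | hbad'
          · exact ⟨k₀, R, hR⟩
          · exfalso
            obtain ⟨x, hx⟩ := hk₀ (Fm (k₀⁻¹ • x₀) * (Fm x₀)⁻¹)
            apply hx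
            have e1 : ∀ z, f z = f x₀ * (Fm x₀)⁻¹ * Fm z := by
              intro z
              have := hbad z x₀
              rw [mul_right_comm, ← this, mul_inv_cancel_right]
            have e2 := hbad' x x₀
            have e3 : f (k₀⁻¹ • x) * Fm x₀ = f (k₀⁻¹ • x₀) * Fm x := e2
            rw [e1 (k₀⁻¹ • x), e1 (k₀⁻¹ • x₀)] at e3
            have e4 : Fm (k₀⁻¹ • x) * Fm x₀ = Fm (k₀⁻¹ • x₀) * Fm x := by
              refine mul_left_cancel (a := f x₀ * (Fm x₀)⁻¹) ?_
              rw [← mul_assoc, ← mul_assoc]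
              exact e3
            rw [mul_right_comm, ← e4, mul_inv_cancel_right]
      set f' : S → Circle := fun x => f (k⁻¹ • x) with hf'
      let fs : ℕ → (S → Circle) := fun n x => f' ((g ^ n)⁻¹ • x)
      let 𝒰 : Ultrafilter ℕ := Filter.hyperfilter ℕ
      have hlim : Tendsto fs (𝒰 : Filter ℕ) (𝓝 (𝒰.map fs).lim) := Ultrafilter.le_nhds_lim _
      set fi := (𝒰.map fs).lim with hfi
      have hfi_mem : fi ∈ closure (Set.range (fun (k : G) (x : S) => f (k⁻¹ • x))) := by
        refine isClosed_closure.mem_of_tendsto hlim (Eventually.of_forall fun n => ?_)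
        refine subset_closure ⟨g ^ n * k, ?_⟩
        funext x
        show f ((g ^ n * k)⁻¹ • x) = f (k⁻¹ • (g ^ n)⁻¹ • x)
        rw [mul_inv_rev, mul_smul]
      have hpt : ∀ x, Tendsto (fun n => fs n x) (𝒰 : Filter ℕ) (𝓝 (fi x)) :=
        fun x => tendsto_pi_nhds.1 hlim x
      have heq : ∀ x y : S, fi x * Fp y = fi y * Fp x := by
        intro x y
        obtain ⟨N, hN⟩ := hconv R f' hfk x y
        have h3 : ∀ᶠ n in atTop, fs n x * Fp y = fs n y * Fp x := eventually_atTop.2 ⟨N, hN⟩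
        have h4 : ∀ᶠ n in (𝒰 : Filter ℕ), fs n x * Fp y = fs n y * Fp x :=
          Nat.hyperfilter_le_atTop h3
        refine tendsto_nhds_unique_of_eventuallyEq ((hpt x).mul tendsto_const_nhds)
          ((hpt y).mul tendsto_const_nhds) h4
      refine ⟨fi x₀ * (Fp x₀)⁻¹, ?_⟩
      convert hfi_mem using 1
      funext x
      have := heq x x₀
      rw [mul_right_comm, ← this, mul_inv_cancel_right]

end

end Pool.Agent.H60.SM
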