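import Mathlib
import Pool.Agent.H60.SM.Core

/-!
Passing from a subgroup of finite index to the group.
-/

set_option autoImplicit false
open Topology Pointwise Filter

namespace Pool.Agent.H60.SM

theorem of_finiteIndex (G : Type) [Group G] (H : Subgroup G) [H.FiniteIndex]
    (hH : HasSyndeticSubmeasure H) : HasSyndeticSubmeasure G := by
  classical
  obtain ⟨μ, hrange, h0, h1, hmono, hsub, hinv, hsyn⟩ := hH
  haveI : Finite (G ⧸ H) := inferInstance
  haveI : Fintype (G ⧸ H) := Fintype.ofFinite _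
  -- the part of `A` in the left coset of `t`, moved to `H`
  let tr : G → Set G → Set H := fun t A => {h : H | t * (h : G) ∈ A}
  have htr_coset : ∀ (t : G) (h : H) (A : Set G), μ (tr (t * h) A) = μ (tr t A) := by
    intro t h A
    rw [← hinv h (tr (t * h) A)]
    congr 1
    ext x
    constructor
    · rintro ⟨y, hy, rfl⟩
      show t * ((h * y : H) : G) ∈ A
      have : (t * h) * (y : G) ∈ A := hy
      rwa [Subgroup.coe_mul, ← mul_assoc]
    · intro hx
      refine ⟨h⁻¹ * x, ?_, mul_inv_cancel_left h x⟩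
      show (t * h) * ((h⁻¹ * x : H) : G) ∈ A
      have : t * (x : G) ∈ A := hx
      rw [Subgroup.coe_mul, ← mul_assoc]
      convert this using 2
      simp
  let ν : G ⧸ H → Set G → ℝ := fun q A => μ (tr q.out A)
  have hν : ∀ (t : G) (A : Set G), ν (t : G ⧸ H) A = μ (tr t A) := by
    intro t A
    obtain ⟨h, hh⟩ := QuotientGroup.mk_out_eq_mul H t
    show μ (tr ((t : G ⧸ H)).out A) = _
    rw [hh, htr_coset]
  set n : ℝ := (Fintype.card (G ⧸ H) : ℝ) with hn
  have hn0 : 0 < n := by
    rw [hn]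
    exact_mod_cast Fintype.card_pos
  refine ⟨fun A => (∑ q : G ⧸ H, ν q A) / n, ?_, ?_, ?_, ?_, ?_, ?_, ?_⟩
  · intro A
    refine ⟨div_nonneg (Finset.sum_nonneg fun q _ => (hrange _).1) hn0.le, ?_⟩
    rw [div_le_one hn0]
    calc ∑ q : G ⧸ H, ν q A ≤ ∑ _q : G ⧸ H, (1 : ℝ) :=
          Finset.sum_le_sum fun q _ => (hrange _).2
      _ = n := by simp [hn]
  · have : ∀ q : G ⧸ H, ν q ∅ = 0 := by
      intro q
      have : tr q.out ∅ = ∅ := by ext x; simp [tr]
      show μ (tr q.out ∅) = 0
      rw [this, h0]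
    simp [this]
  · have : ∀ q : G ⧸ H, ν q Set.univ = 1 := by
      intro q
      have : tr q.out Set.univ = Set.univ := by ext x; simp [tr]
      show μ (tr q.out Set.univ) = 1
      rw [this, h1]
    simp only [this]
    rw [Finset.sum_const, Finset.card_univ, nsmul_eq_mul, mul_one]
    exact div_self hn0.ne'
  · intro A B hAB
    show (∑ q : G ⧸ H, ν q A) / n ≤ (∑ q : G ⧸ H, ν q B) / n
    gcongr with q
    exact hmono _ _ (fun x hx => hAB hx)
  · intro A B
    show (∑ q : G ⧸ H, ν q (A ∪ B)) / n ≤ (∑ q : G ⧸ H, ν q A) / n + (∑ q : G ⧸ H, ν q B) / n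
    rw [← add_div, ← Finset.sum_add_distrib]
    gcongr with q
    exact hsub _ _
  · intro x A
    show (∑ q : G ⧸ H, ν q ((fun y => x * y) '' A)) / n = (∑ q : G ⧸ H, ν q A) / n
    congr 1
    have hx : ∀ q : G ⧸ H, ν q ((fun y => x * y) '' A) = ν (x⁻¹ • q) A := by
      intro q
      induction q using QuotientGroup.induction_on with
      | H t =>
        rw [hν]
        have : x⁻¹ • (t : G ⧸ H) = ((x⁻¹ * t : G) : G ⧸ H) := rfl
        rw [this, hν]
        congr 1
        ext h
        constructor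
        · rintro ⟨y, hy, hyx⟩
          show x⁻¹ * t * (h : G) ∈ A
          have h3 : y = x⁻¹ * t * (h : G) := by
            have h4 : x * y = t * (h : G) := hyx
            rw [mul_assoc, ← h4, inv_mul_cancel_left]
          rwa [← h3]
        · intro hh
          exact ⟨x⁻¹ * t * (h : G), hh, by simp [mul_assoc]⟩
    simp only [hx]
    exact Fintype.sum_equiv (MulAction.toPerm x⁻¹) _ _ (fun q => rfl)
  · intro A hA ε hε
    have hA' : (∑ q : G ⧸ H, ν q A) / n < 1 := hA
    obtain ⟨q, hq⟩ : ∃ q, ν q A < 1 := by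
      by_contra hcon
      push_neg at hcon
      rw [div_lt_one hn0] at hA'
      have : n ≤ ∑ q : G ⧸ H, ν q A := by
        calc n = ∑ _q : G ⧸ H, (1 : ℝ) := by simp [hn]
          _ ≤ _ := Finset.sum_le_sum fun q _ => hcon q
      linarith
    obtain ⟨B₀, hB₀, hB₀ε, F, hF⟩ := hsyn (tr q.out A) hq ε hε
    set t : G := q.out with ht
    refine ⟨(fun h : H => t * (h : G)) '' B₀, ?_, ?_, ?_⟩
    · rintro _ ⟨b, hb, rfl⟩ hbA
      exact hB₀ hb hbA
    · have hνq : ∀ r : G ⧸ H, ν r ((fun h : H => t * (h : G)) '' B₀) ≤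
          if r = q then μ B₀ else 0 := by
        intro r
        by_cases hr : r = q
        · subst hr
          rw [if_pos rfl]
          show μ (tr r.out _) ≤ μ B₀
          refine hmono _ _ ?_
          rintro h ⟨b, hb, hbh⟩
          have h3 : t * (b : G) = t * (h : G) := hbh
          have h4 : b = h := Subtype.ext (mul_left_cancel h3)
          rwa [← h4]
        · rw [if_neg hr]
          show μ (tr r.out _) ≤ 0
          have : tr r.out ((fun h : H => t * (h : G)) '' B₀) = ∅ := by
            ext h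
            simp only [Set.mem_empty_iff_false, iff_false]
            rintro ⟨b, _, hbh⟩
            apply hr
            have h3 : t * (b : G) = r.out * (h : G) := hbh
            have h4 : ((t * (b : G) : G) : G ⧸ H) = ((r.out * (h : G) : G) : G ⧸ H) := by rw [h3]
            rw [QuotientGroup.mk_mul_of_mem _ b.2, QuotientGroup.mk_mul_of_mem _ h.2] at h4
            rw [ht, QuotientGroup.out_eq', QuotientGroup.out_eq'] at h4
            exact h4.symm
          rw [this, h0]
      have hB0 : 0 ≤ μ B₀ := (hrange _).1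
      show (∑ r : G ⧸ H, ν r ((fun h : H => t * (h : G)) '' B₀)) / n < ε
      have h5 : ∑ r : G ⧸ H, ν r ((fun h : H => t * (h : G)) '' B₀) ≤ μ B₀ := by
        calc _ ≤ ∑ r : G ⧸ H, (if r = q then μ B₀ else 0) := Finset.sum_le_sum fun r _ => hνq r
          _ = μ B₀ := by simp
      have hn1 : 1 ≤ n := by
        rw [hn]
        exact_mod_cast Fintype.card_pos
      calc (∑ r : G ⧸ H, ν r ((fun h : H => t * (h : G)) '' B₀)) / n ≤ μ B₀ / n := by gcongr
        _ ≤ μ B₀ := div_le_self hB0 hn1
        _ < ε := hB₀ε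
    · refine ⟨((Finset.univ : Finset (G ⧸ H)) ×ˢ F).image
        (fun p => p.1.out * (p.2 : G) * t⁻¹), fun g => ?_⟩
      obtain ⟨h, hh⟩ := QuotientGroup.mk_out_eq_mul H g
      obtain ⟨f, hf, b, hb, hfb⟩ := hF h⁻¹
      refine ⟨((g : G ⧸ H)).out * (f : G) * t⁻¹, Finset.mem_image.2 ⟨((g : G ⧸ H), f),
        Finset.mem_product.2 ⟨Finset.mem_univ _, hf⟩, rfl⟩, t * (b : G), ⟨b, hb, rfl⟩, ?_⟩
      have h6 : ((f : G) * (b : G)) = (h : G)⁻¹ := by
        have := congrArg (Subtype.val) hfb
        simpa using this.symm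
      calc g = ((g : G ⧸ H)).out * (h : G)⁻¹ := by rw [hh]; simp
        _ = ((g : G ⧸ H)).out * ((f : G) * (b : G)) := by rw [h6]
        _ = _ := by group

end Pool.Agent.H60.SM
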